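import Pool.Agent.Lib.MP_e62723_gt.TD.Defs

/-!
# JOB Bas: first properties of `Reg C f F`

`f_zero`: `f 0 = f (2 • 0) = 2 * f 0` (`hom`).
`euler` (`⟪F y, y⟫ = f y`): for `y = 0` both sides are `0`. For `y ≠ 0` the function
`t ↦ f (t • y)` equals `t * f y` for `t > 0`; its derivative at `t = 1` is `⟪F y, y⟫` by the chain
rule (`HasFDerivAt.comp_hasDerivAt`) and `f y` directly (`HasDerivAt.unique`, eventual equality
near `1`).
`bound`: `F y = F (‖y‖⁻¹ • y)` for `y ≠ 0` and `‖F u - F (e 0)‖ ≤ C * ‖u - e 0‖ ≤ 2 C` for unit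
`u`, so `‖F y‖ ≤ ‖F (e 0)‖ + 2 C` for `y ≠ 0`; take `B = ‖F 0‖ + ‖F (e 0)‖ + 2 C`.
`abs_le`: `euler` and Cauchy-Schwarz.
`norm_proj_sub_le`: with `a = ‖y‖`, `b = ‖z‖ ≥ r`, `c = ⟪y,z⟫ / (a b) ≤ 1`:
`‖y/a - z/b‖² = 2 - 2c` and `‖y - z‖² = a² + b² - 2abc = (a-b)² + ab(2-2c) ≥ r² (2-2c)`
(`norm_sub_sq_real`, `real_inner_le_norm`); then take square roots
(`abs_le_of_sq_le_sq'`, `Real.sqrt_le_sqrt`, `pow_le_pow_left₀` ...).
`lipF`: from `homF` (with `t = ‖y‖⁻¹`), `lip` and `norm_proj_sub_le`.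
`cont`: `f` is continuous at `y ≠ 0` (`HasFDerivAt.continuousAt`), and at `0` by `abs_le`,
`f_zero` (squeeze).
`contF`: from `lipF` with `r = ‖y‖/2` on the ball of radius `‖y‖/2` about `y`
(`Metric.continuousAt_iff`, or `continuousAt_of_locally_lipschitz`).
`measF`: `F` is continuous on the open set `{0}ᶜ` (measurable on it) and constant on `{0}`:
`measurable_of_continuousOn_compl_singleton 0`.
`lipG`: for `y, z`: if one of them is `0` then `‖‖y‖ • F y - 0‖ ≤ B ‖y‖`. Otherwise let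
`‖z‖ ≤ ‖y‖` (symmetric in `y, z`):
`‖y‖ • F y - ‖z‖ • F z = (‖y‖-‖z‖) • F y + ‖z‖ • (F y - F z)`, the first term has norm
`≤ B ‖y - z‖`, the second `≤ ‖z‖ * (C * (‖y-z‖/‖z‖)) = C ‖y - z‖` (`lipF` with `r = ‖z‖`).
So the constant is `B + C` (`LipschitzWith.of_dist_le_mul`, `Real.toNNReal`).
`lipT`: the same with `m(y) = min ‖y‖ 1`, `|m(y) - m(z)| ≤ |‖y‖-‖z‖| ≤ ‖y-z‖`
(`abs_min_sub_min_le_right` or similar), `m(z) ≤ ‖z‖`.
`ae_diff`: the Lipschitz function `G y = ‖y‖ • F y` (`lipG`) is differentiable almost everywhere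
(Rademacher: `LipschitzWith.ae_differentiableAt`), and `F y = ‖y‖⁻¹ • G y` near every `y ≠ 0`,
where the norm is differentiable (`DifferentiableAt.norm ℝ`, `.inv`, `.smul`,
`DifferentiableAt.congr_of_eventuallyEq`); `{0}` is a null set
(`measure_singleton`, `ae_iff`, or `Measure.ae_ne`).
-/

open MeasureTheory Set

namespace Pool.Agent.Lib.MP_e62723_gt.TD

variable {C : ℝ} {f : V → ℝ} {F : V → V}

theorem Reg.f_zero (h : Reg C f F) : f 0 = 0 := by
  have h1 := h.hom 2 0 (by norm_num)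
  rw [smul_zero] at h1
  linarith

theorem Reg.euler (h : Reg C f F) (y : V) : inner ℝ (F y) y = f y := by
  by_cases hy : y = 0
  · rw [hy, inner_zero_right, h.f_zero]
  · have h1 : HasDerivAt (fun t : ℝ => t • y) y 1 := by
      have h2 := (hasDerivAt_id (1 : ℝ)).smul_const y
      rw [one_smul] at h2
      exact h2
    have h2 : HasFDerivAt f (innerSL ℝ (F y)) ((fun t : ℝ => t • y) 1) := by
      change HasFDerivAt f (innerSL ℝ (F y)) ((1 : ℝ) • y)
      rw [one_smul]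
      exact h.grad y hy
    have h3 : HasDerivAt (fun t : ℝ => f (t • y)) (innerSL ℝ (F y) y) 1 :=
      h2.comp_hasDerivAt 1 h1
    have h4 : HasDerivAt (fun t : ℝ => t * f y) (f y) 1 := by
      have h5 := (hasDerivAt_id (1 : ℝ)).mul_const (f y)
      rw [one_mul] at h5
      exact h5
    have h5 : (fun t : ℝ => f (t • y)) =ᶠ[nhds 1] fun t : ℝ => t * f y := by
      filter_upwards [lt_mem_nhds (show (0 : ℝ) < 1 by norm_num)] with t ht
      exact h.hom t y ht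
    have h6 := h3.unique (h4.congr_of_eventuallyEq h5)
    exact h6

theorem Reg.bound (h : Reg C f F) : ∃ B : ℝ, 0 ≤ B ∧ ∀ y, ‖F y‖ ≤ B := by
  have hC := h.nonneg
  have he : ‖e 0‖ = 1 := by
    unfold e
    rw [PiLp.norm_single, norm_one]
  refine ⟨‖F 0‖ + ‖F (e 0)‖ + 2 * C, by positivity, fun y => ?_⟩
  by_cases hy : y = 0
  · rw [hy]
    have h1 := norm_nonneg (F (e 0))
    linarith
  · have hn : 0 < ‖y‖ := norm_pos_iff.2 hy
    have h1 : F y = F (‖y‖⁻¹ • y) := (h.homF _ y (inv_pos.2 hn)).symm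
    have h2 : ‖‖y‖⁻¹ • y‖ = 1 := by
      rw [norm_smul, norm_inv, norm_norm, inv_mul_cancel₀ hn.ne']
    have h3 := h.lip _ _ h2 he
    rw [← h1] at h3
    have h4 : ‖‖y‖⁻¹ • y - e 0‖ ≤ 2 := by
      refine (norm_sub_le _ _).trans ?_
      rw [h2, he]
      norm_num
    have h5 : C * ‖‖y‖⁻¹ • y - e 0‖ ≤ C * 2 := mul_le_mul_of_nonneg_left h4 hC
    have h6 : ‖F y‖ ≤ ‖F y - F (e 0)‖ + ‖F (e 0)‖ := norm_le_norm_sub_add _ _
    have h7 := norm_nonneg (F 0)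
    linarith

theorem Reg.abs_le (h : Reg C f F) {B : ℝ} (hB : ∀ y, ‖F y‖ ≤ B) (y : V) :
    |f y| ≤ B * ‖y‖ := by
  rw [← h.euler y]
  exact (abs_real_inner_le_norm _ _).trans (mul_le_mul_of_nonneg_right (hB y) (norm_nonneg y))

theorem norm_proj_sub_le {r : ℝ} (hr : 0 < r) {y z : V} (hy : r ≤ ‖y‖) (hz : r ≤ ‖z‖) :
    ‖‖y‖⁻¹ • y - ‖z‖⁻¹ • z‖ ≤ ‖y - z‖ / r := by
  have ha : 0 < ‖y‖ := lt_of_lt_of_le hr hy
  have hb : 0 < ‖z‖ := lt_of_lt_of_le hr hz
  have h1 : ‖‖y‖⁻¹ • y - ‖z‖⁻¹ • z‖ ^ 2 = 2 - 2 * (inner ℝ y z / (‖y‖ * ‖z‖)) := by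
    rw [norm_sub_sq_real, norm_smul, norm_smul, norm_inv, norm_inv, norm_norm, norm_norm,
      inv_mul_cancel₀ ha.ne', inv_mul_cancel₀ hb.ne', real_inner_smul_left,
      real_inner_smul_right]
    field_simp
    ring
  have h2 := norm_sub_sq_real y z
  have h3 : inner ℝ y z / (‖y‖ * ‖z‖) ≤ 1 := by
    rw [div_le_one (by positivity)]
    exact real_inner_le_norm y z
  have h4 : inner ℝ y z = inner ℝ y z / (‖y‖ * ‖z‖) * (‖y‖ * ‖z‖) := by
    field_simp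
  obtain ⟨c, hc⟩ : ∃ c, c = inner ℝ y z / (‖y‖ * ‖z‖) := ⟨_, rfl⟩
  rw [← hc] at h1 h3 h4
  rw [h4] at h2
  have h5 : r * r ≤ ‖y‖ * ‖z‖ := mul_le_mul hy hz hr.le ha.le
  have h6 : r ^ 2 * ‖‖y‖⁻¹ • y - ‖z‖⁻¹ • z‖ ^ 2 ≤ ‖y - z‖ ^ 2 := by
    rw [h1, h2]
    have h7 : r * r * (2 - 2 * c) ≤ ‖y‖ * ‖z‖ * (2 - 2 * c) :=
      mul_le_mul_of_nonneg_right h5 (by linarith)
    have h8 := sq_nonneg (‖y‖ - ‖z‖)
    linarith
  rw [le_div_iff₀ hr]
  refine (pow_le_pow_iff_left₀ (by positivity) (norm_nonneg _) two_ne_zero).1 ?_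
  rw [mul_pow]
  linarith

theorem Reg.lipF (h : Reg C f F) {r : ℝ} (hr : 0 < r) {y z : V} (hy : r ≤ ‖y‖)
    (hz : r ≤ ‖z‖) : ‖F y - F z‖ ≤ C * (‖y - z‖ / r) := by
  have ha : 0 < ‖y‖ := lt_of_lt_of_le hr hy
  have hb : 0 < ‖z‖ := lt_of_lt_of_le hr hz
  have h1 : F y = F (‖y‖⁻¹ • y) := (h.homF _ y (inv_pos.2 ha)).symm
  have h2 : F z = F (‖z‖⁻¹ • z) := (h.homF _ z (inv_pos.2 hb)).symm
  have h3 : ‖‖y‖⁻¹ • y‖ = 1 := by
    rw [norm_smul, norm_inv, norm_norm, inv_mul_cancel₀ ha.ne']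
  have h4 : ‖‖z‖⁻¹ • z‖ = 1 := by
    rw [norm_smul, norm_inv, norm_norm, inv_mul_cancel₀ hb.ne']
  rw [h1, h2]
  exact (h.lip _ _ h3 h4).trans (mul_le_mul_of_nonneg_left (norm_proj_sub_le hr hy hz) h.nonneg)

theorem Reg.cont (h : Reg C f F) : Continuous f := by
  obtain ⟨B, hB0, hB⟩ := h.bound
  rw [continuous_iff_continuousAt]
  intro y
  by_cases hy : y = 0
  · rw [hy]
    unfold ContinuousAt
    rw [h.f_zero]
    refine squeeze_zero_norm (a := fun y : V => B * ‖y‖) (fun y => ?_) ?_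
    · rw [Real.norm_eq_abs]
      exact h.abs_le hB y
    · have h1 : Continuous fun y : V => B * ‖y‖ := continuous_const.mul continuous_norm
      have h2 := h1.tendsto 0
      rw [norm_zero, mul_zero] at h2
      exact h2
  · exact (h.grad y hy).continuousAt

theorem Reg.contF (h : Reg C f F) {y : V} (hy : y ≠ 0) : ContinuousAt F y := by
  have hn : 0 < ‖y‖ := norm_pos_iff.2 hy
  have hr : 0 < ‖y‖ / 2 := by positivity
  refine tendsto_iff_norm_sub_tendsto_zero.2 ?_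
  refine squeeze_zero' (Filter.Eventually.of_forall fun z => norm_nonneg _)
    (g := fun z : V => C * (‖z - y‖ / (‖y‖ / 2))) ?_ ?_
  · have h1 : ∀ᶠ z in nhds y, ‖y‖ / 2 < ‖z‖ :=
      continuous_norm.continuousAt.eventually (lt_mem_nhds (by linarith))
    filter_upwards [h1] with z hz
    exact h.lipF hr hz.le (by linarith)
  · have h1 : Continuous fun z : V => C * (‖z - y‖ / (‖y‖ / 2)) := by fun_prop
    have h2 := h1.tendsto y
    rw [sub_self, norm_zero, zero_div, mul_zero] at h2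
    exact h2

theorem Reg.measF (h : Reg C f F) : Measurable F := by
  refine measurable_of_continuousOn_compl_singleton 0 ?_
  intro y hy
  exact (h.contF hy).continuousWithinAt

/-- the common part of `lipG` and `lipT` -/
private theorem bas_lip (h : Reg C f F) {B : ℝ} (hB : ∀ y, ‖F y‖ ≤ B) (m : V → ℝ)
    (hm0 : ∀ y, 0 ≤ m y) (hm1 : ∀ y, m y ≤ ‖y‖) (hm2 : ∀ y z, |m y - m z| ≤ ‖y - z‖) :
    ∃ D : NNReal, LipschitzWith D (fun y : V => m y • F y) := by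
  have hB0 : 0 ≤ B := (norm_nonneg _).trans (hB 0)
  have hC := h.nonneg
  have key : ∀ y z : V, ‖z‖ ≤ ‖y‖ → ‖m y • F y - m z • F z‖ ≤ (B + C) * ‖y - z‖ := by
    intro y z hzy
    have h1 : m y • F y - m z • F z = (m y - m z) • F y + m z • (F y - F z) := by
      rw [sub_smul, smul_sub]
      abel
    rw [h1]
    refine (norm_add_le _ _).trans ?_
    rw [norm_smul, norm_smul, Real.norm_eq_abs, Real.norm_eq_abs, abs_of_nonneg (hm0 z)]
    have h2 : |m y - m z| * ‖F y‖ ≤ ‖y - z‖ * B :=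
      mul_le_mul (hm2 y z) (hB y) (norm_nonneg _) (norm_nonneg _)
    have h3 : m z * ‖F y - F z‖ ≤ C * ‖y - z‖ := by
      by_cases hz : z = 0
      · have h4 : m z = 0 := le_antisymm (by
          have := hm1 z
          rwa [hz, norm_zero, ← hz] at this) (hm0 z)
        rw [h4, zero_mul]
        positivity
      · have hn : 0 < ‖z‖ := norm_pos_iff.2 hz
        have h4 := h.lipF hn hzy le_rfl
        calc m z * ‖F y - F z‖ ≤ ‖z‖ * (C * (‖y - z‖ / ‖z‖)) :=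
              mul_le_mul (hm1 z) h4 (norm_nonneg _) hn.le
          _ = C * ‖y - z‖ := by
            field_simp
    linarith
  refine ⟨Real.toNNReal (B + C), LipschitzWith.of_dist_le_mul fun y z => ?_⟩
  rw [Real.coe_toNNReal _ (by linarith), dist_eq_norm, dist_eq_norm]
  rcases le_total ‖z‖ ‖y‖ with h1 | h1
  · exact key y z h1
  · rw [norm_sub_rev, norm_sub_rev y z]
    exact key z y h1

theorem Reg.lipG (h : Reg C f F) : ∃ D : NNReal, LipschitzWith D (fun y => ‖y‖ • F y) := by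
  obtain ⟨B, _, hB⟩ := h.bound
  exact bas_lip h hB (fun y => ‖y‖) (fun y => norm_nonneg y) (fun y => le_rfl)
    fun y z => abs_norm_sub_norm_le y z

theorem Reg.lipT (h : Reg C f F) :
    ∃ D : NNReal, LipschitzWith D (fun y : V => (min ‖y‖ 1) • F y) := by
  obtain ⟨B, _, hB⟩ := h.bound
  refine bas_lip h hB (fun y => min ‖y‖ 1) (fun y => le_min (norm_nonneg y) zero_le_one)
    (fun y => min_le_left _ _) fun y z => ?_
  refine (abs_min_sub_min_le_max _ _ _ _).trans (max_le (abs_norm_sub_norm_le y z) ?_)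
  rw [sub_self, abs_zero]
  exact norm_nonneg _

theorem Reg.ae_diff (h : Reg C f F) : ∀ᵐ y : V, y ≠ 0 ∧ DifferentiableAt ℝ F y := by
  obtain ⟨D, hD⟩ := h.lipG
  have h1 := hD.ae_differentiableAt (μ := (volume : Measure V))
  have h2 : ∀ᵐ y : V, y ≠ 0 := Measure.ae_ne volume 0
  filter_upwards [h1, h2] with y hy1 hy2
  refine ⟨hy2, ?_⟩
  have h3 : DifferentiableAt ℝ (fun z : V => ‖z‖⁻¹) y :=
    (differentiableAt_id.norm ℝ hy2).inv (norm_ne_zero_iff.2 hy2)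
  have h4 : DifferentiableAt ℝ (fun z : V => ‖z‖⁻¹ • (‖z‖ • F z)) y := h3.smul hy1
  refine h4.congr_of_eventuallyEq ?_
  filter_upwards [isOpen_ne.mem_nhds hy2] with z hz
  rw [smul_smul, inv_mul_cancel₀ (norm_ne_zero_iff.2 hz), one_smul]

end Pool.Agent.Lib.MP_e62723_gt.TD
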