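import Pool.Agent.Lib.MP_e62723_gt.TD.Defs
import Pool.Agent.Lib.MP_e62723_gt.Asy.Geo

/-!
# JOB Body: from a body of constant width `2` to `(f, F)`

Use `Asy.exists_suppFun_eq`, `Asy.inner_le_suppFun`, `Asy.norm_sub_le_two`, `Asy.nonempty_of`.
For every `y` choose `X y ∈ K` with `⟪X y, y⟫ = h(y)`, `h = suppFun K`.
(1) `h (t • y) = t * h y` for `t > 0` (both sides attained), `h 0 = 0`,
`h y + h (-y) = 2 ‖y‖` for all `y` (from constant width by homogeneity).
(2) If `y ≠ 0`, `x, z ∈ K`, `⟪x,y⟫ = h y`, `⟪z,-y⟫ = h (-y)`, then `⟪x - z, y⟫ = 2 ‖y‖` and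
`‖x - z‖ ≤ 2`, so `x - z = 2 ‖y‖⁻¹ • y` (expand `‖(x - z) - 2 ‖y‖⁻¹ • y‖² ≤ 4 - 8 + 4 = 0`).
So the point `x` is unique: `x = z + 2 ‖y‖⁻¹ • y` with `z = X (-y)`; in particular
`X y - X (-y) = 2 ‖y‖⁻¹ • y`, and `X (t • y) = X y` for `t > 0`, `y ≠ 0`.
(3) For `y = 0` put everything to `0`: let `F y = if y = 0 then 0 else X y - ‖y‖⁻¹ • y`,
`f y = h y - ‖y‖`. Then `f` is odd (`h (-y) = 2‖y‖ - h y`), `F` is even, homogeneous.
(4) `lip` with `C = 1`: for unit `u, v`: `X v ∈ K` and `X (-u) = X u - 2 u ∈ K`, so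
`‖X v - X u + 2 u‖ ≤ 2`, that is `‖X v - X u‖² ≤ 4 ⟪u, X u - X v⟫`; symmetrically
`‖X v - X u‖² ≤ 4 ⟪v, X v - X u⟫`. Adding: `‖d‖² ≤ 2 ⟪u - v, d⟫` with `d = X u - X v`. As
`d = (u - v) + (F u - F v)`: `‖F u - F v‖² = ‖d‖² - 2⟪u-v,d⟫ + ‖u-v‖² ≤ ‖u - v‖²`.
(5) `grad`: at `y ≠ 0` (`h z = ⟪X z, z⟫` for all `z`):
`0 ≤ h z - h y - ⟪X y, z - y⟫ = ⟪X z - X y, z⟫ = ⟪X z - X y, z - y⟫ + ⟪X z - X y, y⟫
≤ ‖X z - X y‖ ‖z - y‖` (since `⟪X z, y⟫ ≤ h y`; the left inequality is `⟪X y, z⟫ ≤ h z`), and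
`X` is continuous at `y` (by (4) and continuity of `z ↦ ‖z‖⁻¹ • z`), so `h` has derivative
`⟪X y, ·⟫` at `y` (`hasFDerivAt_iff_isLittleO`); subtract the derivative `⟪‖y‖⁻¹ • y, ·⟫` of the
norm.
(6) The last two claims: `u + F u = X u ∈ K` and `⟪z,u⟫ ≤ h u = 1 + f u`.
-/

open MeasureTheory Set

namespace Pool.Agent.Lib.MP_e62723_gt.TD

private theorem Body_hom {K : Set V} (hK : IsConvexBody K) {t : ℝ} (ht : 0 < t) (y : V) :
    suppFun K (t • y) = t * suppFun K y := by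
  obtain ⟨x, hx, hxy⟩ := Asy.exists_suppFun_eq hK (t • y)
  obtain ⟨z, hz, hzy⟩ := Asy.exists_suppFun_eq hK y
  have h1 := Asy.inner_le_suppFun hK hx y
  have h2 := Asy.inner_le_suppFun hK hz (t • y)
  rw [inner_smul_right] at hxy h2
  rw [hzy] at h2
  have h3 := mul_le_mul_of_nonneg_left h1 ht.le
  rw [hxy] at h3
  exact le_antisymm h3 h2

private theorem Body_zero {K : Set V} (hK : IsConvexBody K) : suppFun K (0 : V) = 0 := by
  obtain ⟨x, hx, hxy⟩ := Asy.exists_suppFun_eq hK (0 : V)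
  rw [← hxy, inner_zero_right]

private theorem Body_width {K : Set V} (hK : IsConvexBody K) (hw : HasConstantWidth K 2) (y : V) :
    suppFun K y + suppFun K (-y) = 2 * ‖y‖ := by
  rcases eq_or_ne y 0 with h | h
  · rw [h, neg_zero, Body_zero hK, norm_zero]
    norm_num
  have hn : 0 < ‖y‖ := norm_pos_iff.2 h
  have hu1 : ‖‖y‖⁻¹ • y‖ = 1 := by
    rw [norm_smul, norm_inv, norm_norm, inv_mul_cancel₀ hn.ne']
  have h1 : y = ‖y‖ • (‖y‖⁻¹ • y) := by
    rw [smul_smul, mul_inv_cancel₀ hn.ne', one_smul]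
  have h2 : -y = ‖y‖ • (-(‖y‖⁻¹ • y)) := by
    rw [smul_neg, smul_smul, mul_inv_cancel₀ hn.ne', one_smul]
  have h3 := hw _ hu1
  have h4 := Body_hom hK hn (‖y‖⁻¹ • y)
  have h5 := Body_hom hK hn (-(‖y‖⁻¹ • y))
  rw [← h1] at h4
  rw [← h2] at h5
  rw [h4, h5, ← mul_add, h3, mul_comm]

private theorem Body_two {K : Set V} (hK : IsConvexBody K) (hw : HasConstantWidth K 2) {y x z : V}
    (hy : y ≠ 0) (hx : x ∈ K) (hz : z ∈ K) (hxy : inner ℝ x y = suppFun K y)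
    (hzy : inner ℝ z (-y) = suppFun K (-y)) : x - z = (2 * ‖y‖⁻¹) • y := by
  have hn : 0 < ‖y‖ := norm_pos_iff.2 hy
  have h1 := Asy.norm_sub_le_two hK hw hx hz
  have h2 := Body_width hK hw y
  have h3 : inner ℝ (x - z) y = 2 * ‖y‖ := by
    rw [inner_sub_left, hxy]
    rw [inner_neg_right] at hzy
    linarith
  have h4 : ‖(x - z) - (2 * ‖y‖⁻¹) • y‖ ^ 2 = ‖x - z‖ ^ 2 - 4 := by
    rw [norm_sub_sq_real, inner_smul_right, h3, norm_smul, Real.norm_eq_abs,
      abs_of_pos (by positivity)]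
    field_simp
    ring
  have h5 : ‖x - z‖ ^ 2 ≤ 4 := by
    have := norm_nonneg (x - z)
    nlinarith
  have h6 : ‖(x - z) - (2 * ‖y‖⁻¹) • y‖ ^ 2 ≤ 0 := by linarith
  have h7 : ‖(x - z) - (2 * ‖y‖⁻¹) • y‖ = 0 := by
    have := sq_nonneg ‖(x - z) - (2 * ‖y‖⁻¹) • y‖
    exact pow_eq_zero_iff (two_ne_zero) |>.1 (le_antisymm h6 this)
  exact sub_eq_zero.1 (norm_eq_zero.1 h7)

private theorem Body_unit {y : V} (hy : y ≠ 0) : ‖‖y‖⁻¹ • y‖ = 1 := by
  have hn : 0 < ‖y‖ := norm_pos_iff.2 hy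
  rw [norm_smul, norm_inv, norm_norm, inv_mul_cancel₀ hn.ne']

private theorem Body_norm {y : V} (hy : y ≠ 0) :
    HasFDerivAt (fun z : V => ‖z‖) (innerSL ℝ (‖y‖⁻¹ • y)) y := by
  have hn : 0 < ‖y‖ := norm_pos_iff.2 hy
  have h1 : HasFDerivAt (fun z : V => ‖z‖ ^ 2) (2 • (innerSL ℝ y)) y :=
    (hasStrictFDerivAt_norm_sq y).hasFDerivAt
  have h2 := h1.sqrt (by positivity)
  have h3 : (fun z : V => √(‖z‖ ^ 2)) = fun z : V => ‖z‖ := by
    funext z
    exact Real.sqrt_sq (norm_nonneg z)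
  rw [h3, Real.sqrt_sq hn.le] at h2
  refine h2.congr_fderiv ?_
  ext w
  simp only [_root_.smul_apply, innerSL_apply_apply, inner_smul_left, map_inv₀,
    conj_trivial, smul_eq_mul, nsmul_eq_mul]
  field_simp
  norm_num

private theorem Body_grad {h : V → ℝ} {X : V → V} (h1 : ∀ z, inner ℝ (X z) z = h z)
    (h2 : ∀ z w, inner ℝ (X z) w ≤ h w) {y : V} (hc : ContinuousAt X y) :
    HasFDerivAt h (innerSL ℝ (X y)) y := by
  rw [hasFDerivAt_iff_isLittleO]
  rw [Asymptotics.isLittleO_iff]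
  intro ε hε
  have h3 : ∀ᶠ z in nhds y, ‖X z - X y‖ < ε := by
    have := Metric.continuousAt_iff'.1 hc ε hε
    filter_upwards [this] with z hz
    rwa [dist_eq_norm] at hz
  filter_upwards [h3] with z hz
  have e1 : h z - h y - (innerSL ℝ (X y)) (z - y) = inner ℝ (X z) z - inner ℝ (X y) z := by
    rw [innerSL_apply_apply, inner_sub_right, ← h1 z, ← h1 y]
    ring
  have h4 : 0 ≤ inner ℝ (X z) z - inner ℝ (X y) z := by
    have := h2 y z
    rw [← h1 z] at this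
    linarith
  have h5 : inner ℝ (X z) z - inner ℝ (X y) z ≤ inner ℝ (X z - X y) (z - y) := by
    have := h2 z y
    rw [← h1 y] at this
    rw [inner_sub_right, inner_sub_left, inner_sub_left]
    linarith
  have h6 := real_inner_le_norm (X z - X y) (z - y)
  rw [e1, Real.norm_eq_abs, abs_of_nonneg h4]
  have h7 : ‖X z - X y‖ * ‖z - y‖ ≤ ε * ‖z - y‖ :=
    mul_le_mul_of_nonneg_right hz.le (norm_nonneg _)
  linarith

theorem exists_reg {K : Set V} (hK : IsConvexBody K) (hw : HasConstantWidth K 2) :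
    ∃ (f : V → ℝ) (F : V → V), Reg 1 f F ∧ (∀ y, f (-y) = -f y) ∧ (∀ y, F (-y) = F y) ∧
      (∀ u : V, ‖u‖ = 1 → u + F u ∈ K) ∧
      (∀ u : V, ‖u‖ = 1 → ∀ z ∈ K, inner ℝ z u ≤ 1 + f u) := by
  classical
  choose X hXK hXy using fun y : V => Asy.exists_suppFun_eq hK y
  -- antipodal points
  have hanti : ∀ y : V, y ≠ 0 → X y - X (-y) = (2 * ‖y‖⁻¹) • y := fun y hy =>
    Body_two hK hw hy (hXK y) (hXK (-y)) (hXy y) (hXy (-y))
  have hXhom : ∀ (t : ℝ) (y : V), 0 < t → y ≠ 0 → X (t • y) = X y := by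
    intro t y ht hy
    have h1 : inner ℝ (X (t • y)) y = suppFun K y := by
      have h2 := hXy (t • y)
      rw [inner_smul_right, Body_hom hK ht] at h2
      exact mul_left_cancel₀ ht.ne' h2
    have h3 := Body_two hK hw hy (hXK (t • y)) (hXK (-y)) h1 (hXy (-y))
    have h4 := hanti y hy
    rw [← h4] at h3
    exact sub_left_injective h3
  set F : V → V := fun y => if y = 0 then 0 else X y - ‖y‖⁻¹ • y with hF
  have hF0 : F 0 = 0 := by simp [hF]
  have hF1 : ∀ y : V, y ≠ 0 → F y = X y - ‖y‖⁻¹ • y := by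
    intro y hy
    simp [hF, hy]
  have hFu : ∀ u : V, ‖u‖ = 1 → X u = u + F u := by
    intro u hu
    have hu0 : u ≠ 0 := by
      intro h
      rw [h, norm_zero] at hu
      norm_num at hu
    rw [hF1 u hu0, hu, inv_one, one_smul]
    abel
  have hhomF : ∀ (t : ℝ) (y : V), 0 < t → F (t • y) = F y := by
    intro t y ht
    rcases eq_or_ne y 0 with h | h
    · rw [h, smul_zero]
    have hty : t • y ≠ 0 := smul_ne_zero ht.ne' h
    have hn : 0 < ‖y‖ := norm_pos_iff.2 h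
    rw [hF1 _ hty, hF1 _ h, hXhom t y ht h, norm_smul, Real.norm_eq_abs, abs_of_pos ht, smul_smul]
    congr 2
    field_simp
  have hlip : ∀ u v : V, ‖u‖ = 1 → ‖v‖ = 1 → ‖F u - F v‖ ≤ 1 * ‖u - v‖ := by
    intro u v hu hv
    have hu0 : u ≠ 0 := by
      intro h
      rw [h, norm_zero] at hu
      norm_num at hu
    have hv0 : v ≠ 0 := by
      intro h
      rw [h, norm_zero] at hv
      norm_num at hv
    have key : ∀ a b : V, ‖a‖ = 1 → a ≠ 0 →
        ‖X a - X b‖ ^ 2 ≤ 4 * inner ℝ a (X a - X b) := by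
      intro a b ha ha0
      have h1 := Asy.norm_sub_le_two hK hw (hXK b) (hXK (-a))
      have h2 := hanti a ha0
      rw [ha, inv_one, mul_one] at h2
      have h3 : X b - X (-a) = (2 : ℝ) • a - (X a - X b) := by
        rw [← h2]
        abel
      rw [h3] at h1
      have h4 : ‖(2 : ℝ) • a - (X a - X b)‖ ^ 2 ≤ 4 := by
        have := norm_nonneg ((2 : ℝ) • a - (X a - X b))
        nlinarith
      rw [norm_sub_sq_real, inner_smul_left, norm_smul, ha] at h4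
      simp only [Real.norm_eq_abs, conj_trivial] at h4
      rw [abs_of_pos (by norm_num : (0 : ℝ) < 2)] at h4
      linarith
    have k1 := key u v hu hu0
    have k2 := key v u hv hv0
    have e2 : X v - X u = -(X u - X v) := by abel
    rw [e2, norm_neg, inner_neg_right] at k2
    have k3 : ‖X u - X v‖ ^ 2 ≤ 2 * inner ℝ (u - v) (X u - X v) := by
      rw [inner_sub_left]
      linarith
    have e3 : F u - F v = (X u - X v) - (u - v) := by
      rw [hFu u hu, hFu v hv]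
      abel
    have k4 : ‖F u - F v‖ ^ 2 ≤ ‖u - v‖ ^ 2 := by
      rw [e3, norm_sub_sq_real, real_inner_comm]
      linarith
    rw [one_mul]
    exact (sq_le_sq₀ (norm_nonneg _) (norm_nonneg _)).1 k4
  have hcont : ∀ y : V, y ≠ 0 → ContinuousAt X y := by
    intro y hy
    have hb : ∀ z : V, z ≠ 0 →
        ‖X z - X y‖ ≤ 2 * ‖‖z‖⁻¹ • z - ‖y‖⁻¹ • y‖ := by
      intro z hz
      have hn : 0 < ‖z‖ := norm_pos_iff.2 hz
      have hny : 0 < ‖y‖ := norm_pos_iff.2 hy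
      have h1 := hlip _ _ (Body_unit hz) (Body_unit hy)
      rw [hhomF _ _ (inv_pos.2 hn), hhomF _ _ (inv_pos.2 hny), one_mul] at h1
      have h2 : X z - X y = (F z - F y) + (‖z‖⁻¹ • z - ‖y‖⁻¹ • y) := by
        rw [hF1 z hz, hF1 y hy]
        abel
      rw [h2]
      refine (norm_add_le _ _).trans ?_
      linarith
    have hcn : ContinuousAt (fun z : V => ‖z‖⁻¹ • z) y := by
      have c1 : ContinuousAt (fun z : V => ‖z‖⁻¹) y :=
        (continuous_norm.continuousAt).inv₀ (norm_ne_zero_iff.2 hy)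
      exact ContinuousAt.smul c1 continuousAt_id
    rw [Metric.continuousAt_iff']
    intro ε hε
    have h3 := Metric.continuousAt_iff'.1 hcn (ε / 2) (by positivity)
    have h4 : ∀ᶠ z in nhds y, z ≠ 0 := isOpen_ne.mem_nhds hy
    filter_upwards [h3, h4] with z hz hz0
    rw [dist_eq_norm] at hz ⊢
    have := hb z hz0
    linarith
  refine ⟨fun y => suppFun K y - ‖y‖, F, ⟨zero_le_one, ?_, hhomF, ?_, hlip⟩, ?_, ?_, ?_, ?_⟩
  · intro t y ht
    rw [Body_hom hK ht, norm_smul, Real.norm_eq_abs, abs_of_pos ht]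
    ring
  · intro y hy
    have h1 : HasFDerivAt (fun z => suppFun K z) (innerSL ℝ (X y)) y :=
      Body_grad hXy (fun z w => Asy.inner_le_suppFun hK (hXK z) w) (hcont y hy)
    have h2 := h1.sub (Body_norm hy)
    refine h2.congr_fderiv ?_
    rw [hF1 y hy, map_sub]
  · intro y
    have h := Body_width hK hw y
    simp only
    rw [norm_neg]
    linarith
  · intro y
    rcases eq_or_ne y 0 with h | h
    · rw [h, neg_zero]
    have hy' : -y ≠ 0 := neg_ne_zero.2 h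
    have h1 := hanti y h
    rw [hF1 _ hy', hF1 _ h, norm_neg]
    have h2 : X y = X (-y) + (2 * ‖y‖⁻¹) • y := by
      rw [← h1]
      abel
    rw [h2, smul_neg, mul_smul, two_smul]
    abel
  · intro u hu
    rw [← hFu u hu]
    exact hXK u
  · intro u hu z hz
    have := Asy.inner_le_suppFun hK hz u
    simp only
    rw [hu]
    linarith

end Pool.Agent.Lib.MP_e62723_gt.TD
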