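import Pool.Agent.Lib.MP_e62723_gt.TD.Hom

/-!
# JOB Cen: centring

For `c : V` let `f_c y = f y - ⟪c, y⟫`, `F_c y = F y - c`; then `Reg C f_c F_c` (the derivative of
`y ↦ ⟪c, y⟫` is `innerSL ℝ c`), `f_c` is odd, `F_c` is even... and `fderiv ℝ F_c = fderiv ℝ F`
(`fderiv_sub_const`).
We need `c` with `⟨(f_c/‖y‖) (⟪x,y⟫/‖y‖)⟩ = 0` for all `x`, that is `B(c, x) = ℓ(x)` for all `x`,
where `B(c,x) = bi (⟪c,y⟫/‖y‖ * (⟪x,y⟫/‖y‖))`, `ℓ(x) = bi (f y/‖y‖ * (⟪x,y⟫/‖y‖))`.
`B` is bilinear, symmetric and positive definite: `B(c,c) = 0` implies `⟪c,y⟫ = 0` for almost every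
`y` in the ball, so for all `y` in the ball by continuity, in particular for `y = c/(2‖c‖)` if
`c ≠ 0`. So the linear map `T : V →ₗ Dual`, `c ↦ B(c,·)` is injective, hence surjective
(`LinearMap.injective_iff_surjective_of_finrank_eq_finrank`, or as a linear map `V → V` with
`(T c) i = B(c, e i)`, `LinearMap.injective_iff_surjective`), and there is `c` with
`B(c, e i) = ℓ(e i)` for all `i`, so `B(c,x) = ℓ(x)` for all `x` by linearity
(`x = ∑ x i • e i`). Integrability: `Hom0.intBall`, `hom0_inner`, `hom0_f`, `Hom0.mul`.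
-/

open MeasureTheory Set

namespace Pool.Agent.Lib.MP_e62723_gt.TD

variable {C : ℝ} {f : V → ℝ} {F : V → V}

private theorem cen_int {Ψ : V → ℝ} (h : Hom0 Ψ) (x : V) :
    IntegrableOn (fun y : V => Ψ y * (inner ℝ x y / ‖y‖)) (Metric.ball (0 : V) 1) :=
  (h.mul (hom0_inner x)).intBall

private noncomputable def cenL (Ψ : V → ℝ) (h : Hom0 Ψ) : V →ₗ[ℝ] ℝ where
  toFun x := bi (fun y => Ψ y * (inner ℝ x y / ‖y‖))
  map_add' x x' := by
    show bi (fun y => Ψ y * (inner ℝ (x + x') y / ‖y‖)) =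
      bi (fun y => Ψ y * (inner ℝ x y / ‖y‖)) + bi (fun y => Ψ y * (inner ℝ x' y / ‖y‖))
    unfold bi
    rw [← integral_add (cen_int h x) (cen_int h x')]
    refine integral_congr_ae (Filter.Eventually.of_forall fun y => ?_)
    show Ψ y * (inner ℝ (x + x') y / ‖y‖) =
      Ψ y * (inner ℝ x y / ‖y‖) + Ψ y * (inner ℝ x' y / ‖y‖)
    rw [inner_add_left, add_div, mul_add]
  map_smul' a x := by
    show bi (fun y => Ψ y * (inner ℝ (a • x) y / ‖y‖)) =
      a * bi (fun y => Ψ y * (inner ℝ x y / ‖y‖))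
    unfold bi
    rw [← integral_const_mul]
    refine integral_congr_ae (Filter.Eventually.of_forall fun y => ?_)
    show Ψ y * (inner ℝ (a • x) y / ‖y‖) = a * (Ψ y * (inner ℝ x y / ‖y‖))
    rw [real_inner_smul_left]
    ring

private theorem cenL_apply (Ψ : V → ℝ) (h : Hom0 Ψ) (x : V) :
    cenL Ψ h x = bi (fun y => Ψ y * (inner ℝ x y / ‖y‖)) := rfl

private theorem cen_comm (c x : V) : cenL _ (hom0_inner c) x = cenL _ (hom0_inner x) c := by
  rw [cenL_apply, cenL_apply]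
  unfold bi
  refine integral_congr_ae (Filter.Eventually.of_forall fun y => ?_)
  exact mul_comm _ _

private noncomputable def cenT : V →ₗ[ℝ] (V →ₗ[ℝ] ℝ) where
  toFun c := cenL _ (hom0_inner c)
  map_add' c c' := by
    refine LinearMap.ext fun x => ?_
    rw [LinearMap.add_apply, cen_comm, cen_comm c, cen_comm c', map_add]
  map_smul' a c := by
    refine LinearMap.ext fun x => ?_
    rw [LinearMap.smul_apply, cen_comm, cen_comm c, map_smul]
    rfl

private theorem cenT_apply (c x : V) :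
    cenT c x = bi (fun y => inner ℝ c y / ‖y‖ * (inner ℝ x y / ‖y‖)) := rfl

private theorem cenT_pos {c : V} (h : cenT c c = 0) : c = 0 := by
  by_contra hc
  rw [cenT_apply] at h
  unfold bi at h
  have hnn : ∀ y : V, 0 ≤ inner ℝ c y / ‖y‖ * (inner ℝ c y / ‖y‖) := fun y => mul_self_nonneg _
  rw [integral_eq_zero_iff_of_nonneg hnn (cen_int (hom0_inner c) c)] at h
  have h2 : ∀ᵐ y : V, y ∈ Metric.ball (0 : V) 1 →
      inner ℝ c y / ‖y‖ * (inner ℝ c y / ‖y‖) = 0 :=
    (ae_restrict_iff' measurableSet_ball).1 h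
  have hopen : IsOpen ({y : V | 0 < (inner ℝ c y : ℝ)} ∩ Metric.ball (0 : V) 1) :=
    (isOpen_lt continuous_const (continuous_const.inner continuous_id)).inter Metric.isOpen_ball
  have hcn : 0 < ‖c‖ := norm_pos_iff.2 hc
  have hne : ({y : V | 0 < (inner ℝ c y : ℝ)} ∩ Metric.ball (0 : V) 1).Nonempty := by
    refine ⟨(1 / (2 * ‖c‖)) • c, ?_, ?_⟩
    · show 0 < (inner ℝ c ((1 / (2 * ‖c‖)) • c) : ℝ)
      rw [real_inner_smul_right, real_inner_self_eq_norm_sq]
      positivity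
    · rw [mem_ball_zero_iff, norm_smul, Real.norm_eq_abs, abs_of_pos (by positivity)]
      have h3 : 1 / (2 * ‖c‖) * ‖c‖ = 1 / 2 := by
        field_simp
      rw [h3]
      norm_num
  have hpos := hopen.measure_pos volume hne
  apply hpos.ne'
  refine measure_mono_null ?_ (ae_iff.1 h2)
  rintro y ⟨hy1, hy2⟩
  have hy1' : 0 < (inner ℝ c y : ℝ) := hy1
  show ¬ (y ∈ Metric.ball (0 : V) 1 → inner ℝ c y / ‖y‖ * (inner ℝ c y / ‖y‖) = 0)
  intro h4
  have h5 := h4 hy2
  have hy0 : y ≠ 0 := by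
    rintro rfl
    rw [inner_zero_right] at hy1'
    exact lt_irrefl _ hy1'
  have h6 : 0 < inner ℝ c y / ‖y‖ := div_pos hy1' (norm_pos_iff.2 hy0)
  have h7 := mul_pos h6 h6
  rw [h5] at h7
  exact lt_irrefl _ h7

private theorem cenT_surj : Function.Surjective cenT := by
  have h1 : Module.finrank ℝ V = Module.finrank ℝ (V →ₗ[ℝ] ℝ) :=
    (Subspace.dual_finrank_eq (K := ℝ) (V := V)).symm
  rw [← LinearMap.injective_iff_surjective_of_finrank_eq_finrank h1]
  rw [injective_iff_map_eq_zero]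
  intro c hc
  apply cenT_pos
  rw [hc]
  rfl

theorem Reg.exists_center (h : Reg C f F) (hodd : ∀ y, f (-y) = -f y)
    (hev : ∀ y, F (-y) = F y) :
    ∃ (f' : V → ℝ) (F' : V → V), Reg C f' F' ∧ (∀ y, f' (-y) = -f' y) ∧
      (∀ y, F' (-y) = F' y) ∧ (∀ y, fderiv ℝ F' y = fderiv ℝ F y) ∧
      ∀ x : V, bi (fun y => f' y / ‖y‖ * (inner ℝ x y / ‖y‖)) = 0 := by
  obtain ⟨c, hc⟩ := cenT_surj (cenL _ h.hom0_f)
  refine ⟨fun y => f y - inner ℝ c y, fun y => F y - c, ⟨h.nonneg, ?_, ?_, ?_, ?_⟩, ?_, ?_, ?_, ?_⟩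
  · intro t y ht
    show f (t • y) - inner ℝ c (t • y) = t * (f y - inner ℝ c y)
    rw [h.hom t y ht, real_inner_smul_right]
    ring
  · intro t y ht
    show F (t • y) - c = F y - c
    rw [h.homF t y ht]
  · intro y hy
    have h1 := (h.grad y hy).sub (innerSL ℝ c).hasFDerivAt
    rw [← map_sub] at h1
    exact h1
  · intro u v hu hv
    show ‖F u - c - (F v - c)‖ ≤ C * ‖u - v‖
    rw [sub_sub_sub_cancel_right]
    exact h.lip u v hu hv
  · intro y
    show f (-y) - inner ℝ c (-y) = -(f y - inner ℝ c y)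
    rw [hodd, inner_neg_right]
    ring
  · intro y
    show F (-y) - c = F y - c
    rw [hev]
  · intro y
    exact fderiv_sub_const c
  · intro x
    have h1 : cenT c x = cenL _ h.hom0_f x := by rw [hc]
    rw [cenT_apply, cenL_apply] at h1
    have h2 : bi (fun y => (f y - inner ℝ c y) / ‖y‖ * (inner ℝ x y / ‖y‖)) =
        bi (fun y => f y / ‖y‖ * (inner ℝ x y / ‖y‖)) -
          bi (fun y => inner ℝ c y / ‖y‖ * (inner ℝ x y / ‖y‖)) := by
      unfold bi
      rw [← integral_sub (cen_int h.hom0_f x) (cen_int (hom0_inner c) x)]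
      refine integral_congr_ae (Filter.Eventually.of_forall fun y => ?_)
      show (f y - inner ℝ c y) / ‖y‖ * (inner ℝ x y / ‖y‖) =
        f y / ‖y‖ * (inner ℝ x y / ‖y‖) - inner ℝ c y / ‖y‖ * (inner ℝ x y / ‖y‖)
      rw [sub_div, sub_mul]
    show bi (fun y => (f y - inner ℝ c y) / ‖y‖ * (inner ℝ x y / ‖y‖)) = 0
    rw [h2, h1, sub_self]

end Pool.Agent.Lib.MP_e62723_gt.TD
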