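import Pool.Agent.Lib.MP_e62723_gt.TD.Defs

/-!
# JOB Comm: mixed derivatives commute, weakly

Let `P, Q` be Lipschitz, `P` with compact support. Then
`∫ ∂_v P ∂_w Q = ∫ ∂_w P ∂_v Q`.
Proof. For `t > 0` let `Q_t(x) = t⁻¹ (Q(x + t w) - Q(x))`, a Lipschitz function.
(1) `∫ ∂_v P · Q_t → ∫ ∂_v P ∂_w Q` as `t → 0+`:
`LipschitzWith.integral_inv_smul_sub_mul_tendsto_integral_lineDeriv_mul (hf : LipschitzWith C f)
(hg : Integrable g μ) (v)` with `f = Q`, `g = ∂_v P`, which is integrable (bounded,
`lineDeriv` of a Lipschitz function is bounded by `C ‖v‖` (`LipschitzWith.norm_lineDeriv_le..`,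
see Mathlib/Analysis/Calculus/Rademacher.lean), measurable, with support in the compact support
of `P`: outside `tsupport P` the function `P` vanishes near the point).
(2) Integration by parts `LipschitzWith.integral_lineDeriv_mul_eq (hf : LipschitzWith C f)
(hg : LipschitzWith D g) (h'g : HasCompactSupport g) (v) :
∫ lineDeriv ℝ f x v * g x = ∫ lineDeriv ℝ g x (-v) * f x` with `f = Q_t`, `g = P`, direction
`-v` (or `v`): `∫ ∂_v P · Q_t = - ∫ P · ∂_v Q_t` (signs: `lineDeriv ℝ g x (-v) = -lineDeriv ℝ g x v`,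
`lineDeriv_neg`), and `∂_v Q_t(x) = t⁻¹ (∂_v Q(x + t w) - ∂_v Q(x))` almost everywhere (where both
line derivatives exist, `LipschitzWith.ae_lineDifferentiableAt`, and translation invariance of null
sets; or directly for all `x` where `Q` is line differentiable at `x` and `x + t w`).
(3) Translation invariance (`integral_add_right_eq_self`):
`- ∫ P(x) t⁻¹ (∂_v Q(x + t w) - ∂_v Q(x)) dx = ∫ ∂_v Q(x) · t⁻¹ (P(x) - P(x - t w)) dx
 = ∫ ∂_v Q(x) · (-t⁻¹) (P(x + t (-w)) - P(x)) dx`.
All these functions are integrable: bounded, measurable, compact support.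
(4) As `t → 0+` this tends to `- ∫ ∂_v Q · ∂_{-w} P = ∫ ∂_v Q ∂_w P`: apply
`integral_inv_smul_sub_mul_tendsto_integral_lineDeriv_mul` with `f = P`, direction `-w`, and
`g = ∂_v Q · 1_S` with `S` a ball containing the support of `P` and of all its translates by `t w`,
`t ≤ 1` (then `g` is integrable, and for `0 < t ≤ 1` the integrals with `g` and with `∂_v Q`
agree). Conclude by uniqueness of limits (`tendsto_nhds_unique`, `𝓝[>] 0` is not trivial).
-/

open MeasureTheory Set

namespace Pool.Agent.Lib.MP_e62723_gt.TD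

/-- the line derivative vanishes outside the support -/
private theorem comm_supp (P : V → ℝ) (v : V) {x : V} (hx : x ∉ tsupport P) :
    lineDeriv ℝ P x v = 0 := by
  have h1 := notMem_tsupport_iff_eventuallyEq.mp hx
  rw [h1.lineDeriv_eq]
  have h2 : HasLineDerivAt ℝ (0 : V → ℝ) 0 x v := by
    change HasDerivAt (fun _ : ℝ => (0 : ℝ)) 0 0
    exact hasDerivAt_const _ _
  exact h2.lineDeriv

private theorem comm_int {P : V → ℝ} {C : NNReal} (hP : LipschitzWith C P)
    (hc : HasCompactSupport P) (v : V) : Integrable (fun x : V => lineDeriv ℝ P x v) := by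
  have h1 : Function.support (fun x : V => lineDeriv ℝ P x v) ⊆ tsupport P := by
    intro x hx
    by_contra h
    exact hx (comm_supp P v h)
  exact (integrableOn_iff_integrable_of_support_subset h1).mp
    ((hP.locallyIntegrable_lineDeriv v).integrableOn_isCompact hc)

/-- the difference quotients, integrated by parts -/
private theorem comm_t {P Q : V → ℝ} {C D : NNReal} (hP : LipschitzWith C P)
    (hQ : LipschitzWith D Q) (hc : HasCompactSupport P) (v w : V) (t : ℝ) :
    ∫ x : V, (t⁻¹ • (Q (x + t • w) - Q x)) * lineDeriv ℝ P x v =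
      -∫ x : V, (t⁻¹ • (P (x + t • (-w)) - P x)) * lineDeriv ℝ Q x v := by
  have hiso : LipschitzWith 1 (fun x : V => x + t • w) := (isometry_add_right (t • w)).lipschitz
  have hQ1 : LipschitzWith (D * 1) (fun x : V => Q (x + t • w)) := hQ.comp hiso
  have hQ' : LipschitzWith (D * 1 + D) (fun x : V => Q (x + t • w) - Q x) := hQ1.sub hQ
  have hPi : Integrable P := hP.continuous.integrable_of_hasCompactSupport hc
  have hmp : MeasurePreserving (fun x : V => x + t • w) :=
    measurePreserving_add_right (volume : Measure V) (t • w)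
  have hmp' : MeasurePreserving (fun x : V => x + t • (-w)) :=
    measurePreserving_add_right (volume : Measure V) (t • (-w))
  -- integration by parts
  have h1 := LipschitzWith.integral_lineDeriv_mul_eq (μ := (volume : Measure V)) hQ' hP hc (-v)
  have hd : ∀ᵐ x : V, lineDeriv ℝ (fun x : V => Q (x + t • w) - Q x) x (-v) =
      -(lineDeriv ℝ Q (x + t • w) v - lineDeriv ℝ Q x v) := by
    have h2 : ∀ᵐ x : V, LineDifferentiableAt ℝ Q x v := hQ.ae_lineDifferentiableAt v
    have h3 : ∀ᵐ x : V, LineDifferentiableAt ℝ Q (x + t • w) v :=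
      hmp.quasiMeasurePreserving.ae h2
    filter_upwards [h2, h3] with x hx hx'
    rw [lineDeriv_neg]
    have h4 : HasDerivAt (fun s : ℝ => Q (x + s • v)) (lineDeriv ℝ Q x v) 0 := hx.hasLineDerivAt
    have h5 : HasDerivAt (fun s : ℝ => Q (x + t • w + s • v)) (lineDeriv ℝ Q (x + t • w) v) 0 :=
      hx'.hasLineDerivAt
    have h6 : HasLineDerivAt ℝ (fun x : V => Q (x + t • w) - Q x)
        (lineDeriv ℝ Q (x + t • w) v - lineDeriv ℝ Q x v) x v := by
      change HasDerivAt (fun s : ℝ => Q (x + s • v + t • w) - Q (x + s • v)) _ 0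
      have h7 : (fun s : ℝ => Q (x + s • v + t • w) - Q (x + s • v)) =
          fun s : ℝ => Q (x + t • w + s • v) - Q (x + s • v) := by
        funext s
        rw [add_right_comm]
      rw [h7]
      exact h5.sub h4
    rw [h6.lineDeriv]
  have hQd : MemLp (fun x : V => lineDeriv ℝ Q x v) ⊤ := hQ.memLp_lineDeriv v
  have hQd' : MemLp (fun x : V => lineDeriv ℝ Q (x + t • w) v) ⊤ :=
    hQd.comp_measurePreserving hmp
  have hPi' : Integrable (fun x : V => P (x + t • (-w))) := hmp'.integrable_comp_of_integrable hPi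
  have i1 : Integrable (fun x : V => lineDeriv ℝ Q (x + t • w) v * P x) :=
    hPi.mul_of_top_right hQd'
  have i2 : Integrable (fun x : V => lineDeriv ℝ Q x v * P x) := hPi.mul_of_top_right hQd
  have i3 : Integrable (fun x : V => lineDeriv ℝ Q x v * P (x + t • (-w))) :=
    hPi'.mul_of_top_right hQd
  -- the left side
  have e1 : ∫ x : V, (Q (x + t • w) - Q x) * lineDeriv ℝ P x v =
      ∫ x : V, lineDeriv ℝ (fun x : V => Q (x + t • w) - Q x) x (-v) * P x := by
    rw [h1, neg_neg]
    exact integral_congr_ae (Filter.Eventually.of_forall fun x => mul_comm _ _)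
  have e2 : ∫ x : V, lineDeriv ℝ (fun x : V => Q (x + t • w) - Q x) x (-v) * P x =
      -((∫ x : V, lineDeriv ℝ Q (x + t • w) v * P x) - ∫ x : V, lineDeriv ℝ Q x v * P x) := by
    rw [← integral_sub i1 i2, ← integral_neg]
    refine integral_congr_ae ?_
    filter_upwards [hd] with x hx
    rw [hx]
    ring
  have e3 : ∫ x : V, lineDeriv ℝ Q (x + t • w) v * P x =
      ∫ x : V, lineDeriv ℝ Q x v * P (x + t • (-w)) := by
    have h8 := integral_add_right_eq_self (μ := (volume : Measure V))
      (fun x : V => lineDeriv ℝ Q x v * P (x + t • (-w))) (t • w)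
    rw [← h8]
    refine integral_congr_ae (Filter.Eventually.of_forall fun x => ?_)
    change lineDeriv ℝ Q (x + t • w) v * P x =
      lineDeriv ℝ Q (x + t • w) v * P (x + t • w + t • (-w))
    rw [smul_neg, add_neg_cancel_right]
  have e4 : ∫ x : V, (P (x + t • (-w)) - P x) * lineDeriv ℝ Q x v =
      (∫ x : V, lineDeriv ℝ Q x v * P (x + t • (-w))) - ∫ x : V, lineDeriv ℝ Q x v * P x := by
    rw [← integral_sub i3 i2]
    refine integral_congr_ae (Filter.Eventually.of_forall fun x => ?_)
    change (P (x + t • (-w)) - P x) * lineDeriv ℝ Q x v =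
      lineDeriv ℝ Q x v * P (x + t • (-w)) - lineDeriv ℝ Q x v * P x
    ring
  have l1 : ∫ x : V, (t⁻¹ • (Q (x + t • w) - Q x)) * lineDeriv ℝ P x v =
      t⁻¹ * ∫ x : V, (Q (x + t • w) - Q x) * lineDeriv ℝ P x v := by
    rw [← integral_const_mul]
    refine integral_congr_ae (Filter.Eventually.of_forall fun x => ?_)
    change (t⁻¹ * (Q (x + t • w) - Q x)) * lineDeriv ℝ P x v =
      t⁻¹ * ((Q (x + t • w) - Q x) * lineDeriv ℝ P x v)
    ring
  have l2 : ∫ x : V, (t⁻¹ • (P (x + t • (-w)) - P x)) * lineDeriv ℝ Q x v =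
      t⁻¹ * ∫ x : V, (P (x + t • (-w)) - P x) * lineDeriv ℝ Q x v := by
    rw [← integral_const_mul]
    refine integral_congr_ae (Filter.Eventually.of_forall fun x => ?_)
    change (t⁻¹ * (P (x + t • (-w)) - P x)) * lineDeriv ℝ Q x v =
      t⁻¹ * ((P (x + t • (-w)) - P x) * lineDeriv ℝ Q x v)
    ring
  rw [l1, l2, e1, e2, e3, e4]
  ring

/-- the limit of the difference quotients of `P` against `∂_v Q` -/
private theorem comm_lim {P Q : V → ℝ} {C D : NNReal} (hP : LipschitzWith C P)
    (hQ : LipschitzWith D Q) (hc : HasCompactSupport P) (v w : V) :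
    Filter.Tendsto (fun t : ℝ => ∫ x : V, (t⁻¹ • (P (x + t • w) - P x)) * lineDeriv ℝ Q x v)
      (nhdsWithin 0 (Ioi 0)) (nhds (∫ x : V, lineDeriv ℝ P x w * lineDeriv ℝ Q x v)) := by
  have hK : IsCompact (Metric.cthickening ‖w‖ (tsupport P)) := IsCompact.cthickening hc
  have hg : Integrable ((Metric.cthickening ‖w‖ (tsupport P)).indicator
      (fun x : V => lineDeriv ℝ Q x v)) :=
    (integrable_indicator_iff hK.measurableSet).mpr
      ((hQ.locallyIntegrable_lineDeriv v).integrableOn_isCompact hK)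
  have h1 := hP.integral_inv_smul_sub_mul_tendsto_integral_lineDeriv_mul hg w
  have h2 : ∫ x : V, lineDeriv ℝ P x w * (Metric.cthickening ‖w‖ (tsupport P)).indicator
      (fun x : V => lineDeriv ℝ Q x v) x = ∫ x : V, lineDeriv ℝ P x w * lineDeriv ℝ Q x v := by
    refine integral_congr_ae (Filter.Eventually.of_forall fun x => ?_)
    by_cases hx : x ∈ Metric.cthickening ‖w‖ (tsupport P)
    · change lineDeriv ℝ P x w * (Metric.cthickening ‖w‖ (tsupport P)).indicator
        (fun x : V => lineDeriv ℝ Q x v) x = lineDeriv ℝ P x w * lineDeriv ℝ Q x v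
      rw [indicator_of_mem hx]
    · change lineDeriv ℝ P x w * (Metric.cthickening ‖w‖ (tsupport P)).indicator
        (fun x : V => lineDeriv ℝ Q x v) x = lineDeriv ℝ P x w * lineDeriv ℝ Q x v
      rw [comm_supp P w (fun h => hx (Metric.self_subset_cthickening _ h)), zero_mul, zero_mul]
  rw [h2] at h1
  refine h1.congr' ?_
  filter_upwards [Ioc_mem_nhdsGT (zero_lt_one (α := ℝ))] with t ht
  refine integral_congr_ae (Filter.Eventually.of_forall fun x => ?_)
  change (t⁻¹ • (P (x + t • w) - P x)) * (Metric.cthickening ‖w‖ (tsupport P)).indicator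
    (fun x : V => lineDeriv ℝ Q x v) x = (t⁻¹ • (P (x + t • w) - P x)) * lineDeriv ℝ Q x v
  by_cases hx : x ∈ Metric.cthickening ‖w‖ (tsupport P)
  · rw [indicator_of_mem hx]
  · have hA : P x = 0 := by
      rw [← Function.notMem_support]
      intro h
      exact hx (Metric.self_subset_cthickening _ (subset_tsupport _ h))
    have hB : P (x + t • w) = 0 := by
      rw [← Function.notMem_support]
      intro h
      refine hx (Metric.mem_cthickening_of_dist_le _ _ ‖w‖ (tsupport P) (subset_tsupport _ h) ?_)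
      rw [dist_eq_norm, sub_add_cancel_left, norm_neg, norm_smul, Real.norm_eq_abs,
        abs_of_nonneg ht.1.le]
      exact mul_le_of_le_one_left (norm_nonneg w) ht.2
    rw [hA, hB, sub_zero, smul_zero, zero_mul, zero_mul]

theorem comm_lineDeriv {P Q : V → ℝ} {C D : NNReal} (hP : LipschitzWith C P)
    (hQ : LipschitzWith D Q) (hc : HasCompactSupport P) (v w : V) :
    ∫ x : V, lineDeriv ℝ P x v * lineDeriv ℝ Q x w =
      ∫ x : V, lineDeriv ℝ P x w * lineDeriv ℝ Q x v := by
  have h1 := hQ.integral_inv_smul_sub_mul_tendsto_integral_lineDeriv_mul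
    (comm_int hP hc v) w
  have h2 := (comm_lim hP hQ hc v (-w)).neg
  have h3 := tendsto_nhds_unique (h1.congr fun t => comm_t hP hQ hc v w t) h2
  have h4 : ∫ x : V, lineDeriv ℝ P x v * lineDeriv ℝ Q x w =
      ∫ x : V, lineDeriv ℝ Q x w * lineDeriv ℝ P x v :=
    integral_congr_ae (Filter.Eventually.of_forall fun x => mul_comm _ _)
  have h5 : ∫ x : V, lineDeriv ℝ P x (-w) * lineDeriv ℝ Q x v =
      -∫ x : V, lineDeriv ℝ P x w * lineDeriv ℝ Q x v := by
    rw [← integral_neg]
    refine integral_congr_ae (Filter.Eventually.of_forall fun x => ?_)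
    change lineDeriv ℝ P x (-w) * lineDeriv ℝ Q x v =
      -(lineDeriv ℝ P x w * lineDeriv ℝ Q x v)
    rw [lineDeriv_neg]
    ring
  rw [h4, h3, h5, neg_neg]

end Pool.Agent.Lib.MP_e62723_gt.TD
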