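import Mathlib
import Pool.Agent.Lib.MP_e62723_gt.Asy.Defs

/-!
# Bodies of constant width in `ℝ³`: basic notions

For a body `K` of constant width `2` in `ℝ³` put `h_K(y) = ‖y‖ + f(y)`; `f` is odd, positively
homogeneous of degree one, differentiable outside the origin with gradient `F`, and `F` is even,
positively homogeneous of degree zero and 1-Lipschitz on the unit sphere.
-/

open MeasureTheory

namespace Pool.Agent.Lib.MP_e62723_gt.TD

/-- The Euclidean space `ℝ³`. -/
abbrev V : Type := E 3

/-- A function `f` on `ℝ³`, positively homogeneous of degree one, with gradient `F` outside the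
origin, such that `F` is Lipschitz with constant `C` on the unit sphere. -/
structure Reg (C : ℝ) (f : V → ℝ) (F : V → V) : Prop where
  nonneg : 0 ≤ C
  hom : ∀ (t : ℝ) (y : V), 0 < t → f (t • y) = t * f y
  homF : ∀ (t : ℝ) (y : V), 0 < t → F (t • y) = F y
  grad : ∀ y : V, y ≠ 0 → HasFDerivAt f (innerSL ℝ (F y)) y
  lip : ∀ u v : V, ‖u‖ = 1 → ‖v‖ = 1 → ‖F u - F v‖ ≤ C * ‖u - v‖

/-- The standard basis. -/
noncomputable def e (i : Fin 3) : V := EuclideanSpace.single i (1 : ℝ)

/-- The trace. -/
noncomputable def tr (L : V →L[ℝ] V) : ℝ := ∑ i, (L (e i)) i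

/-- The square of the Hilbert-Schmidt norm. -/
noncomputable def hs (L : V →L[ℝ] V) : ℝ := ∑ i, ‖L (e i)‖ ^ 2

/-- The second elementary symmetric function of the eigenvalues of a symmetric `L`. -/
noncomputable def e2 (L : V →L[ℝ] V) : ℝ := (tr L ^ 2 - hs L) / 2

/-- The integral over the unit ball. -/
noncomputable def bi (Ψ : V → ℝ) : ℝ := ∫ y in Metric.ball (0 : V) 1, Ψ y

/-- Bounded measurable functions on `ℝ³`, positively homogeneous of degree zero. -/
structure Hom0 (Ψ : V → ℝ) : Prop where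
  meas : Measurable Ψ
  hom : ∀ (t : ℝ) (y : V), 0 < t → Ψ (t • y) = Ψ y
  bdd : ∃ B : ℝ, ∀ y, |Ψ y| ≤ B

end Pool.Agent.Lib.MP_e62723_gt.TD
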