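import Pool.Agent.Lib.MP_e62723_gt.Asy.Gap
import Pool.Agent.Lib.MP_e62723_gt.TD.Defs

/-!
# JOB CruM: for `Φ` orthogonal to polynomials of degree `< m`, `|∫ Φ T_r Φ| ≤ M r^m` for small `r`

Compare `Asy/Crude.lean` (the case of even functions, `m = 2`), from which large parts can be
copied.
Let `0 < r < 1`, `s = √(1 - r²) > 0`, `h = r/s`. By `shift` (with `φ(z) = Φ (s • z)`, `a = h • x`):
`T n r Φ x = ∫ Φ(s • z) e^{⟪h•x, z⟫ - ‖h•x‖²/2} dγ(z)
 = e^{-‖h•x‖²/2} ∫ Φ(s • z) (e^{h⟪x,z⟫} - ∑_{j<m} (h⟪x,z⟫)^j/j!) dγ(z)` by `horth` (with this `s`,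
`x`, and `j < m`; linearity of the integral, all integrands are integrable: `Φ` bounded,
polynomials in `⟪x,z⟫` and exponentials are integrable; `integrable_exp_inner`).
`|e^u - ∑_{j<m} u^j/j!| ≤ |u|^m e^{|u|}` for real `u` (`Real.exp_bound` is for `|u| ≤ 1`; use
`Complex.norm_exp_sub_sum_le_norm_mul_exp (x : ℂ) (n : ℕ) :
‖exp x - ∑ m ∈ range n, x^m/m!‖ ≤ ‖x‖^n * Real.exp ‖x‖` for `x = (u : ℂ)` and casts), and
`e^{-‖h•x‖²/2} ≤ 1`. So
`|T_r Φ (x)| ≤ C ∫ (h ‖x‖ ‖z‖)^m e^{h ‖x‖ ‖z‖} dγ(z) ≤ C h^m (‖x‖^m e^{h‖x‖²/2}) ∫ ‖z‖^m e^{h‖z‖²/2} dγ(z)`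
(`2‖x‖‖z‖ ≤ ‖x‖² + ‖z‖²`), and `|∫ Φ T_r Φ| ≤ C² h^m J_h²`, `J_h = ∫ ‖z‖^m e^{h‖z‖²/2} dγ(z)`.
By Fernique's theorem (`IsGaussian.exists_integrable_exp_sq (gam n)`, as in `Asy.crude`) there is
`c > 0` with `∫ e^{c‖x‖²} dγ < ∞`. If `h ≤ c`: `‖z‖^m e^{h‖z‖²/2} ≤ ‖z‖^m e^{c‖z‖²/2} ≤
K e^{c‖z‖²}` with a constant `K = K(m, c)` (`t^m ≤ K' e^{c t²/2}` for `t ≥ 0`: e.g.
`t^m ≤ 1 + t^{2m}` and `(c t²/2)^m / m! ≤ e^{c t²/2}` (`Real.pow_div_factorial_le_exp`)). So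
`J_h ≤ J := K ∫ e^{c‖z‖²}`. For `r < r₀ = min (1/2) (c/2)`: `s² ≥ 3/4`, `s ≥ 1/2`, `h ≤ 2 r ≤ c`,
`h^m ≤ 2^m r^m`; take `M = C² 2^m J² + 1`.
(If `n = 0` nothing special happens.)
-/

open MeasureTheory ProbabilityTheory

namespace Pool.Agent.Lib.MP_e62723_gt.TD

open Pool.Agent.Lib.MP_e62723_gt.Asy

variable {n : ℕ}

private theorem cru_exp (u : ℝ) (m : ℕ) :
    |Real.exp u - ∑ j ∈ Finset.range m, u ^ j / (j.factorial : ℝ)| ≤ |u| ^ m * Real.exp |u| := by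
  have h := Complex.norm_exp_sub_sum_le_norm_mul_exp (u : ℂ) m
  rw [Complex.norm_real, Real.norm_eq_abs] at h
  have e : Complex.exp (u : ℂ) - ∑ j ∈ Finset.range m, (u : ℂ) ^ j / (j.factorial : ℂ) =
      ((Real.exp u - ∑ j ∈ Finset.range m, u ^ j / (j.factorial : ℝ) : ℝ) : ℂ) := by
    push_cast
    rfl
  rw [e, Complex.norm_real, Real.norm_eq_abs] at h
  exact h

private theorem cru_pt (m : ℕ) {c h t : ℝ} (hc : 0 < c) (hh : h ≤ c) :
    t ^ m * Real.exp (h * t ^ 2 / 2) ≤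
      (1 + (m.factorial : ℝ) * (2 / c) ^ m) * Real.exp (c * t ^ 2) := by
  have e1 : Real.exp (h * t ^ 2 / 2) ≤ Real.exp (c * t ^ 2 / 2) := by
    apply Real.exp_le_exp.2
    have := mul_le_mul_of_nonneg_right hh (sq_nonneg t)
    linarith
  have h0 : 0 ≤ c * t ^ 2 / 2 := by positivity
  have h1 := Real.pow_div_factorial_le_exp _ h0 m
  have hf : (0 : ℝ) < (m.factorial : ℝ) := by exact_mod_cast m.factorial_pos
  rw [div_le_iff₀ hf] at h1
  have h2 : (t ^ m) ^ 2 = (2 / c) ^ m * (c * t ^ 2 / 2) ^ m := by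
    rw [← mul_pow, ← pow_mul, mul_comm m 2, pow_mul]
    congr 1
    field_simp
  have h3 : (t ^ m) ^ 2 ≤ (m.factorial : ℝ) * (2 / c) ^ m * Real.exp (c * t ^ 2 / 2) := by
    rw [h2]
    calc (2 / c) ^ m * (c * t ^ 2 / 2) ^ m
        ≤ (2 / c) ^ m * (Real.exp (c * t ^ 2 / 2) * (m.factorial : ℝ)) :=
          mul_le_mul_of_nonneg_left h1 (by positivity)
      _ = _ := by ring
  have h4 : 1 ≤ Real.exp (c * t ^ 2 / 2) := Real.one_le_exp h0
  have h5 : t ^ m ≤ 1 + (t ^ m) ^ 2 := by nlinarith [sq_nonneg (t ^ m - 1)]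
  have h6 : t ^ m ≤ (1 + (m.factorial : ℝ) * (2 / c) ^ m) * Real.exp (c * t ^ 2 / 2) := by
    calc t ^ m ≤ 1 + (t ^ m) ^ 2 := h5
      _ ≤ Real.exp (c * t ^ 2 / 2) +
          (m.factorial : ℝ) * (2 / c) ^ m * Real.exp (c * t ^ 2 / 2) := add_le_add h4 h3
      _ = _ := by ring
  have e3 : Real.exp (c * t ^ 2) = Real.exp (c * t ^ 2 / 2) * Real.exp (c * t ^ 2 / 2) := by
    rw [← Real.exp_add]
    congr 1
    ring
  rw [e3, ← mul_assoc]
  exact mul_le_mul h6 e1 (Real.exp_pos _).le (by positivity)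

private theorem cru_int (y : E n) (j : ℕ) :
    Integrable (fun z => (inner ℝ y z) ^ j) (gam n) := by
  have hf : (0 : ℝ) < (j.factorial : ℝ) := by exact_mod_cast j.factorial_pos
  have h1 : Integrable (fun z => (j.factorial : ℝ) * (Real.exp (inner ℝ y z) +
      Real.exp (inner ℝ (-y) z))) (gam n) :=
    ((integrable_exp_inner y).add (integrable_exp_inner (-y))).const_mul _
  have hm : Measurable fun z : E n => (inner ℝ y z : ℝ) ^ j := by fun_prop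
  refine h1.mono' hm.aestronglyMeasurable (Filter.Eventually.of_forall fun z => ?_)
  rw [norm_pow, Real.norm_eq_abs, inner_neg_left]
  have h2 := Real.pow_div_factorial_le_exp _ (abs_nonneg (inner ℝ y z)) j
  rw [div_le_iff₀ hf] at h2
  have h3 : Real.exp |inner ℝ y z| ≤ Real.exp (inner ℝ y z) + Real.exp (-inner ℝ y z) := by
    rcases abs_choice (inner ℝ y z) with h | h
    · rw [h]
      have := Real.exp_pos (-inner ℝ y z)
      linarith
    · rw [h]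
      have := Real.exp_pos (inner ℝ y z)
      linarith
  calc |inner ℝ y z| ^ j ≤ Real.exp |inner ℝ y z| * (j.factorial : ℝ) := h2
    _ ≤ (Real.exp (inner ℝ y z) + Real.exp (-inner ℝ y z)) * (j.factorial : ℝ) :=
        mul_le_mul_of_nonneg_right h3 hf.le
    _ = _ := mul_comm _ _

private theorem cru_T {m : ℕ} {C : ℝ} {Φ : E n → ℝ} (hΦ : Measurable Φ) (hC : ∀ x, |Φ x| ≤ C)
    (horth : ∀ s : ℝ, 0 < s → ∀ x : E n, ∀ j < m,
      ∫ z, Φ (s • z) * (inner ℝ x z) ^ j ∂(gam n) = 0) {r s : ℝ} (hs : s = √(1 - r ^ 2))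
    (hs0 : 0 < s) (x y : E n) (hy : y = (r / s) • x) :
    T n r Φ x = ∫ z, Φ (s • z) * ((Real.exp (inner ℝ y z) -
      ∑ j ∈ Finset.range m, (inner ℝ y z) ^ j / (j.factorial : ℝ)) *
        Real.exp (-(‖y‖ ^ 2 / 2))) ∂(gam n) := by
  have hφm : Measurable (fun z : E n => Φ (s • z)) := hΦ.comp (measurable_const_smul s)
  have hbdd : ∀ᵐ z ∂(gam n), ‖Φ (s • z)‖ ≤ C := Filter.Eventually.of_forall fun z => hC _
  have h1 : T n r Φ x = ∫ z, (fun w : E n => Φ (s • w)) (z + y) ∂(gam n) := by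
    unfold T
    rw [← hs]
    refine integral_congr_ae (Filter.Eventually.of_forall fun z => ?_)
    show Φ (r • x + s • z) = Φ (s • (z + y))
    congr 1
    rw [smul_add, hy, smul_smul, mul_div_cancel₀ r hs0.ne', add_comm]
  rw [h1, shift (fun w : E n => Φ (s • w)) y]
  have hi1 : Integrable (fun z : E n => Φ (s • z) * Real.exp (inner ℝ y z)) (gam n) :=
    (integrable_exp_inner y).bdd_mul (c := C) hφm.aestronglyMeasurable hbdd
  have hi2 : ∀ j, Integrable (fun z : E n => Φ (s • z) * (inner ℝ y z) ^ j) (gam n) := fun j =>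
    (cru_int y j).bdd_mul (c := C) hφm.aestronglyMeasurable hbdd
  have hi3 : ∀ j ∈ Finset.range m, Integrable (fun z : E n => Φ (s • z) * (inner ℝ y z) ^ j /
      (j.factorial : ℝ)) (gam n) := fun j _ => (hi2 j).div_const _
  have h2 : ∫ z, ∑ j ∈ Finset.range m, Φ (s • z) * (inner ℝ y z) ^ j /
      (j.factorial : ℝ) ∂(gam n) = 0 := by
    rw [integral_finsetSum _ hi3]
    refine Finset.sum_eq_zero fun j hj => ?_
    rw [integral_div, horth s hs0 y j (Finset.mem_range.1 hj), zero_div]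
  have h3 : ∫ z, Φ (s • z) * ((Real.exp (inner ℝ y z) -
      ∑ j ∈ Finset.range m, (inner ℝ y z) ^ j / (j.factorial : ℝ)) *
        Real.exp (-(‖y‖ ^ 2 / 2))) ∂(gam n) =
      (∫ z, Φ (s • z) * Real.exp (inner ℝ y z) ∂(gam n) -
        ∫ z, ∑ j ∈ Finset.range m, Φ (s • z) * (inner ℝ y z) ^ j /
          (j.factorial : ℝ) ∂(gam n)) * Real.exp (-(‖y‖ ^ 2 / 2)) := by
    rw [← integral_sub hi1 (integrable_finsetSum _ hi3), ← integral_mul_const]
    refine integral_congr_ae (Filter.Eventually.of_forall fun z => ?_)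
    show Φ (s • z) * ((Real.exp (inner ℝ y z) -
      ∑ j ∈ Finset.range m, (inner ℝ y z) ^ j / (j.factorial : ℝ)) *
        Real.exp (-(‖y‖ ^ 2 / 2))) = (Φ (s • z) * Real.exp (inner ℝ y z) -
        ∑ j ∈ Finset.range m, Φ (s • z) * (inner ℝ y z) ^ j /
          (j.factorial : ℝ)) * Real.exp (-(‖y‖ ^ 2 / 2))
    have h4 : ∑ j ∈ Finset.range m, Φ (s • z) * (inner ℝ y z) ^ j / (j.factorial : ℝ) =
        Φ (s • z) * ∑ j ∈ Finset.range m, (inner ℝ y z) ^ j / (j.factorial : ℝ) := by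
      rw [Finset.mul_sum]
      refine Finset.sum_congr rfl fun j _ => ?_
      ring
    rw [h4]
    ring
  rw [h3, h2, sub_zero, ← integral_mul_const]
  refine integral_congr_ae (Filter.Eventually.of_forall fun z => ?_)
  show Φ (s • z) * Real.exp (inner ℝ y z - ‖y‖ ^ 2 / 2) =
    Φ (s • z) * Real.exp (inner ℝ y z) * Real.exp (-(‖y‖ ^ 2 / 2))
  rw [mul_assoc, ← Real.exp_add, sub_eq_add_neg]

theorem crudeM {m : ℕ} {C : ℝ} {Φ : E n → ℝ} (hΦ : Measurable Φ) (hC : ∀ x, |Φ x| ≤ C)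
    (horth : ∀ s : ℝ, 0 < s → ∀ x : E n, ∀ j < m,
      ∫ z, Φ (s • z) * (inner ℝ x z) ^ j ∂(gam n) = 0) :
    ∃ r₀ M : ℝ, 0 < r₀ ∧ 0 < M ∧ ∀ r : ℝ, 0 < r → r < r₀ →
      |∫ x, Φ x * T n r Φ x ∂(gam n)| ≤ M * r ^ m := by
  obtain ⟨c, hc, hcint⟩ := IsGaussian.exists_integrable_exp_sq (gam n)
  have hC0 : 0 ≤ C := (abs_nonneg _).trans (hC 0)
  obtain ⟨J, hJ⟩ : ∃ J : ℝ, J = ∫ x : E n, Real.exp (c * ‖x‖ ^ 2) ∂(gam n) := ⟨_, rfl⟩
  have hJ0 : 0 ≤ J := by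
    rw [hJ]
    exact integral_nonneg fun x => (Real.exp_pos _).le
  obtain ⟨K, hK⟩ : ∃ K : ℝ, K = 1 + (m.factorial : ℝ) * (2 / c) ^ m := ⟨_, rfl⟩
  have hK0 : 0 ≤ K := by
    rw [hK]
    positivity
  refine ⟨min (1 / 2) (c / 2), C ^ 2 * 2 ^ m * (K * J) ^ 2 + 1, ?_, by positivity, ?_⟩
  · exact lt_min (by norm_num) (by positivity)
  intro r hr0 hr
  have hr2 : r < 1 / 2 := lt_of_lt_of_le hr (min_le_left _ _)
  have hr3 : r < c / 2 := lt_of_lt_of_le hr (min_le_right _ _)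
  obtain ⟨s, hs⟩ : ∃ s : ℝ, s = √(1 - r ^ 2) := ⟨_, rfl⟩
  obtain ⟨h, hh⟩ : ∃ h : ℝ, h = r / s := ⟨_, rfl⟩
  have hs1 : 1 / 2 ≤ s := by
    rw [hs]
    apply Real.le_sqrt_of_sq_le
    nlinarith
  have hs0 : 0 < s := by linarith
  have hh0 : 0 ≤ h := by
    rw [hh]
    positivity
  have hh2 : h ≤ 2 * r := by
    rw [hh, div_le_iff₀ hs0]
    nlinarith
  have hhc : h ≤ c := by linarith
  have hT : ∀ x : E n, |T n r Φ x| ≤ C * h ^ m * (K * J) * (K * Real.exp (c * ‖x‖ ^ 2)) := by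
    intro x
    obtain ⟨y, hy⟩ : ∃ y : E n, y = h • x := ⟨_, rfl⟩
    have hny : ‖y‖ = h * ‖x‖ := by
      rw [hy, norm_smul, Real.norm_of_nonneg hh0]
    rw [cru_T hΦ hC horth hs hs0 x y (by rw [hy, hh]), ← Real.norm_eq_abs]
    have hdom : Integrable (fun z : E n => C * h ^ m * (K * Real.exp (c * ‖x‖ ^ 2)) * K *
        Real.exp (c * ‖z‖ ^ 2)) (gam n) := hcint.const_mul _
    refine (norm_integral_le_of_norm_le hdom (Filter.Eventually.of_forall fun z => ?_)).trans ?_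
    · obtain ⟨u, hu⟩ : ∃ u : ℝ, u = inner ℝ y z := ⟨_, rfl⟩
      rw [← hu, norm_mul, norm_mul, Real.norm_eq_abs, Real.norm_eq_abs,
        Real.norm_of_nonneg (Real.exp_pos _).le]
      have hua : |u| ≤ h * ‖x‖ * ‖z‖ := by
        rw [hu, ← hny]
        exact abs_real_inner_le_norm y z
      have h1 := cru_exp u m
      have h2 : Real.exp (-(‖y‖ ^ 2 / 2)) ≤ 1 := by
        rw [Real.exp_le_one_iff]
        have : 0 ≤ ‖y‖ ^ 2 := sq_nonneg _
        linarith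
      have h3 : |u| ^ m ≤ (h * ‖x‖ * ‖z‖) ^ m := pow_le_pow_left₀ (abs_nonneg _) hua m
      have h4 : Real.exp |u| ≤ Real.exp (h * ‖x‖ ^ 2 / 2) * Real.exp (h * ‖z‖ ^ 2 / 2) := by
        rw [← Real.exp_add]
        apply Real.exp_le_exp.2
        refine hua.trans ?_
        have h5 : 2 * ‖x‖ * ‖z‖ ≤ ‖x‖ ^ 2 + ‖z‖ ^ 2 := two_mul_le_add_sq _ _
        have h6 := mul_le_mul_of_nonneg_left h5 hh0
        linarith
      have hx := cru_pt m (t := ‖x‖) hc hhc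
      have hz := cru_pt m (t := ‖z‖) hc hhc
      rw [← hK] at hx hz
      have h7 : |Real.exp u - ∑ j ∈ Finset.range m, u ^ j / (j.factorial : ℝ)| ≤
          h ^ m * ((K * Real.exp (c * ‖x‖ ^ 2)) * (K * Real.exp (c * ‖z‖ ^ 2))) := by
        calc _ ≤ |u| ^ m * Real.exp |u| := h1
          _ ≤ (h * ‖x‖ * ‖z‖) ^ m *
              (Real.exp (h * ‖x‖ ^ 2 / 2) * Real.exp (h * ‖z‖ ^ 2 / 2)) :=
            mul_le_mul h3 h4 (Real.exp_pos _).le (by positivity)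
          _ = h ^ m * ((‖x‖ ^ m * Real.exp (h * ‖x‖ ^ 2 / 2)) *
              (‖z‖ ^ m * Real.exp (h * ‖z‖ ^ 2 / 2))) := by
            rw [mul_pow, mul_pow]
            ring
          _ ≤ _ := by
            refine mul_le_mul_of_nonneg_left (mul_le_mul hx hz ?_ ?_) (by positivity)
            · positivity
            · positivity
      calc |Φ (s • z)| * (|Real.exp u - ∑ j ∈ Finset.range m, u ^ j / (j.factorial : ℝ)| *
            Real.exp (-(‖y‖ ^ 2 / 2)))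
          ≤ C * ((h ^ m * ((K * Real.exp (c * ‖x‖ ^ 2)) * (K * Real.exp (c * ‖z‖ ^ 2)))) * 1) := by
            refine mul_le_mul (hC _) (mul_le_mul h7 h2 (Real.exp_pos _).le ?_) ?_ hC0
            · positivity
            · positivity
        _ = _ := by ring
    · rw [integral_const_mul, ← hJ]
      apply le_of_eq
      ring
  rw [← Real.norm_eq_abs]
  have h8 : ‖∫ x, Φ x * T n r Φ x ∂(gam n)‖ ≤
      ∫ x : E n, (C * (C * h ^ m * (K * J)) * K) * Real.exp (c * ‖x‖ ^ 2) ∂(gam n) := by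
    refine norm_integral_le_of_norm_le (hcint.const_mul _)
      (Filter.Eventually.of_forall fun x => ?_)
    rw [norm_mul, Real.norm_eq_abs, Real.norm_eq_abs]
    calc |Φ x| * |T n r Φ x| ≤ C * (C * h ^ m * (K * J) * (K * Real.exp (c * ‖x‖ ^ 2))) :=
          mul_le_mul (hC _) (hT x) (abs_nonneg _) hC0
      _ = _ := by ring
  refine h8.trans ?_
  rw [integral_const_mul, ← hJ]
  have h9 : h ^ m ≤ 2 ^ m * r ^ m := by
    rw [← mul_pow]
    exact pow_le_pow_left₀ hh0 hh2 m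
  have h10 : C * (C * h ^ m * (K * J)) * K * J = C ^ 2 * (K * J) ^ 2 * h ^ m := by ring
  rw [h10]
  have h11 : C ^ 2 * (K * J) ^ 2 * h ^ m ≤ C ^ 2 * (K * J) ^ 2 * (2 ^ m * r ^ m) :=
    mul_le_mul_of_nonneg_left h9 (by positivity)
  refine h11.trans ?_
  have h12 : 0 ≤ r ^ m := by positivity
  have h13 : (C ^ 2 * 2 ^ m * (K * J) ^ 2 + 1) * r ^ m =
      C ^ 2 * (K * J) ^ 2 * (2 ^ m * r ^ m) + r ^ m := by ring
  rw [h13]
  linarith

end Pool.Agent.Lib.MP_e62723_gt.TD
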