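import Pool.Agent.Lib.MP_e62723_gt.TD.Bas

/-!
# JOB Der: the derivative `A(y) = fderiv ℝ F y` of the gradient

`A_smul`: `F = F ∘ (t • ·)` (`homF`), so `fderiv ℝ F y = t • fderiv ℝ F (t • y)`: there is
`fderiv_comp_smul` (`fderiv 𝕜 (f <| c • ·) x = c • fderiv 𝕜 f (c • x)`); otherwise through the
equivalence `DifferentiableAt ℝ F (t • y) ↔ DifferentiableAt ℝ F y`. Valid for all `y`.
`A_neg`: `F = F ∘ neg`, `fderiv_comp_neg` (`fderiv 𝕜 (fun x => f (-x)) x = -fderiv 𝕜 f (-x)`).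
`A_symm`: if `F` is not differentiable at `y` the derivative is `0`. Otherwise the derivative of
`y' ↦ innerSL ℝ (F y')` at `y` is `(innerSL ℝ) ∘L fderiv ℝ F y`, and
`second_derivative_symmetric_of_eventually (f := f) (f' := fun y => innerSL ℝ (F y))`
(`HasFDerivAt f (f' y') y'` for `y'` near `y`, as `y' ≠ 0` there) gives
`⟪A v, w⟫ = ⟪A w, v⟫` (`innerSL_apply_apply` or `innerSL_apply`).
`A_self`: if `F` is differentiable at `y`: `t ↦ F ((1+t) • y)` is constant near `0`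
(`homF`), its derivative at `0` is `A y` (chain rule). Otherwise trivial.
`A_norm`: let `r < ‖y‖`, near `y` the map `F` is Lipschitz with constant `C / r` (`lipF`), so
`‖fderiv ℝ F y‖ ≤ C / r` (`norm_fderiv_le_of_lipschitzOn`:
`norm_fderiv_le_of_lipschitzOn 𝕜 {f} {x₀} {s} (hs : s ∈ 𝓝 x₀) {C : ℝ≥0}
(hlip : LipschitzOnWith C f s) : ‖fderiv 𝕜 f x₀‖ ≤ C`, or
`norm_fderiv_le_of_lip'`), for all `r < ‖y‖`; let `r → ‖y‖` (e.g. `le_of_forall_lt`, or if
`‖A‖ > C/‖y‖` choose `r`).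
`hs_le`: put `u = ‖y‖⁻¹ • y`. By `A_self`, `A u = 0`, so for all `v`
`A v = A (v - ⟪u,v⟫ • u)` and `‖A v‖² ≤ (C/‖y‖)² ‖v - ⟪u,v⟫ • u‖² = (C/‖y‖)² (‖v‖² - ⟪u,v⟫²)`
(`norm_sub_sq_real`, `‖u‖ = 1`). Sum over `v = e i`, `i : Fin 3`: `‖e i‖ = 1`,
`⟪u, e i⟫ = u i`, `∑ (u i)² = ‖u‖² = 1` (`EuclideanSpace.norm_sq_eq`), so
`hs A ≤ (C/‖y‖)² (3 - 1)`.
`tr_le`: `|(A (e i)) i| ≤ ‖A (e i)‖ ≤ C/‖y‖` (`EuclideanSpace.norm_eq`/`PiLp.norm_apply_le`).
`meas_tr`, `meas_hs`: `measurable_fderiv ℝ F : Measurable (fderiv ℝ F)` and continuity of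
`L ↦ tr L`, `L ↦ hs L`.
-/

open MeasureTheory Set

namespace Pool.Agent.Lib.MP_e62723_gt.TD

variable {C : ℝ} {f : V → ℝ} {F : V → V}

theorem Reg.A_smul (h : Reg C f F) {t : ℝ} (ht : 0 < t) (y : V) :
    fderiv ℝ F (t • y) = t⁻¹ • fderiv ℝ F y := by
  have h1 : fderiv ℝ (fun z => F (t • z)) y = t • fderiv ℝ F (t • y) := fderiv_comp_smul t
  have h2 : (fun z => F (t • z)) = F := funext fun z => h.homF t z ht
  rw [h2] at h1
  rw [h1, smul_smul, inv_mul_cancel₀ ht.ne', one_smul]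

theorem A_neg (hev : ∀ y, F (-y) = F y) (y : V) : fderiv ℝ F (-y) = -fderiv ℝ F y := by
  have h1 : fderiv ℝ (fun z => F ((-1 : ℝ) • z)) y = (-1 : ℝ) • fderiv ℝ F ((-1 : ℝ) • y) :=
    fderiv_comp_smul (-1 : ℝ)
  have h2 : (fun z => F ((-1 : ℝ) • z)) = F := funext fun z => by
    rw [neg_one_smul]
    exact hev z
  rw [h2, neg_one_smul ℝ y] at h1
  have h3 : fderiv ℝ F y = -fderiv ℝ F (-y) := by
    rw [h1]
    exact neg_one_smul ℝ (fderiv ℝ F (-y))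
  rw [h3, neg_neg]

/-- the inner product as a linear map into the dual space -/
private noncomputable def Der_J : V →L[ℝ] (V →L[ℝ] ℝ) :=
  LinearMap.toContinuousLinearMap
    { toFun := fun y => innerSL ℝ y
      map_add' := fun a b => map_add _ _ _
      map_smul' := fun c a => by
        ext w
        simp }

private theorem Der_J_apply (y w : V) : Der_J y w = inner ℝ y w := rfl

private theorem Der_J_eq (y : V) : Der_J y = innerSL ℝ y := rfl

theorem Reg.A_symm (h : Reg C f F) {y : V} (hy : y ≠ 0) (v w : V) :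
    inner ℝ (fderiv ℝ F y v) w = inner ℝ (fderiv ℝ F y w) v := by
  by_cases hd : DifferentiableAt ℝ F y
  · have hf : ∀ᶠ z in nhds y, HasFDerivAt f (Der_J (F z)) z := by
      filter_upwards [isOpen_ne.mem_nhds hy] with z hz
      exact h.grad z hz
    have hx : HasFDerivAt (fun z => Der_J (F z)) (Der_J.comp (fderiv ℝ F y)) y :=
      Der_J.hasFDerivAt.comp y hd.hasFDerivAt
    exact second_derivative_symmetric_of_eventually_of_real hf hx v w
  · rw [fderiv_zero_of_not_differentiableAt hd]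
    simp

theorem Reg.A_self (h : Reg C f F) {y : V} (hy : y ≠ 0) : fderiv ℝ F y y = 0 := by
  by_cases hd : DifferentiableAt ℝ F y
  · have h1 : HasDerivAt (fun t : ℝ => F (y + t • y)) (fderiv ℝ F y y) 0 :=
      hd.hasFDerivAt.hasLineDerivAt y
    have h2 : (fun t : ℝ => F (y + t • y)) =ᶠ[nhds 0] fun _ => F y := by
      have h3 : Set.Ioi (-1 : ℝ) ∈ nhds (0 : ℝ) := Ioi_mem_nhds (by norm_num)
      filter_upwards [h3] with t ht
      have h4 : y + t • y = (1 + t) • y := by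
        rw [add_smul, one_smul]
      rw [h4]
      exact h.homF _ _ (by
        have := Set.mem_Ioi.1 ht
        linarith)
    exact (h1.congr_of_eventuallyEq h2.symm).unique (hasDerivAt_const 0 (F y))
  · rw [fderiv_zero_of_not_differentiableAt hd]
    simp

private theorem Der_op (h : Reg C f F) {y : V} (hy : y ≠ 0) :
    ‖fderiv ℝ F y‖ * ‖y‖ ≤ C := by
  have hy0 : 0 < ‖y‖ := norm_pos_iff.2 hy
  have key : ∀ r : ℝ, 0 < r → r < ‖y‖ → ‖fderiv ℝ F y‖ ≤ C / r := by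
    intro r hr hry
    refine norm_fderiv_le_of_lip' ℝ (div_nonneg h.nonneg hr.le) ?_
    have h1 : ∀ᶠ z in nhds y, r < ‖z‖ := continuous_norm.continuousAt.eventually_const_lt hry
    filter_upwards [h1] with z hz
    have h2 := h.lipF hr hz.le hry.le
    rw [div_mul_eq_mul_div, mul_div_assoc]
    exact h2
  by_contra hlt
  push Not at hlt
  have ha : 0 < ‖fderiv ℝ F y‖ := by
    by_contra h0
    have h1 : ‖fderiv ℝ F y‖ = 0 := le_antisymm (not_lt.1 h0) (norm_nonneg _)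
    rw [h1, zero_mul] at hlt
    exact absurd h.nonneg (not_le.2 hlt)
  have hCa : C / ‖fderiv ℝ F y‖ < ‖y‖ := by
    rw [div_lt_iff₀ ha]
    linarith
  have hCa0 : 0 ≤ C / ‖fderiv ℝ F y‖ := div_nonneg h.nonneg ha.le
  obtain ⟨r, hr1, hr2⟩ := exists_between hCa
  have hr0 : 0 < r := lt_of_le_of_lt hCa0 hr1
  have h3 := key r hr0 hr2
  rw [le_div_iff₀ hr0] at h3
  rw [div_lt_iff₀ ha] at hr1
  linarith

theorem Reg.A_norm (h : Reg C f F) {y : V} (hy : y ≠ 0) (v : V) :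
    ‖fderiv ℝ F y v‖ ≤ C * ‖v‖ / ‖y‖ := by
  have hy0 : 0 < ‖y‖ := norm_pos_iff.2 hy
  rw [le_div_iff₀ hy0]
  calc ‖fderiv ℝ F y v‖ * ‖y‖ ≤ (‖fderiv ℝ F y‖ * ‖v‖) * ‖y‖ :=
        mul_le_mul_of_nonneg_right (ContinuousLinearMap.le_opNorm _ _) hy0.le
    _ = (‖fderiv ℝ F y‖ * ‖y‖) * ‖v‖ := by ring
    _ ≤ C * ‖v‖ := mul_le_mul_of_nonneg_right (Der_op h hy) (norm_nonneg _)

private theorem Der_norm_e (i : Fin 3) : ‖e i‖ = 1 := by
  unfold e
  simp

private theorem Der_inner_e (u : V) (i : Fin 3) : inner ℝ (e i) u = u i := by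
  unfold e
  rw [EuclideanSpace.inner_single_left]
  simp

theorem Reg.hs_le (h : Reg C f F) {y : V} (hy : y ≠ 0) :
    ‖y‖ ^ 2 * hs (fderiv ℝ F y) ≤ 2 * C ^ 2 := by
  have hy0 : 0 < ‖y‖ := norm_pos_iff.2 hy
  obtain ⟨u, hu⟩ : ∃ u : V, u = ‖y‖⁻¹ • y := ⟨_, rfl⟩
  have hu1 : ‖u‖ = 1 := by
    rw [hu, norm_smul, norm_inv, norm_norm, inv_mul_cancel₀ hy0.ne']
  have hAu : fderiv ℝ F y u = 0 := by
    rw [hu, map_smul, h.A_self hy, smul_zero]
  have key : ∀ i : Fin 3, ‖y‖ ^ 2 * ‖fderiv ℝ F y (e i)‖ ^ 2 ≤ C ^ 2 * (1 - (u i) ^ 2) := by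
    intro i
    have h1 : fderiv ℝ F y (e i) = fderiv ℝ F y (e i - (u i) • u) := by
      rw [map_sub, map_smul, hAu, smul_zero, sub_zero]
    have h2 : ‖e i - (u i) • u‖ ^ 2 = 1 - (u i) ^ 2 := by
      rw [norm_sub_sq_real, Der_norm_e, norm_smul, hu1, inner_smul_right, Der_inner_e,
        Real.norm_eq_abs, mul_one, sq_abs]
      ring
    have h3 := h.A_norm hy (e i - (u i) • u)
    rw [← h1, le_div_iff₀ hy0] at h3
    have h4 : (‖fderiv ℝ F y (e i)‖ * ‖y‖) ^ 2 ≤ (C * ‖e i - (u i) • u‖) ^ 2 :=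
      pow_le_pow_left₀ (mul_nonneg (norm_nonneg _) hy0.le) h3 2
    calc ‖y‖ ^ 2 * ‖fderiv ℝ F y (e i)‖ ^ 2 = (‖fderiv ℝ F y (e i)‖ * ‖y‖) ^ 2 := by ring
      _ ≤ (C * ‖e i - (u i) • u‖) ^ 2 := h4
      _ = C ^ 2 * ‖e i - (u i) • u‖ ^ 2 := by ring
      _ = C ^ 2 * (1 - (u i) ^ 2) := by rw [h2]
  have hsum : ∑ i : Fin 3, (u i) ^ 2 = 1 := by
    have h1 := EuclideanSpace.real_norm_sq_eq u
    rw [hu1, one_pow] at h1
    exact h1.symm
  unfold hs
  rw [Finset.mul_sum]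
  calc ∑ i : Fin 3, ‖y‖ ^ 2 * ‖fderiv ℝ F y (e i)‖ ^ 2
      ≤ ∑ i : Fin 3, C ^ 2 * (1 - (u i) ^ 2) := Finset.sum_le_sum fun i _ => key i
    _ = 2 * C ^ 2 := by
      rw [← Finset.mul_sum, Finset.sum_sub_distrib, hsum]
      simp only [Finset.sum_const, Finset.card_univ, Fintype.card_fin, nsmul_eq_mul]
      norm_num
      ring

theorem Reg.tr_le (h : Reg C f F) {y : V} (hy : y ≠ 0) :
    ‖y‖ * |tr (fderiv ℝ F y)| ≤ 3 * C := by
  have hy0 : 0 < ‖y‖ := norm_pos_iff.2 hy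
  have key : ∀ i : Fin 3, |(fderiv ℝ F y (e i)) i| ≤ C / ‖y‖ := by
    intro i
    have h1 : |(fderiv ℝ F y (e i)) i| ≤ ‖fderiv ℝ F y (e i)‖ := by
      have h2 := abs_real_inner_le_norm (e i) (fderiv ℝ F y (e i))
      rw [Der_inner_e, Der_norm_e, one_mul] at h2
      exact h2
    have h3 := h.A_norm hy (e i)
    rw [Der_norm_e, mul_one] at h3
    exact h1.trans h3
  have h4 : |tr (fderiv ℝ F y)| ≤ 3 * (C / ‖y‖) := by
    unfold tr
    refine (Finset.abs_sum_le_sum_abs _ _).trans ?_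
    refine (Finset.sum_le_sum fun i _ => key i).trans ?_
    simp only [Finset.sum_const, Finset.card_univ, Fintype.card_fin, nsmul_eq_mul]
    norm_num
  calc ‖y‖ * |tr (fderiv ℝ F y)| ≤ ‖y‖ * (3 * (C / ‖y‖)) :=
        mul_le_mul_of_nonneg_left h4 hy0.le
    _ = 3 * C := by
      field_simp

theorem meas_tr (F : V → V) : Measurable (fun y => tr (fderiv ℝ F y)) := by
  unfold tr
  refine Finset.measurable_sum _ fun i _ => ?_
  have h1 := measurable_fderiv_apply_const ℝ F (e i)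
  have h2 : Continuous fun v : V => v i := by fun_prop
  exact h2.measurable.comp h1

theorem meas_hs (F : V → V) : Measurable (fun y => hs (fderiv ℝ F y)) := by
  unfold hs
  refine Finset.measurable_sum _ fun i _ => ?_
  exact (measurable_fderiv_apply_const ℝ F (e i)).norm.pow_const 2

end Pool.Agent.Lib.MP_e62723_gt.TD
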