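import Pool.Agent.Lib.MP_e62723_gt.TD.Defs

/-!
# JOB Det: a determinant

`s • id + G ⊗ u + L`, where `(G ⊗ u) v = ⟪u, v⟫ G`, `L` symmetric, `L u = 0`, `‖u‖ = 1`.
Proof. `M = s • id + L` is symmetric and `M u = s u`, so `s • (G ⊗ u + M) v = ⟪M u, v⟫ G + s M v
= ⟪u, M v⟫ G + s M v`, that is `s (G ⊗ u + M) = (G ⊗ u + s • id) ∘ M`. Taking determinants
(dimension 3): `s³ det(G ⊗ u + M) = det(s • id + G ⊗ u) det M`, `det(s • id + G ⊗ u) =
s² (s + ⟪G,u⟫)`, `det M = s³ + s² tr L + s e2 L + det L`, `det L = 0` (as `L u = 0`, `u ≠ 0`).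
In coordinates: `ContinuousLinearMap.det`, `LinearMap.det_toMatrix` (with the basis
`(EuclideanSpace.basisFun (Fin 3) ℝ).toBasis`), `Matrix.det_fin_three`; the entries are
`L (e j) i =: l i j`, symmetric, `∑_j l i j u j = 0`, `∑ u i ^ 2 = 1`; then the polynomial identity
follows by `linear_combination` (work with `s * (lhs - rhs) = 0` and the adjugate of `M`, or prove
the pieces separately as above).
-/

open MeasureTheory Set

namespace Pool.Agent.Lib.MP_e62723_gt.TD

private theorem Det_entry (A : V →L[ℝ] V) (i j : Fin 3) :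
    LinearMap.toMatrix (EuclideanSpace.basisFun (Fin 3) ℝ).toBasis
      (EuclideanSpace.basisFun (Fin 3) ℝ).toBasis (A : V →ₗ[ℝ] V) i j = (A (e j)) i := by
  rw [LinearMap.toMatrix_apply, OrthonormalBasis.coe_toBasis, EuclideanSpace.basisFun_apply,
    OrthonormalBasis.coe_toBasis_repr_apply]
  rfl

private theorem Det_det (A : V →L[ℝ] V) : A.det =
    (A (e 0)) 0 * (A (e 1)) 1 * (A (e 2)) 2 - (A (e 0)) 0 * (A (e 2)) 1 * (A (e 1)) 2 -
      (A (e 1)) 0 * (A (e 0)) 1 * (A (e 2)) 2 + (A (e 1)) 0 * (A (e 2)) 1 * (A (e 0)) 2 +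
      (A (e 2)) 0 * (A (e 0)) 1 * (A (e 1)) 2 - (A (e 2)) 0 * (A (e 1)) 1 * (A (e 0)) 2 := by
  rw [ContinuousLinearMap.det, ← LinearMap.det_toMatrix
    (EuclideanSpace.basisFun (Fin 3) ℝ).toBasis, Matrix.det_fin_three]
  simp only [Det_entry]

theorem det_formula {L : V →L[ℝ] V} {u G : V} {s : ℝ} (hs0 : s ≠ 0)
    (hsymm : ∀ v w : V, inner ℝ (L v) w = inner ℝ (L w) v) (hu : ‖u‖ = 1) (hL : L u = 0) :
    (s • ContinuousLinearMap.id ℝ V + (innerSL ℝ u).smulRight G + L).det =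
      (s + inner ℝ G u) * (s ^ 2 + s * tr L + e2 L) := by
  have hin : ∀ (v : V) (i : Fin 3), inner ℝ v (e i) = v i := by
    intro v i
    rw [e, EuclideanSpace.inner_single_right]
    simp
  have hsym : ∀ i j : Fin 3, (L (e j)) i = (L (e i)) j := by
    intro i j
    rw [← hin (L (e j)) i, ← hin (L (e i)) j]
    exact hsymm _ _
  have hue : u = u 0 • e 0 + u 1 • e 1 + u 2 • e 2 := by
    ext i
    fin_cases i <;> simp [e]
  have hLu : ∀ i : Fin 3, (L (e 0)) i * u 0 + (L (e 1)) i * u 1 + (L (e 2)) i * u 2 = 0 := by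
    intro i
    have h1 : (L u) i = 0 := by rw [hL]; rfl
    rw [hue, map_add, map_add, map_smul, map_smul, map_smul] at h1
    simp only [PiLp.add_apply, PiLp.smul_apply, smul_eq_mul] at h1
    linarith
  have hun : u 0 ^ 2 + u 1 ^ 2 + u 2 ^ 2 = 1 := by
    have h1 : ‖u‖ ^ 2 = 1 := by rw [hu]; norm_num
    rw [EuclideanSpace.norm_sq_eq, Fin.sum_univ_three] at h1
    simpa [Real.norm_eq_abs, sq_abs] using h1
  have hGu : inner ℝ G u = G 0 * u 0 + G 1 * u 1 + G 2 * u 2 := by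
    rw [PiLp.inner_apply, Fin.sum_univ_three]
    simp only [RCLike.inner_apply, conj_trivial]
    ring
  have hA : ∀ i j : Fin 3, ((s • ContinuousLinearMap.id ℝ V + (innerSL ℝ u).smulRight G + L) (e j)) i
      = s * (if i = j then 1 else 0) + u j * G i + (L (e j)) i := by
    intro i j
    have h1 : (e j : V) i = if i = j then 1 else 0 := by
      rw [e]
      simp
    simp only [add_apply, smul_apply,
      ContinuousLinearMap.id_apply, ContinuousLinearMap.smulRight_apply, innerSL_apply_apply,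
      PiLp.add_apply, PiLp.smul_apply, smul_eq_mul, hin, h1]
  have htr : tr L = (L (e 0)) 0 + (L (e 1)) 1 + (L (e 2)) 2 := by
    rw [tr, Fin.sum_univ_three]
  have hhs : hs L = ((L (e 0)) 0 ^ 2 + (L (e 0)) 1 ^ 2 + (L (e 0)) 2 ^ 2) +
      ((L (e 1)) 0 ^ 2 + (L (e 1)) 1 ^ 2 + (L (e 1)) 2 ^ 2) +
      ((L (e 2)) 0 ^ 2 + (L (e 2)) 1 ^ 2 + (L (e 2)) 2 ^ 2) := by
    rw [hs, Fin.sum_univ_three]
    simp only [EuclideanSpace.norm_sq_eq, Fin.sum_univ_three, Real.norm_eq_abs, sq_abs]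
  have h0 := hLu 0
  have h1 := hLu 1
  have h2 := hLu 2
  have d01 : ¬ ((0 : Fin 3) = 1) := by decide
  have d02 : ¬ ((0 : Fin 3) = 2) := by decide
  have d10 : ¬ ((1 : Fin 3) = 0) := by decide
  have d12 : ¬ ((1 : Fin 3) = 2) := by decide
  have d20 : ¬ ((2 : Fin 3) = 0) := by decide
  have d21 : ¬ ((2 : Fin 3) = 1) := by decide
  rw [Det_det]
  simp only [hA, d01, d02, d10, d12, d20, d21, if_true, if_false, mul_zero, mul_one, zero_add]
  rw [e2, hhs, htr, hGu]
  have s01 : (L (e 0)) 1 = (L (e 1)) 0 := hsym 1 0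
  have s02 : (L (e 0)) 2 = (L (e 2)) 0 := hsym 2 0
  have s12 : (L (e 1)) 2 = (L (e 2)) 1 := hsym 2 1
  rw [s01] at h1
  rw [s02, s12] at h2
  simp only [s01, s02, s12]
  generalize (L (e 0)) 0 = a at *
  generalize (L (e 1)) 0 = b at *
  generalize (L (e 2)) 0 = c at *
  generalize (L (e 1)) 1 = d at *
  generalize (L (e 2)) 1 = f at *
  generalize (L (e 2)) 2 = g at *
  generalize u 0 = x at *
  generalize u 1 = y at *
  generalize u 2 = z at *
  generalize G 0 = p at *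
  generalize G 1 = q at *
  generalize G 2 = r at *
  linear_combination (-(a * (d * g - f * f) - b * (b * g - c * f) + c * (b * f - c * d))) * hun +
    (x * (d * g - f ^ 2) + y * (c * f - b * g) + z * (b * f - c * d) + p * (a - (a + d + g)) +
      q * b + r * c - s * p) * h0 +
    (x * (c * f - b * g) + y * (a * g - c ^ 2) + z * (b * c - a * f) + p * b +
      q * (d - (a + d + g)) + r * f - s * q) * h1 +
    (x * (b * f - c * d) + y * (b * c - a * f) + z * (a * d - b ^ 2) + p * c + q * f +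
      r * (g - (a + d + g)) - s * r) * h2

end Pool.Agent.Lib.MP_e62723_gt.TD
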