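import Pool.Agent.Lib.MP_e62723_gt.TD.Defs

/-!
# JOB Eta: a radial cutoff

`eta : ℝ → ℝ` is a smooth bump function centred at `2`, equal to `1` on `[3/2, 5/2]` and supported
in `[1, 3]` (`ContDiffBump (2 : ℝ)` with `rIn = 1/2`, `rOut = 1`).
`eta_smooth`: `ContDiffBump.contDiff`. `eta_nonneg`: `ContDiffBump.nonneg`.
`eta_zero`: `ContDiffBump.zero_of_le_dist`.
`deriv_eta_zero`: for `r < 1` or `r > 3` eta vanishes near `r`; at `r = 1, 3` by continuity of the
derivative (or: eta has a minimum there, `IsLocalMin.deriv_eq_zero`, as `eta ≥ 0 = eta 1`: this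
covers all cases).
`int_pos0`, `int_pos2`: the integrand is nonnegative, integrable (continuous with compact support),
and `≥ 1` on `[3/2, 5/2]`, e.g. `setIntegral_pos_iff_support_of_nonneg_ae`, or
`∫_{Ioi 0} ≥ ∫_{[3/2,5/2]} 1 = 1`.
`int_deriv0`: integration by parts: the function `r ↦ eta r * r` has derivative
`deriv eta r * r + eta r`, is continuous, vanishes for `r ≤ 1` and `r ≥ 3`; so
`∫_{Ioi 0} (deriv eta r * r + eta r) = 0` (`integral_Ioi_of_hasDerivAt_of_tendsto` with limit `0`).
`int_deriv3`: same with `eta r * r ^ 3`.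
`hasFDerivAt_eta`: for `y ≠ 0`: chain rule, the derivative of `‖·‖` at `y ≠ 0` is
`‖y‖⁻¹ • innerSL ℝ y` (`HasFDerivAt.norm_sq`/`hasStrictFDerivAt_norm_sq`, `Real.hasDerivAt_sqrt`;
e.g. `(hasStrictFDerivAt_norm_sq y).hasFDerivAt.sqrt`). For `y = 0` the function is `0` near `0`
and `deriv eta 0 = 0`.
`lip_eta`: `eta` is Lipschitz (`ContDiff` with compact support:
`ContDiff.lipschitzWith_of_hasCompactSupport`) and `‖·‖` is 1-Lipschitz.
`cpt_eta`: the support is contained in the closed ball of radius `3`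
(`HasCompactSupport.intro (isCompact_closedBall 0 3)`).
-/

open MeasureTheory Set

namespace Pool.Agent.Lib.MP_e62723_gt.TD

/-- The bump function. -/
noncomputable def bump : ContDiffBump (2 : ℝ) := ⟨1 / 2, 1, by norm_num, by norm_num⟩

/-- The radial cutoff. -/
noncomputable def eta (r : ℝ) : ℝ := bump r

theorem eta_smooth : ContDiff ℝ 2 eta := by
  have h : ContDiff ℝ 2 (fun r => bump r) := bump.contDiff
  exact h

theorem eta_nonneg (r : ℝ) : 0 ≤ eta r := by
  exact bump.nonneg

theorem eta_zero {r : ℝ} (h : r ≤ 1 ∨ 3 ≤ r) : eta r = 0 := by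
  refine bump.zero_of_le_dist ?_
  show (1 : ℝ) ≤ dist r 2
  rw [Real.dist_eq]
  rcases h with h | h
  · rw [abs_of_nonpos (by linarith)]
    linarith
  · rw [abs_of_nonneg (by linarith)]
    linarith

theorem deriv_eta_zero {r : ℝ} (h : r ≤ 1 ∨ 3 ≤ r) : deriv eta r = 0 := by
  refine IsLocalMin.deriv_eq_zero (Filter.Eventually.of_forall fun s => ?_)
  show eta r ≤ eta s
  rw [eta_zero h]
  exact eta_nonneg s

private theorem eta_cont0 : Continuous eta := eta_smooth.continuous

private theorem eta_cpt0 : HasCompactSupport eta := by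
  refine HasCompactSupport.intro (isCompact_Icc (a := (1 : ℝ)) (b := 3)) fun r hr => ?_
  refine eta_zero ?_
  by_contra hc
  rw [not_or, not_le, not_le] at hc
  exact hr ⟨hc.1.le, hc.2.le⟩

private theorem eta_integrable {g : ℝ → ℝ} (hg : Continuous g) :
    Integrable (fun r => eta r * g r) :=
  (eta_cont0.mul hg).integrable_of_hasCompactSupport eta_cpt0.mul_right

private theorem eta_integrable' {g : ℝ → ℝ} (hg : Continuous g) :
    Integrable (fun r => deriv eta r * g r) :=
  ((eta_smooth.continuous_deriv (by norm_num)).mul hg).integrable_of_hasCompactSupport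
    eta_cpt0.deriv.mul_right

private theorem eta_int_pos {g : ℝ → ℝ} (hg : Continuous g) (hg0 : ∀ r, 0 ≤ g r) (hg2 : 0 < g 2) :
    0 < ∫ r in Ioi (0 : ℝ), eta r * g r := by
  rw [setIntegral_pos_iff_support_of_nonneg_ae
    (Filter.Eventually.of_forall fun r => mul_nonneg (eta_nonneg r) (hg0 r))
    (eta_integrable hg).integrableOn]
  refine IsOpen.measure_pos _ (((eta_cont0.mul hg).isOpen_support).inter isOpen_Ioi) ?_
  refine ⟨2, ?_, ?_⟩
  · rw [Function.mem_support]
    have h1 : eta 2 = 1 := by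
      refine bump.one_of_mem_closedBall ?_
      exact Metric.mem_closedBall_self (by show (0 : ℝ) ≤ 1 / 2; norm_num)
    rw [h1, one_mul]
    exact hg2.ne'
  · exact Set.mem_Ioi.2 two_pos

private theorem eta_int_parts {g g' : ℝ → ℝ} (hd : ∀ r, HasDerivAt g (g' r) r)
    (hg : Continuous g) (hg' : Continuous g') (h0 : g 0 = 0) :
    ∫ r in Ioi (0 : ℝ), deriv eta r * g r = -∫ r in Ioi (0 : ℝ), eta r * g' r := by
  have h1 : ∀ r ∈ Ioi (0 : ℝ), HasDerivAt (fun r => eta r * g r)
      (deriv eta r * g r + eta r * g' r) r := fun r _ =>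
    (((eta_smooth.differentiable (by norm_num)) r).hasDerivAt).mul (hd r)
  have h2 : Filter.Tendsto (fun r => eta r * g r) Filter.atTop (nhds 0) := by
    refine tendsto_const_nhds.congr' ?_
    filter_upwards [Filter.eventually_ge_atTop (3 : ℝ)] with r hr
    rw [eta_zero (Or.inr hr), zero_mul]
  have h3 := integral_Ioi_of_hasDerivAt_of_tendsto
    ((eta_cont0.mul hg).continuousAt.continuousWithinAt) h1
    (((eta_integrable' hg).add (eta_integrable hg')).integrableOn) h2
  rw [Pi.mul_apply, h0, mul_zero, sub_zero, integral_add (eta_integrable' hg).integrableOn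
    (eta_integrable hg').integrableOn] at h3
  exact eq_neg_of_add_eq_zero_left h3

theorem int_pos0 : 0 < ∫ r in Ioi (0 : ℝ), eta r := by
  have h := eta_int_pos (g := fun _ => (1 : ℝ)) continuous_const (fun _ => zero_le_one) one_pos
  simp only [mul_one] at h
  exact h

theorem int_pos2 : 0 < ∫ r in Ioi (0 : ℝ), eta r * r ^ 2 := by
  exact eta_int_pos (g := fun r : ℝ => r ^ 2) (by fun_prop) (fun r => sq_nonneg r) (by norm_num)

theorem int_deriv0 : ∫ r in Ioi (0 : ℝ), deriv eta r * r = -∫ r in Ioi (0 : ℝ), eta r := by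
  have h := eta_int_parts (g := fun r : ℝ => r) (g' := fun _ => (1 : ℝ)) (fun r => hasDerivAt_id r)
    continuous_id continuous_const rfl
  simp only [mul_one] at h
  exact h

theorem int_deriv3 :
    ∫ r in Ioi (0 : ℝ), deriv eta r * r ^ 3 = -(3 * ∫ r in Ioi (0 : ℝ), eta r * r ^ 2) := by
  have h := eta_int_parts (g := fun r : ℝ => r ^ 3) (g' := fun r : ℝ => 3 * r ^ 2)
    (fun r => by
      have h1 := hasDerivAt_pow 3 r
      norm_num at h1
      exact h1) (by fun_prop) (by fun_prop) (by norm_num)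
  rw [h, ← integral_const_mul]
  refine congrArg _ (integral_congr_ae (Filter.Eventually.of_forall fun r => ?_))
  show eta r * (3 * r ^ 2) = 3 * (eta r * r ^ 2)
  ring

theorem hasFDerivAt_eta (y : V) :
    HasFDerivAt (fun z : V => eta ‖z‖) ((deriv eta ‖y‖ / ‖y‖) • innerSL ℝ y) y := by
  by_cases hy : y = 0
  · rw [hy, norm_zero, div_zero, zero_smul]
    refine (hasFDerivAt_const (0 : ℝ) (0 : V)).congr_of_eventuallyEq ?_
    filter_upwards [Metric.ball_mem_nhds (0 : V) one_pos] with z hz
    rw [mem_ball_zero_iff] at hz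
    exact eta_zero (Or.inl hz.le)
  · have hy0 : ‖y‖ ≠ 0 := norm_ne_zero_iff.2 hy
    have h1 := (hasStrictFDerivAt_norm_sq y).hasFDerivAt.sqrt (pow_ne_zero 2 hy0)
    have e1 : (fun z : V => Real.sqrt (‖z‖ ^ 2)) = fun z => ‖z‖ :=
      funext fun z => Real.sqrt_sq (norm_nonneg z)
    rw [e1] at h1
    have h2 : HasDerivAt eta (deriv eta ‖y‖) ‖y‖ :=
      ((eta_smooth.differentiable (by norm_num)) ‖y‖).hasDerivAt
    have h3 := h2.comp_hasFDerivAt y h1
    refine h3.congr_fderiv ?_
    rw [Real.sqrt_sq (norm_nonneg y), ← Nat.cast_smul_eq_nsmul ℝ 2 (innerSL ℝ y), smul_smul,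
      smul_smul]
    refine congrArg (fun c : ℝ => c • innerSL ℝ y) ?_
    push_cast
    field_simp

theorem lip_eta : ∃ D : NNReal, LipschitzWith D (fun z : V => eta ‖z‖) := by
  obtain ⟨C, hC⟩ := ContDiff.lipschitzWith_of_hasCompactSupport eta_cpt0 eta_smooth (by norm_num)
  exact ⟨C * 1, hC.comp lipschitzWith_one_norm⟩

theorem cpt_eta : HasCompactSupport (fun z : V => eta ‖z‖) := by
  refine HasCompactSupport.intro (isCompact_closedBall (0 : V) 3) fun z hz => ?_
  rw [mem_closedBall_zero_iff, not_le] at hz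
  exact eta_zero (Or.inr hz.le)

end Pool.Agent.Lib.MP_e62723_gt.TD
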