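import Pool.Agent.Lib.MP_e62723_gt.TD.CruM

/-!
# JOB GapM: the spectral gap of order `m`

Copy of the proof of `Asy.gap` (`Asy/Gap.lean`), with `crudeM` in place of `crude` and the exponent
`m` in place of `2`: `q(r) = ∫ Φ T_r Φ`, `A = ∫ Φ²`; `T_double`: `q(r)² ≤ A q(r²)`; by induction
`(q(ρ)/A)^(2^k) ≤ q(ρ^(2^k))/A ≤ (M/A) (ρ^(2^k))^m = (M/A) (ρ^m)^(2^k)` for large `k`; if
`q(ρ) > A ρ^m` the ratio `B = q(ρ)/(A ρ^m) > 1` satisfies `B^(2^k) ≤ M/A` for all large `k`, a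
contradiction.
-/

open MeasureTheory ProbabilityTheory Filter

namespace Pool.Agent.Lib.MP_e62723_gt.TD

open Pool.Agent.Lib.MP_e62723_gt.Asy

variable {n : ℕ}

theorem gapM {m : ℕ} {ρ C : ℝ} (h0 : 0 < ρ) (h1 : ρ < 1) {Φ : E n → ℝ} (hΦ : Measurable Φ)
    (hC : ∀ x, |Φ x| ≤ C)
    (horth : ∀ s : ℝ, 0 < s → ∀ x : E n, ∀ j < m,
      ∫ z, Φ (s • z) * (inner ℝ x z) ^ j ∂(gam n) = 0) :
    ∫ x, Φ x * T n ρ Φ x ∂(gam n) ≤ ρ ^ m * ∫ x, Φ x ^ 2 ∂(gam n) := by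
  set A := ∫ x, Φ x ^ 2 ∂(gam n) with hA
  have hA0 : 0 ≤ A := integral_nonneg fun x => sq_nonneg _
  set q : ℝ → ℝ := fun r => ∫ x, Φ x * T n r Φ x ∂(gam n) with hq
  change q ρ ≤ ρ ^ m * A
  have hdouble : ∀ r : ℝ, r ^ 2 ≤ 1 → q r ^ 2 ≤ A * q (r ^ 2) := fun r hr => T_double hr hΦ hC
  have hnonneg : ∀ r : ℝ, 0 ≤ r → r ≤ 1 → 0 ≤ q r := by
    intro r hr0 hr1
    have h2 : (√r) ^ 2 = r := Real.sq_sqrt hr0
    have h3 := T_energy (n := n) (a := √r) (by rw [h2]; exact hr1) hΦ hC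
    rw [h2] at h3
    change q r = _ at h3
    rw [h3]
    exact integral_nonneg fun x => sq_nonneg _
  rcases hA0.eq_or_lt with hAz | hApos
  · have h2 := hdouble ρ (by nlinarith)
    rw [← hAz, zero_mul] at h2
    have h3 : q ρ = 0 := by
      have := le_antisymm h2 (sq_nonneg _)
      exact pow_eq_zero_iff (two_ne_zero) |>.1 this
    rw [h3, ← hAz, mul_zero]
  obtain ⟨r₀, M, hr₀, hM, hcr⟩ := crudeM hΦ hC horth
  have hind : ∀ k : ℕ, (q ρ / A) ^ (2 ^ k) ≤ q (ρ ^ (2 ^ k)) / A := by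
    intro k
    induction k with
    | zero => simp
    | succ k ih =>
      have hρk0 : 0 ≤ ρ ^ (2 ^ k) := by positivity
      have hρk1 : ρ ^ (2 ^ k) ≤ 1 := pow_le_one₀ h0.le h1.le
      have h2 : 0 ≤ (q ρ / A) ^ (2 ^ k) := by
        have := hnonneg ρ h0.le h1.le
        positivity
      have h3 := hdouble (ρ ^ (2 ^ k)) (pow_le_one₀ hρk0 hρk1)
      rw [← pow_mul, ← pow_succ] at h3
      calc (q ρ / A) ^ (2 ^ (k + 1)) = ((q ρ / A) ^ (2 ^ k)) ^ 2 := by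
            rw [← pow_mul, ← pow_succ]
        _ ≤ (q (ρ ^ (2 ^ k)) / A) ^ 2 := pow_le_pow_left₀ h2 ih 2
        _ = q (ρ ^ (2 ^ k)) ^ 2 / A ^ 2 := by rw [div_pow]
        _ ≤ (A * q (ρ ^ (2 ^ (k + 1)))) / A ^ 2 := by gcongr
        _ = q (ρ ^ (2 ^ (k + 1))) / A := by
            field_simp
  by_contra hcon
  push Not at hcon
  have hρ2 : 0 < ρ ^ m := by positivity
  set B := q ρ / A / ρ ^ m with hB
  have hB1 : 1 < B := by
    rw [hB, lt_div_iff₀ hρ2, one_mul, lt_div_iff₀ hApos]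
    exact hcon
  -- for large k
  have ht1 : Tendsto (fun k : ℕ => ρ ^ (2 ^ k)) atTop (nhds 0) := by
    have h2 : Tendsto (fun i : ℕ => ρ ^ i) atTop (nhds 0) :=
      tendsto_pow_atTop_nhds_zero_of_lt_one h0.le h1
    exact h2.comp (tendsto_pow_atTop_atTop_of_one_lt (one_lt_two : (1 : ℕ) < 2))
  have ht2 : Tendsto (fun k : ℕ => B ^ (2 ^ k)) atTop atTop := by
    have h2 : Tendsto (fun i : ℕ => B ^ i) atTop atTop := tendsto_pow_atTop_atTop_of_one_lt hB1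
    exact h2.comp (tendsto_pow_atTop_atTop_of_one_lt (one_lt_two : (1 : ℕ) < 2))
  obtain ⟨k, hk1, hk2⟩ := ((ht1.eventually (gt_mem_nhds hr₀)).and
    (ht2.eventually (eventually_gt_atTop (M / A)))).exists
  have h2 := hcr (ρ ^ (2 ^ k)) (by positivity) hk1
  change |q (ρ ^ (2 ^ k))| ≤ _ at h2
  have h3 := (le_abs_self _).trans h2
  have h4 : (q ρ / A) ^ (2 ^ k) ≤ M / A * (ρ ^ m) ^ (2 ^ k) := by
    refine (hind k).trans ?_
    calc q (ρ ^ (2 ^ k)) / A ≤ (M * (ρ ^ (2 ^ k)) ^ m) / A := by gcongr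
      _ = M / A * (ρ ^ m) ^ (2 ^ k) := by
          rw [← pow_mul, ← pow_mul, mul_comm m]
          ring
  have h5 : B ^ (2 ^ k) ≤ M / A := by
    rw [hB, div_pow, div_le_iff₀ (by positivity)]
    exact h4
  linarith

end Pool.Agent.Lib.MP_e62723_gt.TD
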