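import Pool.Agent.Lib.MP_e62723_gt.TD.Orth

/-!
# JOB Grad: the gradient of `phi p f`

`G y = (2p ‖y‖^(2p-2) f y) • y + ‖y‖^(2p) • F y`, `p ≥ 1` (write `p = q + 1`, so `2p - 2 = 2q`).
`grad_hasFDerivAt`: for `y ≠ 0`: product rule, `‖y‖^(2p) = (‖y‖²)^p`, the derivative of `‖·‖²` is
`2 • innerSL ℝ y` (`hasStrictFDerivAt_norm_sq`), `Reg.grad`. For `y = 0`: `|phi p f y| ≤ B ‖y‖^(2p+1)`
(`Reg.abs_le`), `2p + 1 ≥ 3`, so the derivative at `0` is `0` (`hasFDerivAt_iff_isLittleO`, or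
`HasFDerivAt.of_isLittleO`), and `G 0 = 0` (`p ≥ 1`: `‖0‖^(2p) = 0`).
`grad_cont`: continuous at `y ≠ 0` (`Reg.contF`, `Reg.cont`); at `0`:
`‖G y‖ ≤ (2p + 1) B ‖y‖^(2p)`.
`grad_growth`: `‖G y‖ ≤ (2p+1) B ‖y‖^(2p) ≤ (2p+1) B (1 + ‖y‖)^(2p)`.
`grad_sq`: `‖G y‖² = ‖y‖^(4p) ((4p² + 4p) (f y/‖y‖)² + ‖F y‖²)`: for `y ≠ 0` expand
(`norm_add_sq_real`), `⟪y, F y⟫ = f y` (`Reg.euler`); for `y = 0` both sides are `0`.
-/

open MeasureTheory ProbabilityTheory Set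

namespace Pool.Agent.Lib.MP_e62723_gt.TD

variable {C : ℝ} {f : V → ℝ} {F : V → V}

/-- The gradient of `phi (q+1) f`. -/
noncomputable def grd (q : ℕ) (f : V → ℝ) (F : V → V) (y : V) : V :=
  ((2 * (q + 1) : ℝ) * ‖y‖ ^ (2 * q) * f y) • y + ‖y‖ ^ (2 * (q + 1)) • F y

private theorem Grad_zero (q : ℕ) (f : V → ℝ) (F : V → V) : grd q f F 0 = 0 := by
  unfold grd
  rw [smul_zero, zero_add, norm_zero, zero_pow (by omega), zero_smul]

private theorem Grad_bd (h : Reg C f F) {B : ℝ} (hB : ∀ y, ‖F y‖ ≤ B) (q : ℕ) (y : V) :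
    ‖grd q f F y‖ ≤ (2 * (q + 1) + 1) * B * ‖y‖ ^ (2 * (q + 1)) := by
  unfold grd
  have h1 : ‖((2 * (q + 1) : ℝ) * ‖y‖ ^ (2 * q) * f y) • y‖ ≤
      2 * (q + 1) * B * ‖y‖ ^ (2 * (q + 1)) := by
    rw [norm_smul, Real.norm_eq_abs, abs_mul, abs_mul, abs_of_nonneg (by positivity),
      abs_of_nonneg (by positivity)]
    have h2 := h.abs_le hB y
    calc (2 * (q + 1) : ℝ) * ‖y‖ ^ (2 * q) * |f y| * ‖y‖
        ≤ (2 * (q + 1) : ℝ) * ‖y‖ ^ (2 * q) * (B * ‖y‖) * ‖y‖ := by gcongr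
      _ = 2 * (q + 1) * B * ‖y‖ ^ (2 * (q + 1)) := by ring
  have h3 : ‖‖y‖ ^ (2 * (q + 1)) • F y‖ ≤ ‖y‖ ^ (2 * (q + 1)) * B := by
    rw [norm_smul, Real.norm_eq_abs, abs_of_nonneg (by positivity)]
    gcongr
    exact hB y
  calc ‖((2 * (q + 1) : ℝ) * ‖y‖ ^ (2 * q) * f y) • y + ‖y‖ ^ (2 * (q + 1)) • F y‖
      ≤ 2 * (q + 1) * B * ‖y‖ ^ (2 * (q + 1)) + ‖y‖ ^ (2 * (q + 1)) * B :=
        (norm_add_le _ _).trans (add_le_add h1 h3)
    _ = (2 * (q + 1) + 1) * B * ‖y‖ ^ (2 * (q + 1)) := by ring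

theorem Reg.grad_hasFDerivAt (h : Reg C f F) (q : ℕ) (y : V) :
    HasFDerivAt (phi (q + 1) f) (innerSL ℝ (grd q f F y)) y := by
  by_cases hy : y = 0
  · subst hy
    rw [Grad_zero, map_zero]
    obtain ⟨B, hB0, hB⟩ := h.bound
    refine Asymptotics.IsBigO.hasFDerivAt (n := 2 * (q + 1) + 1) ?_ (by omega)
    refine Asymptotics.IsBigO.of_bound B (Filter.Eventually.of_forall fun z => ?_)
    rw [sub_zero, Real.norm_eq_abs, Real.norm_eq_abs]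
    unfold phi
    rw [abs_mul, abs_of_nonneg (by positivity : 0 ≤ ‖z‖ ^ (2 * (q + 1))),
      abs_of_nonneg (by positivity : 0 ≤ ‖z‖ ^ (2 * (q + 1) + 1))]
    calc ‖z‖ ^ (2 * (q + 1)) * |f z| ≤ ‖z‖ ^ (2 * (q + 1)) * (B * ‖z‖) := by
          gcongr
          exact h.abs_le hB z
      _ = B * ‖z‖ ^ (2 * (q + 1) + 1) := by ring
  · have h1 : HasFDerivAt (fun x : V => ‖x‖ ^ 2) (2 • (innerSL ℝ y)) y :=
      (hasStrictFDerivAt_norm_sq y).hasFDerivAt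
    have h2 := (h1.pow (q + 1)).mul (h.grad y hy)
    have h3 : phi (q + 1) f = (fun x : V => ‖x‖ ^ 2) ^ (q + 1) * f := by
      funext x
      simp only [phi, Pi.mul_apply, Pi.pow_apply]
      rw [pow_mul]
    rw [h3]
    refine h2.congr_fderiv ?_
    ext v
    simp only [grd, map_add, map_smul, add_apply, smul_apply, smul_eq_mul, nsmul_eq_mul,
      innerSL_apply_apply, Nat.add_sub_cancel]
    push_cast
    ring

theorem Reg.grad_cont (h : Reg C f F) (q : ℕ) : Continuous (grd q f F) := by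
  rw [continuous_iff_continuousAt]
  intro y
  by_cases hy : y = 0
  · subst hy
    obtain ⟨B, hB0, hB⟩ := h.bound
    unfold ContinuousAt
    rw [Grad_zero]
    refine squeeze_zero_norm (a := fun z : V => (2 * (q + 1) + 1) * B * ‖z‖ ^ (2 * (q + 1)))
      (fun z => Grad_bd h hB q z) ?_
    have h1 : Continuous fun z : V => (2 * (q + 1) + 1) * B * ‖z‖ ^ (2 * (q + 1)) := by fun_prop
    have h2 := h1.tendsto 0
    rw [norm_zero, zero_pow (by omega), mul_zero] at h2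
    exact h2
  · have hF := h.contF hy
    have hf := h.cont.continuousAt (x := y)
    have hn : ContinuousAt (fun z : V => ‖z‖) y := continuous_norm.continuousAt
    have h1 : ContinuousAt (fun z : V => ((2 * (q + 1) : ℝ) * ‖z‖ ^ (2 * q) * f z) • z) y := by
      fun_prop
    have h2 : ContinuousAt (fun z : V => ‖z‖ ^ (2 * (q + 1)) • F z) y := by
      fun_prop
    exact h1.add h2

theorem Reg.grad_growth (h : Reg C f F) (q : ℕ) :
    ∃ D : ℝ, ∀ y, ‖grd q f F y‖ ≤ D * (1 + ‖y‖) ^ (2 * (q + 1)) := by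
  obtain ⟨B, hB0, hB⟩ := h.bound
  refine ⟨(2 * (q + 1) + 1) * B, fun y => (Grad_bd h hB q y).trans ?_⟩
  gcongr
  linarith

theorem Reg.grad_sq (h : Reg C f F) (q : ℕ) (y : V) :
    ‖grd q f F y‖ ^ 2 = ((4 * (q + 1) ^ 2 + 4 * (q + 1) : ℝ) * (f y / ‖y‖) ^ 2 + ‖F y‖ ^ 2) *
      ‖y‖ ^ (4 * (q + 1)) := by
  by_cases hy : y = 0
  · subst hy
    rw [Grad_zero, norm_zero, zero_pow (by omega), zero_pow (by omega), mul_zero]
  · have hn : ‖y‖ ≠ 0 := norm_ne_zero_iff.2 hy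
    have he : inner ℝ y (F y) = f y := by
      rw [real_inner_comm, h.euler]
    unfold grd
    rw [norm_add_sq_real, norm_smul, norm_smul, real_inner_smul_left, real_inner_smul_right, he,
      mul_pow, mul_pow, Real.norm_eq_abs, Real.norm_eq_abs, sq_abs, sq_abs]
    field_simp
    ring

end Pool.Agent.Lib.MP_e62723_gt.TD
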