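import Pool.Agent.Lib.MP_e62723_gt.TD.Pol

/-!
# JOB Hom: the functions of degree zero attached to `(f, F)`

`hom0_f`: `f (t • y) / ‖t • y‖ = f y / ‖y‖` for `t > 0`; bounded by `B` (`Reg.bound`,
`Reg.abs_le`; at `y = 0` the value is `0/0 = 0`).
`hom0_F`, `hom0_fi`: `homF`, `bound`, `measF`.
`hom0_tr`: `A_smul`: `‖t • y‖ * tr (t⁻¹ • A) = ‖y‖ tr A`; bounded by `3 C` (`tr_le`; at `y = 0` it is
`0`); measurable: `meas_tr`.
`hom0_hs`: same with `hs_le`, `hs (t⁻¹ • A) = t⁻² hs A`, `0 ≤ hs`.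
`hom0_e2`: `‖y‖² e2 A = ((‖y‖ tr A)² - ‖y‖² hs A)/2`.
`hom0_ftr`: `f y * tr A = (f y/‖y‖) * (‖y‖ tr A)` for `y ≠ 0`, and for `y = 0` both are `0`
(`f 0 = 0`).
`hom0_inner`: `y ↦ ⟪x, y⟫/‖y‖`.
-/

open MeasureTheory Set

namespace Pool.Agent.Lib.MP_e62723_gt.TD

variable {C : ℝ} {f : V → ℝ} {F : V → V}

private theorem hom_norm_smul {t : ℝ} (ht : 0 < t) (y : V) : ‖t • y‖ = t * ‖y‖ := by
  rw [norm_smul, Real.norm_eq_abs, abs_of_pos ht]

private theorem hom_tr_smul (c : ℝ) (L : V →L[ℝ] V) : tr (c • L) = c * tr L := by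
  unfold tr
  rw [Finset.mul_sum]
  refine Finset.sum_congr rfl fun i _ => ?_
  simp

private theorem hom_hs_smul (c : ℝ) (L : V →L[ℝ] V) : hs (c • L) = c ^ 2 * hs L := by
  unfold hs
  rw [Finset.mul_sum]
  refine Finset.sum_congr rfl fun i _ => ?_
  rw [ContinuousLinearMap.smul_apply, norm_smul, mul_pow, Real.norm_eq_abs, sq_abs]

private theorem hom_hs_nonneg (L : V →L[ℝ] V) : 0 ≤ hs L :=
  Finset.sum_nonneg fun _ _ => by positivity

theorem Reg.hom0_f (h : Reg C f F) : Hom0 (fun y => f y / ‖y‖) := by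
  obtain ⟨B, hB0, hB⟩ := h.bound
  refine ⟨h.cont.measurable.div measurable_norm, fun t y ht => ?_, B, fun y => ?_⟩
  · show f (t • y) / ‖t • y‖ = f y / ‖y‖
    rw [h.hom t y ht, hom_norm_smul ht]
    exact mul_div_mul_left _ _ ht.ne'
  · rw [abs_div, abs_norm]
    rcases eq_or_ne y 0 with rfl | hy
    · rw [norm_zero, div_zero]
      exact hB0
    · rw [div_le_iff₀ (norm_pos_iff.2 hy)]
      exact h.abs_le hB y

theorem Reg.hom0_F (h : Reg C f F) : Hom0 (fun y => ‖F y‖ ^ 2) := by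
  obtain ⟨B, hB0, hB⟩ := h.bound
  refine ⟨h.measF.norm.pow_const 2, fun t y ht => ?_, B ^ 2, fun y => ?_⟩
  · show ‖F (t • y)‖ ^ 2 = ‖F y‖ ^ 2
    rw [h.homF t y ht]
  · rw [abs_of_nonneg (by positivity)]
    exact pow_le_pow_left₀ (norm_nonneg _) (hB y) 2

theorem Reg.hom0_tr (h : Reg C f F) : Hom0 (fun y => ‖y‖ * tr (fderiv ℝ F y)) := by
  refine ⟨measurable_norm.mul (meas_tr F), fun t y ht => ?_, 3 * C, fun y => ?_⟩
  · show ‖t • y‖ * tr (fderiv ℝ F (t • y)) = ‖y‖ * tr (fderiv ℝ F y)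
    rw [h.A_smul ht, hom_tr_smul, hom_norm_smul ht]
    have ht' := ht.ne'
    field_simp
  · rw [abs_mul, abs_norm]
    rcases eq_or_ne y 0 with rfl | hy
    · rw [norm_zero, zero_mul]
      have := h.nonneg
      positivity
    · exact h.tr_le hy

theorem Reg.hom0_hs (h : Reg C f F) : Hom0 (fun y => ‖y‖ ^ 2 * hs (fderiv ℝ F y)) := by
  refine ⟨(measurable_norm.pow_const 2).mul (meas_hs F), fun t y ht => ?_, 2 * C ^ 2,
    fun y => ?_⟩
  · show ‖t • y‖ ^ 2 * hs (fderiv ℝ F (t • y)) = ‖y‖ ^ 2 * hs (fderiv ℝ F y)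
    rw [h.A_smul ht, hom_hs_smul, hom_norm_smul ht]
    have ht' := ht.ne'
    field_simp
  · rw [abs_of_nonneg (mul_nonneg (by positivity) (hom_hs_nonneg _))]
    rcases eq_or_ne y 0 with rfl | hy
    · rw [norm_zero]
      have := h.nonneg
      have h2 : (0 : ℝ) ^ 2 * hs (fderiv ℝ F 0) = 0 := by ring
      rw [h2]
      positivity
    · exact h.hs_le hy

theorem Reg.hom0_e2 (h : Reg C f F) : Hom0 (fun y => ‖y‖ ^ 2 * e2 (fderiv ℝ F y)) := by
  have h1 := ((h.hom0_tr.pow 2).sub h.hom0_hs).smul (1 / 2)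
  have h2 : (fun y => ‖y‖ ^ 2 * e2 (fderiv ℝ F y)) =
      fun y => 1 / 2 * ((‖y‖ * tr (fderiv ℝ F y)) ^ 2 - ‖y‖ ^ 2 * hs (fderiv ℝ F y)) := by
    funext y
    unfold e2
    ring
  rw [h2]
  exact h1

theorem Reg.hom0_ftr (h : Reg C f F) : Hom0 (fun y => f y * tr (fderiv ℝ F y)) := by
  have h1 := h.hom0_f.mul h.hom0_tr
  have h2 : (fun y => f y * tr (fderiv ℝ F y)) =
      fun y => f y / ‖y‖ * (‖y‖ * tr (fderiv ℝ F y)) := by
    funext y
    rcases eq_or_ne y 0 with rfl | hy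
    · rw [h.f_zero]
      ring
    · have hy' : ‖y‖ ≠ 0 := norm_ne_zero_iff.2 hy
      field_simp
  rw [h2]
  exact h1

theorem hom0_inner (x : V) : Hom0 (fun y : V => inner ℝ x y / ‖y‖) := by
  refine ⟨(measurable_const.inner measurable_id).div measurable_norm, fun t y ht => ?_, ‖x‖,
    fun y => ?_⟩
  · show inner ℝ x (t • y) / ‖t • y‖ = inner ℝ x y / ‖y‖
    rw [inner_smul_right, hom_norm_smul ht]
    exact mul_div_mul_left _ _ ht.ne'
  · rw [abs_div, abs_norm]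
    rcases eq_or_ne y 0 with rfl | hy
    · rw [norm_zero, div_zero]
      exact norm_nonneg x
    · rw [div_le_iff₀ (norm_pos_iff.2 hy)]
      exact abs_real_inner_le_norm x y

end Pool.Agent.Lib.MP_e62723_gt.TD
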