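import Pool.Agent.Lib.MP_e62723_gt.TD.Hom
import Pool.Agent.Lib.MP_e62723_gt.TD.Eta

/-!
# JOB IbpA: first integration by parts, `⟨f tr A⟩ = 3 ⟨(f/‖y‖)²⟩ - ⟨‖F‖²⟩`

Notation `A(y) = fderiv ℝ F y`, `η(y) = eta ‖y‖` (support in `1 ≤ ‖y‖ ≤ 3`),
`F̃(y) = (min ‖y‖ 1) • F y` (Lipschitz, `Reg.lipT`; `F̃ = F` for `‖y‖ ≥ 1`).
(1) `g(y) = η(y) f(y)` is Lipschitz with compact support: `η` is `C¹` with compact support;
`f` is differentiable outside `0` with gradient `F` bounded by `B`. E.g. `g` is differentiable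
everywhere (near `0` it vanishes) with derivative
`g'(y) = (deriv eta ‖y‖ / ‖y‖ * f y) • innerSL ℝ y + η(y) • innerSL ℝ (F y)`, bounded, so
`lipschitzWith_of_nnnorm_fderiv_le` applies.
(2) For each `i` apply `LipschitzWith.integral_lineDeriv_mul_eq` to `F̃_i(y) = (F̃ y) i`
(Lipschitz), `g`, direction `e i`:
`∫ lineDeriv ℝ F̃_i y (e i) * g y = ∫ lineDeriv ℝ g y (-(e i)) * F̃_i y`.
For almost every `y`: either `g y = 0` (if `‖y‖ ≤ 1`), or `‖y‖ > 1` and `F̃ = F` near `y`, `F`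
differentiable at `y` (`Reg.ae_diff`) and `lineDeriv ℝ F̃_i y (e i) = (A(y) (e i)) i`
(`DifferentiableAt.lineDeriv_eq_fderiv`). On the right, `lineDeriv ℝ g y (-(e i)) =
-(g'(y) (e i)) = -(deriv eta ‖y‖ / ‖y‖ * f y * y i + η(y) * (F y) i)`, and `F̃_i = F_i` where this
is nonzero (there `‖y‖ ≥ 1`).
(3) Sum over `i` (`integral_finsetSum`, all terms integrable: bounded, measurable, compact
support), with `∑ y_i F_i = ⟪F y, y⟫ = f y` (`Reg.euler`) and `∑ F_i² = ‖F y‖²`
(`EuclideanSpace.norm_sq_eq`, `EuclideanSpace.inner_eq_star_dotProduct` / `PiLp.inner_apply`):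
`∫ η f tr A = -∫ (deriv eta ‖y‖ / ‖y‖) f² - ∫ η ‖F‖²`.
(4) Polar coordinates (`Hom0.polar`), three times:
`Ψ = f tr A` (`hom0_ftr`), `w = eta`: `∫ η f tr A = 3 I₂ ⟨f tr A⟩`, `I₂ = ∫_{Ioi 0} eta r * r ^ 2`;
`Ψ = ‖F‖²`, `w = eta`: `∫ η ‖F‖² = 3 I₂ ⟨‖F‖²⟩`;
`Ψ = (f/‖y‖)²` (`(hom0_f).pow 2`), `w = deriv eta r * r`:
`∫ (deriv eta ‖y‖/‖y‖) f² = ∫ Ψ w(‖y‖) = 3 (∫ deriv eta r * r ^ 3) ⟨Ψ⟩ = -9 I₂ ⟨Ψ⟩`
(`int_deriv3`). Divide by `3 I₂ > 0` (`int_pos2`).
-/

open MeasureTheory Set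

namespace Pool.Agent.Lib.MP_e62723_gt.TD

variable {C : ℝ} {f : V → ℝ} {F : V → V}

private theorem ibpA_int {Φ : V → ℝ} (hm : Measurable Φ) (M : ℝ)
    (hM : ∀ y, ‖y‖ ≤ 3 → |Φ y| ≤ M) (h0 : ∀ y, 3 ≤ ‖y‖ → Φ y = 0) : Integrable Φ := by
  have hs : Function.support Φ ⊆ Metric.closedBall (0 : V) 3 := by
    intro y hy
    rw [Metric.mem_closedBall, dist_zero_right]
    by_contra h
    exact hy (h0 y (not_le.1 h).le)
  rw [← integrableOn_iff_integrable_of_support_subset hs]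
  refine Measure.integrableOn_of_bounded (M := M)
    (isCompact_closedBall (0 : V) 3).measure_lt_top.ne hm.aestronglyMeasurable ?_
  refine (ae_restrict_iff' measurableSet_closedBall).2 (Filter.Eventually.of_forall ?_)
  intro y hy
  rw [Metric.mem_closedBall, dist_zero_right] at hy
  rw [Real.norm_eq_abs]
  exact hM y hy

private theorem ibpA_le_one (r : ℝ) : |eta r| ≤ 1 := by
  rw [abs_of_nonneg (eta_nonneg r)]
  exact bump.le_one

private theorem ibpA_dbound : ∃ D : ℝ, 0 ≤ D ∧ ∀ r, |deriv eta r| ≤ D := by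
  have hc : Continuous (deriv eta) := eta_smooth.continuous_deriv (by norm_num)
  have hs : HasCompactSupport (deriv eta) := by
    refine HasCompactSupport.intro (isCompact_Icc : IsCompact (Icc (1 : ℝ) 3)) fun r hr => ?_
    apply deriv_eta_zero
    by_contra h
    rw [not_or, not_le, not_le] at h
    exact hr ⟨h.1.le, h.2.le⟩
  obtain ⟨D, hD⟩ := hc.bounded_above_of_compact_support hs
  exact ⟨D, (norm_nonneg _).trans (hD 0), hD⟩

private theorem ibpA_inner (x : V) (i : Fin 3) : inner ℝ x (e i) = x i := by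
  rw [e, EuclideanSpace.inner_single_right]
  simp

private theorem ibpA_coord (x : V) (i : Fin 3) : |x i| ≤ ‖x‖ := by
  have := PiLp.norm_apply_le x i
  rwa [Real.norm_eq_abs] at this

private theorem ibpA_meas {G : V → V} (hG : Measurable G) (i : Fin 3) :
    Measurable (fun y => G y i) :=
  (EuclideanSpace.proj i : V →L[ℝ] ℝ).continuous.measurable.comp hG

/-- The derivative of `eta ‖y‖ * f y`. -/
private theorem ibpA_grad (h : Reg C f F) (y : V) : HasFDerivAt (fun z : V => eta ‖z‖ * f z)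
    (eta ‖y‖ • innerSL ℝ (F y) + f y • ((deriv eta ‖y‖ / ‖y‖) • innerSL ℝ y)) y := by
  by_cases hy : y = 0
  · subst hy
    have h1 : (fun z : V => eta ‖z‖ * f z) =ᶠ[nhds (0 : V)] fun _ => (0 : ℝ) := by
      filter_upwards [Metric.ball_mem_nhds (0 : V) one_pos] with z hz
      rw [Metric.mem_ball, dist_zero_right] at hz
      rw [eta_zero (Or.inl hz.le), zero_mul]
    have h2 : eta ‖(0 : V)‖ • innerSL ℝ (F 0) +
        f 0 • ((deriv eta ‖(0 : V)‖ / ‖(0 : V)‖) • innerSL ℝ (0 : V)) = 0 := by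
      rw [norm_zero, eta_zero (Or.inl zero_le_one), div_zero, zero_smul, zero_smul, smul_zero,
        add_zero]
    rw [h2]
    exact (hasFDerivAt_const (0 : ℝ) (0 : V)).congr_of_eventuallyEq h1
  · exact (hasFDerivAt_eta y).mul (h.grad y hy)

private theorem ibpA_gle (h : Reg C f F) {B D : ℝ} (hB : ∀ y, ‖F y‖ ≤ B)
    (hD : ∀ r, |deriv eta r| ≤ D) (y : V) :
    ‖eta ‖y‖ • innerSL ℝ (F y) + f y • ((deriv eta ‖y‖ / ‖y‖) • innerSL ℝ y)‖ ≤
      B + B * 3 * D := by
  have hB0 : 0 ≤ B := (norm_nonneg _).trans (hB 0)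
  have hD0 : 0 ≤ D := (abs_nonneg _).trans (hD 0)
  refine (norm_add_le _ _).trans (add_le_add ?_ ?_)
  · rw [norm_smul, innerSL_apply_norm, Real.norm_eq_abs]
    calc |eta ‖y‖| * ‖F y‖ ≤ 1 * B :=
          mul_le_mul (ibpA_le_one _) (hB y) (norm_nonneg _) zero_le_one
      _ = B := one_mul B
  · rw [norm_smul, norm_smul, innerSL_apply_norm, Real.norm_eq_abs, Real.norm_eq_abs, abs_div,
      abs_norm]
    by_cases h3 : 3 ≤ ‖y‖
    · rw [deriv_eta_zero (Or.inr h3), abs_zero, zero_div, zero_mul, mul_zero]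
      positivity
    · have h4 : |deriv eta ‖y‖| / ‖y‖ * ‖y‖ ≤ D := by
        by_cases h0 : ‖y‖ = 0
        · rw [h0, mul_zero]
          exact hD0
        · rw [div_mul_cancel₀ _ h0]
          exact hD _
      have h5 : |f y| ≤ B * 3 :=
        (h.abs_le hB y).trans (mul_le_mul_of_nonneg_left (not_le.1 h3).le hB0)
      exact mul_le_mul h5 h4 (by positivity) (by positivity)

private theorem ibpA_lip (h : Reg C f F) :
    ∃ D : NNReal, LipschitzWith D (fun z : V => eta ‖z‖ * f z) := by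
  obtain ⟨B, -, hB⟩ := h.bound
  obtain ⟨D, -, hD⟩ := ibpA_dbound
  have hB0 : 0 ≤ B := (norm_nonneg _).trans (hB 0)
  have hD0 : 0 ≤ D := (abs_nonneg _).trans (hD 0)
  have hM : 0 ≤ B + B * 3 * D := by positivity
  refine ⟨⟨B + B * 3 * D, hM⟩, lipschitzWith_of_nnnorm_fderiv_le (𝕜 := ℝ)
    (fun y => (ibpA_grad h y).differentiableAt) fun y => ?_⟩
  rw [(ibpA_grad h y).fderiv]
  exact ibpA_gle h hB hD y

private theorem ibpA_cpt (f : V → ℝ) : HasCompactSupport (fun z : V => eta ‖z‖ * f z) :=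
  cpt_eta.mul_right

/-- One coordinate of the integration by parts. -/
private theorem ibpA_one (h : Reg C f F) (i : Fin 3) :
    ∫ y : V, (fderiv ℝ F y (e i)) i * (eta ‖y‖ * f y) =
      ∫ y : V, -(eta ‖y‖ * (F y i) ^ 2 + f y * (deriv eta ‖y‖ / ‖y‖ * y i) * F y i) := by
  obtain ⟨D, hD⟩ := h.lipT
  obtain ⟨D', hD'⟩ := ibpA_lip h
  have hFi : LipschitzWith D (fun y : V => ((min ‖y‖ 1) • F y) i) := by
    refine LipschitzWith.of_dist_le_mul fun y z => ?_
    refine le_trans ?_ (hD.dist_le_mul y z)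
    rw [dist_eq_norm, dist_eq_norm, Real.norm_eq_abs]
    exact ibpA_coord ((min ‖y‖ 1) • F y - (min ‖z‖ 1) • F z) i
  have key := hFi.integral_lineDeriv_mul_eq (μ := volume) hD' (ibpA_cpt f) (e i)
  have h1 : (fun y : V => lineDeriv ℝ (fun y : V => ((min ‖y‖ 1) • F y) i) y (e i) *
      (eta ‖y‖ * f y)) =ᵐ[volume] fun y => (fderiv ℝ F y (e i)) i * (eta ‖y‖ * f y) := by
    filter_upwards [h.ae_diff] with y hy
    by_cases hy1 : ‖y‖ ≤ 1
    · rw [eta_zero (Or.inl hy1), zero_mul, mul_zero, mul_zero]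
    · have h2 : (fun y : V => ((min ‖y‖ 1) • F y) i) =ᶠ[nhds y] fun z => F z i := by
        have h3 : ∀ᶠ z in nhds y, 1 < ‖z‖ :=
          continuous_norm.continuousAt.eventually (lt_mem_nhds (not_le.1 hy1))
        filter_upwards [h3] with z hz
        rw [min_eq_right hz.le, one_smul]
      rw [h2.lineDeriv_eq]
      have h4 : HasFDerivAt (fun z => F z i)
          ((EuclideanSpace.proj i : V →L[ℝ] ℝ).comp (fderiv ℝ F y)) y :=
        (EuclideanSpace.proj i : V →L[ℝ] ℝ).hasFDerivAt.comp y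
          hy.2.hasFDerivAt
      rw [(h4.hasLineDerivAt (e i)).lineDeriv]
      rfl
  have h5 : (fun y : V => lineDeriv ℝ (fun z : V => eta ‖z‖ * f z) y (-(e i)) *
      ((min ‖y‖ 1) • F y) i) = fun y =>
        -(eta ‖y‖ * (F y i) ^ 2 + f y * (deriv eta ‖y‖ / ‖y‖ * y i) * F y i) := by
    funext y
    rw [((ibpA_grad h y).hasLineDerivAt (-(e i))).lineDeriv, map_neg]
    have h6 : (eta ‖y‖ • innerSL ℝ (F y) + f y • ((deriv eta ‖y‖ / ‖y‖) • innerSL ℝ y)) (e i) =
        eta ‖y‖ * F y i + f y * (deriv eta ‖y‖ / ‖y‖ * y i) := by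
      rw [_root_.add_apply, _root_.smul_apply,
        _root_.smul_apply, _root_.smul_apply, innerSL_apply_apply,
        innerSL_apply_apply, ibpA_inner, ibpA_inner]
      simp only [smul_eq_mul]
    have h7 : ((min ‖y‖ 1) • F y) i = min ‖y‖ 1 * F y i := rfl
    rw [h6, h7]
    by_cases hy1 : ‖y‖ ≤ 1
    · rw [eta_zero (Or.inl hy1), deriv_eta_zero (Or.inl hy1)]
      ring
    · rw [min_eq_right (not_le.1 hy1).le]
      ring
  rw [integral_congr_ae h1, h5] at key
  exact key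

private theorem ibpA_intA (h : Reg C f F) (i : Fin 3) :
    Integrable (fun y : V => (fderiv ℝ F y (e i)) i * (eta ‖y‖ * f y)) := by
  obtain ⟨B, hB0, hB⟩ := h.bound
  have hm : Measurable (fun y : V => (fderiv ℝ F y (e i)) i * (eta ‖y‖ * f y)) :=
    (ibpA_meas (measurable_fderiv_apply_const ℝ F (e i)) i).mul
      ((eta_smooth.continuous.comp continuous_norm).measurable.mul h.cont.measurable)
  refine ibpA_int hm (C * (1 * (B * 3))) ?_ ?_
  · intro y hy
    by_cases hy1 : ‖y‖ ≤ 1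
    · rw [eta_zero (Or.inl hy1), zero_mul, mul_zero, abs_zero]
      exact mul_nonneg h.nonneg (by positivity)
    · have hy1' : 1 < ‖y‖ := not_le.1 hy1
      have hy0 : y ≠ 0 := by
        rintro rfl
        rw [norm_zero] at hy1'
        linarith
      rw [abs_mul, abs_mul]
      have h1 : |(fderiv ℝ F y (e i)) i| ≤ C := by
        refine (ibpA_coord _ i).trans ((h.A_norm hy0 (e i)).trans ?_)
        have h2 : ‖e i‖ = 1 := by
          rw [e]
          simp
        rw [h2, mul_one]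
        exact div_le_self h.nonneg hy1'.le
      have h3 : |f y| ≤ B * 3 := (h.abs_le hB y).trans (mul_le_mul_of_nonneg_left hy hB0)
      exact mul_le_mul h1 (mul_le_mul (ibpA_le_one _) h3 (abs_nonneg _) zero_le_one)
        (by positivity) h.nonneg
  · intro y hy
    rw [eta_zero (Or.inr hy), zero_mul, mul_zero]

private theorem ibpA_intB (h : Reg C f F) (i : Fin 3) :
    Integrable (fun y : V =>
      -(eta ‖y‖ * (F y i) ^ 2 + f y * (deriv eta ‖y‖ / ‖y‖ * y i) * F y i)) := by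
  obtain ⟨B, hB0, hB⟩ := h.bound
  obtain ⟨D, hD0, hD⟩ := ibpA_dbound
  have hFi := ibpA_meas h.measF i
  have hn : Measurable (fun y : V => ‖y‖) := continuous_norm.measurable
  have hd : Measurable (fun y : V => deriv eta ‖y‖) := (measurable_deriv eta).comp hn
  have hm : Measurable (fun y : V =>
      -(eta ‖y‖ * (F y i) ^ 2 + f y * (deriv eta ‖y‖ / ‖y‖ * y i) * F y i)) :=
    (((eta_smooth.continuous.measurable.comp hn).mul (hFi.pow_const 2)).add
      ((h.cont.measurable.mul ((hd.div hn).mul (ibpA_meas measurable_id i))).mul hFi)).neg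
  refine ibpA_int hm (1 * B ^ 2 + B * 3 * D * B) ?_ ?_
  · intro y hy
    rw [abs_neg]
    have hFy : |F y i| ≤ B := (ibpA_coord _ i).trans (hB y)
    refine (abs_add_le _ _).trans (add_le_add ?_ ?_)
    · rw [abs_mul, abs_pow]
      exact mul_le_mul (ibpA_le_one _) (pow_le_pow_left₀ (abs_nonneg _) hFy 2) (by positivity)
        zero_le_one
    · rw [abs_mul, abs_mul, abs_mul, abs_div, abs_norm]
      have h3 : |f y| ≤ B * 3 := (h.abs_le hB y).trans (mul_le_mul_of_nonneg_left hy hB0)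
      have h4 : |deriv eta ‖y‖| / ‖y‖ * |y i| ≤ D := by
        by_cases h0 : ‖y‖ = 0
        · rw [h0, div_zero, zero_mul]
          exact hD0
        · calc |deriv eta ‖y‖| / ‖y‖ * |y i| ≤ |deriv eta ‖y‖| / ‖y‖ * ‖y‖ :=
                mul_le_mul_of_nonneg_left (ibpA_coord y i) (by positivity)
            _ = |deriv eta ‖y‖| := div_mul_cancel₀ _ h0
            _ ≤ D := hD _
      exact mul_le_mul (mul_le_mul h3 h4 (by positivity) (by positivity)) hFy (abs_nonneg _)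
        (by positivity)
  · intro y hy
    rw [eta_zero (Or.inr hy), deriv_eta_zero (Or.inr hy)]
    ring

private theorem ibpA_w (k : ℕ) : IntegrableOn (fun r => eta r * r ^ k) (Ioi 0) := by
  have hs : HasCompactSupport (fun r : ℝ => eta r * r ^ k) := by
    refine HasCompactSupport.intro (isCompact_Icc : IsCompact (Icc (1 : ℝ) 3)) fun r hr => ?_
    have h1 : eta r = 0 := by
      apply eta_zero
      by_contra h
      rw [not_or, not_le, not_le] at h
      exact hr ⟨h.1.le, h.2.le⟩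
    rw [h1, zero_mul]
  exact ((eta_smooth.continuous.mul (continuous_pow k)).integrable_of_hasCompactSupport
    hs).integrableOn

private theorem ibpA_w' : IntegrableOn (fun r => deriv eta r * r * r ^ 2) (Ioi 0) := by
  have hs : HasCompactSupport (fun r : ℝ => deriv eta r * r * r ^ 2) := by
    refine HasCompactSupport.intro (isCompact_Icc : IsCompact (Icc (1 : ℝ) 3)) fun r hr => ?_
    have h1 : deriv eta r = 0 := by
      apply deriv_eta_zero
      by_contra h
      rw [not_or, not_le, not_le] at h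
      exact hr ⟨h.1.le, h.2.le⟩
    rw [h1, zero_mul, zero_mul]
  have hc : Continuous (deriv eta) := eta_smooth.continuous_deriv (by norm_num)
  exact (((hc.mul continuous_id).mul (continuous_pow 2)).integrable_of_hasCompactSupport
    hs).integrableOn

theorem Reg.ibpA (h : Reg C f F) :
    bi (fun y => f y * tr (fderiv ℝ F y)) =
      3 * bi (fun y => (f y / ‖y‖) ^ 2) - bi (fun y => ‖F y‖ ^ 2) := by
  obtain ⟨-, h1⟩ := h.hom0_ftr.polar eta_smooth.continuous.measurable (ibpA_w 2)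
  obtain ⟨i2, h2⟩ := h.hom0_F.polar eta_smooth.continuous.measurable (ibpA_w 2)
  obtain ⟨i3, h3⟩ := (h.hom0_f.pow 2).polar (w := fun r => deriv eta r * r)
    ((measurable_deriv eta).mul measurable_id) ibpA_w'
  have h4 : ∫ r in Ioi (0 : ℝ), deriv eta r * r * r ^ 2 =
      -(3 * ∫ r in Ioi (0 : ℝ), eta r * r ^ 2) := by
    rw [← int_deriv3]
    refine integral_congr_ae (Filter.Eventually.of_forall fun r => ?_)
    change deriv eta r * r * r ^ 2 = deriv eta r * r ^ 3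
    ring
  rw [h4] at h3
  have h5 : ∫ y : V, f y * tr (fderiv ℝ F y) * eta ‖y‖ =
      ∑ i, ∫ y : V, (fderiv ℝ F y (e i)) i * (eta ‖y‖ * f y) := by
    rw [← integral_finsetSum _ fun i _ => ibpA_intA h i]
    refine integral_congr_ae (Filter.Eventually.of_forall fun y => ?_)
    change f y * tr (fderiv ℝ F y) * eta ‖y‖ = ∑ i, (fderiv ℝ F y (e i)) i * (eta ‖y‖ * f y)
    rw [← Finset.sum_mul, tr]
    ring
  have h6 : ∑ i, ∫ y : V, -(eta ‖y‖ * (F y i) ^ 2 + f y * (deriv eta ‖y‖ / ‖y‖ * y i) * F y i) =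
      -(∫ y : V, ‖F y‖ ^ 2 * eta ‖y‖) - ∫ y : V, (f y / ‖y‖) ^ 2 * (deriv eta ‖y‖ * ‖y‖) := by
    have i2' : Integrable (fun y : V => -(‖F y‖ ^ 2 * eta ‖y‖)) := i2.neg
    rw [← integral_finsetSum _ fun i _ => ibpA_intB h i, ← integral_neg,
      ← integral_sub i2' i3]
    refine integral_congr_ae (Filter.Eventually.of_forall fun y => ?_)
    change ∑ i, -(eta ‖y‖ * (F y i) ^ 2 + f y * (deriv eta ‖y‖ / ‖y‖ * y i) * F y i) =
      -(‖F y‖ ^ 2 * eta ‖y‖) - (f y / ‖y‖) ^ 2 * (deriv eta ‖y‖ * ‖y‖)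
    have e1 : ∑ i, (F y i) ^ 2 = ‖F y‖ ^ 2 := (EuclideanSpace.real_norm_sq_eq (F y)).symm
    have e2 : ∑ i, y i * F y i = f y := by
      rw [← h.euler y, PiLp.inner_apply]
      refine Finset.sum_congr rfl fun i _ => ?_
      simp
    have e3 : ∑ i, -(eta ‖y‖ * (F y i) ^ 2 + f y * (deriv eta ‖y‖ / ‖y‖ * y i) * F y i) =
        -(eta ‖y‖ * ∑ i, (F y i) ^ 2) - f y * (deriv eta ‖y‖ / ‖y‖) * ∑ i, y i * F y i := by
      rw [Finset.mul_sum, Finset.mul_sum, ← Finset.sum_neg_distrib, ← Finset.sum_sub_distrib]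
      refine Finset.sum_congr rfl fun i _ => ?_
      ring
    rw [e3, e1, e2]
    by_cases h0 : ‖y‖ = 0
    · rw [h0, deriv_eta_zero (Or.inl zero_le_one)]
      ring
    · field_simp
  have h7 : ∫ y : V, f y * tr (fderiv ℝ F y) * eta ‖y‖ =
      -(∫ y : V, ‖F y‖ ^ 2 * eta ‖y‖) - ∫ y : V, (f y / ‖y‖) ^ 2 * (deriv eta ‖y‖ * ‖y‖) := by
    rw [h5, ← h6]
    exact Finset.sum_congr rfl fun i _ => ibpA_one h i
  rw [h1, h2, h3] at h7
  have h8 := int_pos2
  have h9 : (3 * ∫ r in Ioi (0 : ℝ), eta r * r ^ 2) ≠ 0 := by positivity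
  apply mul_left_cancel₀ h9
  rw [h7]
  ring

end Pool.Agent.Lib.MP_e62723_gt.TD
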