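import Pool.Agent.Lib.MP_e62723_gt.TD.Hom
import Pool.Agent.Lib.MP_e62723_gt.TD.Eta
import Pool.Agent.Lib.MP_e62723_gt.TD.Comm

/-!
# JOB IbpB: second integration by parts, `⟨‖y‖² ((tr A)² - hs A)⟩ = ⟨f tr A⟩`

Notation `A(y) = fderiv ℝ F y`, `a_{ij} = (A (e j)) i = ∂_j F_i`, symmetric (`Reg.A_symm`),
`η(y) = eta ‖y‖` (support in `1 ≤ ‖y‖ ≤ 3`), `F̃(y) = (min ‖y‖ 1) • F y` (Lipschitz, `Reg.lipT`;
`F̃ = F` for `‖y‖ ≥ 1`).
(1) `P_i = η F̃_i` is Lipschitz with compact support (product of bounded Lipschitz functions;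
`lip_eta`, `cpt_eta`, `eta ≤ 1`, `Reg.bound`).
(2) `comm_lineDeriv` with `P = P_i`, `Q = F̃_j`, `v = e i`, `w = e j`, summed over `i, j`:
`∑_{ij} ∫ ∂_i P_i ∂_j F̃_j = ∑_{ij} ∫ ∂_j P_i ∂_i F̃_j`.
(3) For almost every `y` (`Reg.ae_diff`; spheres are null sets, or: for `‖y‖ < 1` everything
vanishes, for `‖y‖ > 1` compute; `‖y‖ = 1` is a null set: `Measure.addHaar_sphere`), with
`c = deriv eta ‖y‖ / ‖y‖`:
`∂_j P_i = c y_j F_i + η a_{ij}`, `∂_i F̃_j = a_{ji}` (if `‖y‖ > 1`; both `c` and `η` vanish if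
`‖y‖ < 1`). So
`∑_{ij} ∂_i P_i ∂_j F̃_j = (c ⟪y,F⟫ + η tr A) tr A = c f tr A + η (tr A)²` (`Reg.euler`), and
`∑_{ij} ∂_j P_i ∂_i F̃_j = c ∑_j y_j ∑_i F_i a_{ji} + η ∑_{ij} a_{ij} a_{ji} = c ⟪y, A F⟫ + η hs A`,
where `⟪y, A F⟫ = ⟪A y, F⟫ = 0` (`A_symm`, `A_self`) and `∑_{ij} a_{ij} a_{ji} = ∑_{ij} a_{ij}² =
hs A`.
(4) So `∫ η ((tr A)² - hs A) = -∫ c f tr A`. Polar coordinates (`Hom0.polar`):
`Ψ = ‖y‖² ((tr A)² - hs A) = (‖y‖ tr A)² - ‖y‖² hs A`, `w = eta r / r ^ 2` (for `r > 0`,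
`w r * r ^ 2 = eta r`): `∫ η ((tr A)² - hs A) = 3 I₀ ⟨Ψ⟩`, `I₀ = ∫_{Ioi 0} eta`;
`Ψ = f tr A`, `w = deriv eta r / r`: `∫ c f tr A = 3 (∫ deriv eta r * r) ⟨f tr A⟩ =
-3 I₀ ⟨f tr A⟩` (`int_deriv0`). Divide by `3 I₀ > 0` (`int_pos0`).
-/

open MeasureTheory Set

namespace Pool.Agent.Lib.MP_e62723_gt.TD

variable {C : ℝ} {f : V → ℝ} {F : V → V}

private theorem eta_le_one' (r : ℝ) : eta r ≤ 1 := bump.le_one

private theorem inner_e' (y : V) (i : Fin 3) : inner ℝ y (e i) = y i := by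
  simp [e, EuclideanSpace.inner_single_right]

/-- The modified gradient. -/
private noncomputable def FT (F : V → V) (i : Fin 3) (y : V) : ℝ := ((min ‖y‖ 1) • F y) i

private noncomputable def PT (F : V → V) (i : Fin 3) (y : V) : ℝ := eta ‖y‖ * FT F i y

private theorem comp_le' (x : V) (i : Fin 3) : |x i| ≤ ‖x‖ := by
  have := PiLp.norm_apply_le x i
  simpa using this

private theorem lipFT (h : Reg C f F) : ∃ D : NNReal, ∀ i, LipschitzWith D (FT F i) := by
  obtain ⟨D, hD⟩ := h.lipT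
  refine ⟨D, fun i => LipschitzWith.of_dist_le_mul fun y z => ?_⟩
  have h1 := hD.dist_le_mul y z
  rw [dist_eq_norm] at h1
  refine le_trans ?_ h1
  rw [Real.dist_eq]
  have h2 := comp_le' ((min ‖y‖ 1) • F y - (min ‖z‖ 1) • F z) i
  simpa [FT] using h2

private theorem bddFT (h : Reg C f F) : ∃ B : ℝ, 0 ≤ B ∧ ∀ i y, |FT F i y| ≤ B := by
  obtain ⟨B, hB0, hB⟩ := h.bound
  refine ⟨B, hB0, fun i y => ?_⟩
  refine le_trans (comp_le' _ i) ?_
  rw [norm_smul, Real.norm_eq_abs, abs_of_nonneg (le_min (norm_nonneg _) zero_le_one)]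
  calc min ‖y‖ 1 * ‖F y‖ ≤ 1 * ‖F y‖ :=
        mul_le_mul_of_nonneg_right (min_le_right _ _) (norm_nonneg _)
    _ ≤ B := by rw [one_mul]; exact hB y

private theorem lipPT (h : Reg C f F) : ∃ D : NNReal, ∀ i, LipschitzWith D (PT F i) := by
  obtain ⟨D, hD⟩ := lipFT h
  obtain ⟨B, hB0, hB⟩ := bddFT h
  obtain ⟨L, hL⟩ := lip_eta
  refine ⟨⟨B, hB0⟩ * L + D, fun i => LipschitzWith.of_dist_le_mul fun y z => ?_⟩
  have h1 := (hD i).dist_le_mul y z
  have h2 := hL.dist_le_mul y z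
  rw [Real.dist_eq] at h1 h2 ⊢
  have h3 : PT F i y - PT F i z =
      (eta ‖y‖ - eta ‖z‖) * FT F i y + eta ‖z‖ * (FT F i y - FT F i z) := by
    unfold PT; ring
  rw [h3]
  refine le_trans (abs_add_le _ _) ?_
  rw [abs_mul, abs_mul, abs_of_nonneg (eta_nonneg ‖z‖)]
  have h4 : |eta ‖y‖ - eta ‖z‖| * |FT F i y| ≤ (L * dist y z) * B :=
    mul_le_mul h2 (hB i y) (abs_nonneg _) (by positivity)
  have h5 : eta ‖z‖ * |FT F i y - FT F i z| ≤ 1 * (D * dist y z) :=
    mul_le_mul (eta_le_one' _) h1 (abs_nonneg _) zero_le_one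
  have h6 : ((⟨B, hB0⟩ * L + D : NNReal) : ℝ) = B * L + D := by push_cast; rfl
  rw [h6]
  nlinarith

private theorem cptPT (i : Fin 3) : HasCompactSupport (PT F i) := by
  have := cpt_eta.mul_right (f' := FT F i)
  exact this

private theorem zeroPT (i : Fin 3) {y : V} (hy : ‖y‖ < 1 ∨ 3 < ‖y‖) (v : V) :
    lineDeriv ℝ (PT F i) y v = 0 := by
  have h1 : PT F i =ᶠ[nhds y] (0 : V → ℝ) := by
    have h2 : ∀ᶠ z in nhds y, ‖z‖ < 1 ∨ 3 < ‖z‖ := by
      rcases hy with h | h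
      · filter_upwards [continuous_norm.continuousAt.eventually_lt
          (continuousAt_const (y := (1 : ℝ))) h] with z hz using Or.inl hz
      · filter_upwards [(continuousAt_const (y := (3 : ℝ))).eventually_lt
          continuous_norm.continuousAt h] with z hz using Or.inr hz
    filter_upwards [h2] with z hz
    have : eta ‖z‖ = 0 := eta_zero (hz.imp le_of_lt le_of_lt)
    simp [PT, this]
  rw [h1.lineDeriv_eq]
  simp [lineDeriv]

private theorem intPQ (h : Reg C f F) (i j : Fin 3) (v w : V) :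
    Integrable (fun y => lineDeriv ℝ (PT F i) y v * lineDeriv ℝ (FT F j) y w) := by
  obtain ⟨D, hD⟩ := lipFT h
  obtain ⟨D', hD'⟩ := lipPT h
  have hm : Measurable (fun y => lineDeriv ℝ (PT F i) y v * lineDeriv ℝ (FT F j) y w) :=
    (measurable_lineDeriv (hD' i).continuous).mul (measurable_lineDeriv (hD j).continuous)
  have hs : Function.support (fun y => lineDeriv ℝ (PT F i) y v * lineDeriv ℝ (FT F j) y w) ⊆
      Metric.closedBall (0 : V) 3 := by
    intro y hy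
    rw [mem_closedBall_zero_iff]
    by_contra hc
    exact hy (by simp only; rw [zeroPT i (Or.inr (not_le.1 hc)) v, zero_mul])
  rw [← integrableOn_iff_integrable_of_support_subset hs]
  refine Measure.integrableOn_of_bounded (M := (D' * ‖v‖) * (D * ‖w‖)) ?_
    hm.aestronglyMeasurable (Filter.Eventually.of_forall fun y => ?_)
  · exact (isCompact_closedBall (0 : V) 3).measure_lt_top.ne
  · rw [norm_mul]
    exact mul_le_mul (norm_lineDeriv_le_of_lipschitz ℝ (hD' i))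
      (norm_lineDeriv_le_of_lipschitz ℝ (hD j)) (norm_nonneg _) (by positivity)

private theorem lineFT {y : V} (hy : 1 < ‖y‖) (hd : DifferentiableAt ℝ F y) (i : Fin 3) (v : V) :
    lineDeriv ℝ (FT F i) y v = (fderiv ℝ F y v) i ∧
    lineDeriv ℝ (PT F i) y v = eta ‖y‖ * (fderiv ℝ F y v) i +
      deriv eta ‖y‖ / ‖y‖ * F y i * inner ℝ y v := by
  have hev : ∀ᶠ z in nhds y, 1 < ‖z‖ :=
    (continuousAt_const (y := (1 : ℝ))).eventually_lt continuous_norm.continuousAt hy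
  have h1 : FT F i =ᶠ[nhds y] fun z => F z i := by
    filter_upwards [hev] with z hz
    simp [FT, min_eq_right hz.le]
  have h2 : PT F i =ᶠ[nhds y] fun z => eta ‖z‖ * F z i := by
    filter_upwards [h1] with z hz
    simp only [PT]; rw [hz]
  have h3 : HasFDerivAt (fun z => F z i) ((EuclideanSpace.proj i : V →L[ℝ] ℝ).comp
      (fderiv ℝ F y)) y :=
    (EuclideanSpace.proj i : V →L[ℝ] ℝ).hasFDerivAt.comp y hd.hasFDerivAt
  have h4 : HasFDerivAt (fun z => eta ‖z‖ * F z i) _ y := (hasFDerivAt_eta y).mul h3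
  constructor
  · rw [h1.lineDeriv_eq, (h3.hasLineDerivAt v).lineDeriv]
    simp
  · rw [h2.lineDeriv_eq, (h4.hasLineDerivAt v).lineDeriv]
    simp
    ring

private theorem pointwise (h : Reg C f F) {y : V} (hy0 : y ≠ 0) (hy1 : ‖y‖ ≠ 1)
    (hd : DifferentiableAt ℝ F y) :
    (∑ i, ∑ j, lineDeriv ℝ (PT F i) y (e i) * lineDeriv ℝ (FT F j) y (e j)) =
      deriv eta ‖y‖ / ‖y‖ * (f y * tr (fderiv ℝ F y)) + eta ‖y‖ * tr (fderiv ℝ F y) ^ 2 ∧
    (∑ i, ∑ j, lineDeriv ℝ (PT F i) y (e j) * lineDeriv ℝ (FT F j) y (e i)) =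
      eta ‖y‖ * hs (fderiv ℝ F y) := by
  rcases lt_or_gt_of_ne hy1 with hlt | hgt
  · have h1 : eta ‖y‖ = 0 := eta_zero (Or.inl hlt.le)
    have h2 : deriv eta ‖y‖ = 0 := deriv_eta_zero (Or.inl hlt.le)
    have h3 : ∀ i v, lineDeriv ℝ (PT F i) y v = 0 := fun i v => zeroPT i (Or.inl hlt) v
    simp [h1, h2, h3]
  · set A := fderiv ℝ F y with hA
    set c := deriv eta ‖y‖ / ‖y‖ with hc
    have hF : ∀ i v, lineDeriv ℝ (FT F i) y v = (A v) i := fun i v => (lineFT hgt hd i v).1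
    have hP : ∀ i v, lineDeriv ℝ (PT F i) y v = eta ‖y‖ * (A v) i + c * F y i * inner ℝ y v :=
      fun i v => (lineFT hgt hd i v).2
    have hsym : ∀ i j, (A (e i)) j = (A (e j)) i := by
      intro i j
      have := h.A_symm hy0 (e i) (e j)
      rw [inner_e', inner_e'] at this
      exact this
    have heul : ∑ i, F y i * y i = f y := by
      rw [← h.euler y, PiLp.inner_apply]
      simp [mul_comm]
    have hself : ∀ i, ∑ j, y j * (A (e i)) j = 0 := by
      intro i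
      have h1 := h.A_symm hy0 (e i) y
      rw [h.A_self hy0] at h1
      rw [inner_zero_left, PiLp.inner_apply] at h1
      rw [← h1]
      simp [hA]
    have hhs : hs A = ∑ i, ∑ j, (A (e i)) j ^ 2 := by
      unfold hs
      refine Finset.sum_congr rfl fun i _ => ?_
      rw [EuclideanSpace.norm_sq_eq]
      simp
    constructor
    · have : ∀ i j, lineDeriv ℝ (PT F i) y (e i) * lineDeriv ℝ (FT F j) y (e j) =
          (eta ‖y‖ * (A (e i)) i + c * (F y i * y i)) * (A (e j)) j := by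
        intro i j
        rw [hF, hP, inner_e']; ring
      simp_rw [this]
      simp_rw [← Finset.mul_sum]
      rw [← Finset.sum_mul, Finset.sum_add_distrib, ← Finset.mul_sum, ← Finset.mul_sum, heul]
      unfold tr
      ring
    · have : ∀ i j, lineDeriv ℝ (PT F i) y (e j) * lineDeriv ℝ (FT F j) y (e i) =
          eta ‖y‖ * (A (e i)) j ^ 2 + c * F y i * (y j * (A (e i)) j) := by
        intro i j
        rw [hF, hP, inner_e', hsym j i]; ring
      simp_rw [this, Finset.sum_add_distrib, ← Finset.mul_sum, hself]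
      rw [hhs]
      simp

theorem Reg.ibpB (h : Reg C f F) :
    bi (fun y => ‖y‖ ^ 2 * (tr (fderiv ℝ F y) ^ 2 - hs (fderiv ℝ F y))) =
      bi (fun y => f y * tr (fderiv ℝ F y)) := by
  obtain ⟨D, hD⟩ := lipFT h
  obtain ⟨D', hD'⟩ := lipPT h
  have hae : ∀ᵐ y : V, y ≠ 0 ∧ ‖y‖ ≠ 1 ∧ DifferentiableAt ℝ F y := by
    have h1 : ∀ᵐ y : V, y ∉ Metric.sphere (0 : V) 1 := by
      rw [ae_iff]
      have := Measure.addHaar_sphere (volume : Measure V) 0 1
      simp only [not_not]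
      exact this
    filter_upwards [h.ae_diff, h1] with y hy hy1
    exact ⟨hy.1, fun hc => hy1 (by simpa using hc), hy.2⟩
  have hsum : ∑ i, ∑ j, ∫ y : V, lineDeriv ℝ (PT F i) y (e i) * lineDeriv ℝ (FT F j) y (e j) =
      ∑ i, ∑ j, ∫ y : V, lineDeriv ℝ (PT F i) y (e j) * lineDeriv ℝ (FT F j) y (e i) :=
    Finset.sum_congr rfl fun i _ => Finset.sum_congr rfl fun j _ =>
      comm_lineDeriv (hD' i) (hD j) (cptPT i) (e i) (e j)
  have hl : ∑ i, ∑ j, ∫ y : V, lineDeriv ℝ (PT F i) y (e i) * lineDeriv ℝ (FT F j) y (e j) =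
      ∫ y : V, (deriv eta ‖y‖ / ‖y‖ * (f y * tr (fderiv ℝ F y)) +
        eta ‖y‖ * tr (fderiv ℝ F y) ^ 2) := by
    have h1 : ∀ i, ∑ j, ∫ y : V, lineDeriv ℝ (PT F i) y (e i) * lineDeriv ℝ (FT F j) y (e j) =
        ∫ y : V, ∑ j, lineDeriv ℝ (PT F i) y (e i) * lineDeriv ℝ (FT F j) y (e j) := fun i =>
      (integral_finsetSum _ fun j _ => intPQ h i j (e i) (e j)).symm
    simp_rw [h1]
    rw [← integral_finsetSum _ fun i _ =>
      integrable_finsetSum _ fun j _ => intPQ h i j (e i) (e j)]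
    refine integral_congr_ae ?_
    filter_upwards [hae] with y hy using (pointwise h hy.1 hy.2.1 hy.2.2).1
  have hr : ∑ i, ∑ j, ∫ y : V, lineDeriv ℝ (PT F i) y (e j) * lineDeriv ℝ (FT F j) y (e i) =
      ∫ y : V, eta ‖y‖ * hs (fderiv ℝ F y) := by
    have h1 : ∀ i, ∑ j, ∫ y : V, lineDeriv ℝ (PT F i) y (e j) * lineDeriv ℝ (FT F j) y (e i) =
        ∫ y : V, ∑ j, lineDeriv ℝ (PT F i) y (e j) * lineDeriv ℝ (FT F j) y (e i) := fun i =>
      (integral_finsetSum _ fun j _ => intPQ h i j (e j) (e i)).symm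
    simp_rw [h1]
    rw [← integral_finsetSum _ fun i _ =>
      integrable_finsetSum _ fun j _ => intPQ h i j (e j) (e i)]
    refine integral_congr_ae ?_
    filter_upwards [hae] with y hy using (pointwise h hy.1 hy.2.1 hy.2.2).2
  rw [hl, hr] at hsum
  -- polar coordinates
  have hsm : Continuous (deriv eta) := eta_smooth.continuous_deriv (by norm_num)
  have hce : Continuous eta := eta_smooth.continuous
  have hcpt : HasCompactSupport eta := by
    refine HasCompactSupport.intro (isCompact_Icc (a := (1 : ℝ)) (b := 3)) fun r hr => ?_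
    refine eta_zero ?_
    rw [mem_Icc, not_and_or, not_le, not_le] at hr
    exact hr.imp le_of_lt le_of_lt
  have hw1 : Measurable fun r : ℝ => eta r / r ^ 2 :=
    hce.measurable.div (measurable_id.pow_const 2)
  have hw2 : Measurable fun r : ℝ => deriv eta r / r := hsm.measurable.div measurable_id
  have he1 : ∀ r ∈ Ioi (0 : ℝ), eta r / r ^ 2 * r ^ 2 = eta r := by
    intro r hr
    have : r ≠ 0 := ne_of_gt hr
    field_simp
  have he2 : ∀ r ∈ Ioi (0 : ℝ), deriv eta r / r * r ^ 2 = deriv eta r * r := by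
    intro r hr
    have : r ≠ 0 := ne_of_gt hr
    field_simp
  have hi1 : IntegrableOn (fun r : ℝ => eta r / r ^ 2 * r ^ 2) (Ioi 0) := by
    rw [integrableOn_congr_fun he1 measurableSet_Ioi]
    exact (hce.integrable_of_hasCompactSupport hcpt).integrableOn
  have hi2 : IntegrableOn (fun r : ℝ => deriv eta r / r * r ^ 2) (Ioi 0) := by
    rw [integrableOn_congr_fun he2 measurableSet_Ioi]
    refine Continuous.integrable_of_hasCompactSupport (by fun_prop) ?_ |>.integrableOn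
    exact hcpt.deriv.mul_right
  have hH1 : Hom0 (fun y => (‖y‖ * tr (fderiv ℝ F y)) ^ 2 - ‖y‖ ^ 2 * hs (fderiv ℝ F y)) :=
    (h.hom0_tr.pow 2).sub h.hom0_hs
  have hp1 := hH1.polar hw1 hi1
  have hp2 := h.hom0_ftr.polar hw2 hi2
  rw [setIntegral_congr_fun measurableSet_Ioi he1] at hp1
  rw [setIntegral_congr_fun measurableSet_Ioi he2, int_deriv0] at hp2
  have hf1 : (fun y : V => ((‖y‖ * tr (fderiv ℝ F y)) ^ 2 - ‖y‖ ^ 2 * hs (fderiv ℝ F y)) *
      (eta ‖y‖ / ‖y‖ ^ 2)) = fun y => eta ‖y‖ * tr (fderiv ℝ F y) ^ 2 -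
        eta ‖y‖ * hs (fderiv ℝ F y) := by
    funext y
    by_cases hy : ‖y‖ = 0
    · rw [hy, eta_zero (Or.inl zero_le_one)]; simp
    · field_simp
  have hf2 : (fun y : V => f y * tr (fderiv ℝ F y) * (deriv eta ‖y‖ / ‖y‖)) =
      fun y => deriv eta ‖y‖ / ‖y‖ * (f y * tr (fderiv ℝ F y)) := by
    funext y; ring
  simp only [hf1] at hp1
  simp only [hf2] at hp2
  -- the integral identity
  have hK : Integrable (fun y : V => eta ‖y‖ * hs (fderiv ℝ F y)) := by
    have hq : IntegrableOn (fun r : ℝ => eta r / r ^ 2 * r ^ 2) (Ioi 0) := hi1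
    have := (h.hom0_hs.polar hw1 hq).1
    refine this.congr (Filter.Eventually.of_forall fun y => ?_)
    by_cases hy : ‖y‖ = 0
    · simp only [hy, eta_zero (Or.inl zero_le_one)]; simp
    · simp only; field_simp
  have hL : Integrable (fun y : V => eta ‖y‖ * tr (fderiv ℝ F y) ^ 2) := by
    have := hp1.1.add hK
    refine this.congr (Filter.Eventually.of_forall fun y => ?_)
    simp
  rw [integral_add hp2.1 hL, hp2.2] at hsum
  have hp3 := hp1.2
  rw [integral_sub hL hK] at hp3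
  have hbi : bi (fun y => (‖y‖ * tr (fderiv ℝ F y)) ^ 2 - ‖y‖ ^ 2 * hs (fderiv ℝ F y)) =
      bi (fun y => ‖y‖ ^ 2 * (tr (fderiv ℝ F y) ^ 2 - hs (fderiv ℝ F y))) := by
    congr 1; funext y; ring
  rw [hbi] at hp3
  have hpos := int_pos0
  have hfin : (∫ r in Ioi (0 : ℝ), eta r) *
      (bi (fun y => ‖y‖ ^ 2 * (tr (fderiv ℝ F y) ^ 2 - hs (fderiv ℝ F y))) -
      bi (fun y => f y * tr (fderiv ℝ F y))) = 0 := by
    linarith
  rcases mul_eq_zero.1 hfin with h0 | h0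
  · exact absurd h0 hpos.ne'
  · linarith

end Pool.Agent.Lib.MP_e62723_gt.TD
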