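import Pool.Agent.Lib.MP_e62723_gt.TD.Vol
import Pool.Agent.Lib.MP_e62723_gt.TD.IbpB

/-!
# JOB VolM: `vol K ≥ vol B + (3/2) ⟨f tr A⟩`

`lim`: let `t → 0+` in `Reg.vol_ge`: the left-hand side is a polynomial in `t` whose coefficients
are integrals of `Hom0` functions (`a = f/‖y‖`, `b = ‖y‖ tr A`, `c = ‖y‖² e2 A`:
`(1+t+a)((1+t)²+(1+t)b+c) = (1+t)³ + (1+t)² (b + a) + (1+t) (c + a b) + a c`; use
`integral_add`, `integral_const_mul`, `Hom0.intBall`), so it tends to its value at `t = 0`;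
the right-hand side tends to `volume K` (`tendsto_measure_cthickening_of_isCompact`, or
`tendsto_measure_cthickening_of_isClosed`, and `ENNReal.tendsto_toReal`);
`le_of_tendsto_of_tendsto` along `𝓝[>] 0`.
`vol_main`: at `t = 0`, `(1+a)(1+b+c) = 1 + b + c + a + a b + a c`; `a`, `b`, `a c` are odd
(`f` odd; `tr (fderiv ℝ F (-y)) = -tr (fderiv ℝ F y)` by `A_neg`; `c` is even), so their integrals
vanish (`bi_odd`); `a b = f tr A` (also at `y = 0`: both vanish, `f 0 = 0`), and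
`2 ⟨c⟩ = ⟨‖y‖² ((tr A)² - hs A)⟩ = ⟨f tr A⟩` (`Reg.ibpB`). `bi 1 = vol ball`.
-/

open MeasureTheory Set

namespace Pool.Agent.Lib.MP_e62723_gt.TD

variable {f : V → ℝ} {F : V → V}

private theorem volM_add {Ψ Θ : V → ℝ} (h : Hom0 Ψ) (h' : Hom0 Θ) :
    bi (fun y => Ψ y + Θ y) = bi Ψ + bi Θ :=
  integral_add h.intBall h'.intBall

private theorem volM_smul (c : ℝ) (Ψ : V → ℝ) : bi (fun y => c * Ψ y) = c * bi Ψ :=
  integral_const_mul c Ψ

private theorem volM_const (c : ℝ) : bi (fun _ => c) = c * kappa 3 := by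
  unfold bi kappa
  rw [setIntegral_const, smul_eq_mul, mul_comm]
  rfl

private theorem volM_poly {a b c : V → ℝ} (ha : Hom0 a) (hb : Hom0 b) (hc : Hom0 c) (s : ℝ) :
    bi (fun y => (s + a y) * (s ^ 2 + s * b y + c y)) =
      s ^ 3 * kappa 3 + s ^ 2 * (bi b + bi a) + s * (bi c + bi (fun y => a y * b y)) +
        bi (fun y => a y * c y) := by
  have h1 : (fun y => (s + a y) * (s ^ 2 + s * b y + c y)) = fun y =>
      (((s ^ 3 + s ^ 2 * (b y + a y)) + s * (c y + a y * b y)) + a y * c y) := by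
    funext y
    ring
  rw [h1]
  have e1 : Hom0 (fun y => b y + a y) := hb.add ha
  have e2 : Hom0 (fun y => a y * b y) := ha.mul hb
  have e3 : Hom0 (fun y => c y + a y * b y) := hc.add e2
  have e4 : Hom0 (fun y => a y * c y) := ha.mul hc
  have e5 : Hom0 (fun y => s ^ 2 * (b y + a y)) := e1.smul (s ^ 2)
  have e6 : Hom0 (fun y => s * (c y + a y * b y)) := e3.smul s
  have e7 : Hom0 (fun _ : V => s ^ 3) := Hom0.const (s ^ 3)
  have e8 : Hom0 (fun y => s ^ 3 + s ^ 2 * (b y + a y)) := e7.add e5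
  have e9 : Hom0 (fun y => (s ^ 3 + s ^ 2 * (b y + a y)) + s * (c y + a y * b y)) := e8.add e6
  rw [volM_add e9 e4, volM_add e8 e6, volM_add e7 e5, volM_const, volM_smul, volM_smul,
    volM_add hb ha, volM_add hc e2]

private theorem volM_tr_neg (L : V →L[ℝ] V) : tr (-L) = -tr L := by
  unfold tr
  rw [← Finset.sum_neg_distrib]
  rfl

private theorem volM_hs_neg (L : V →L[ℝ] V) : hs (-L) = hs L := by
  unfold hs
  refine Finset.sum_congr rfl fun i _ => ?_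
  rw [ContinuousLinearMap.neg_apply, norm_neg]

private theorem volM_e2_neg (L : V →L[ℝ] V) : e2 (-L) = e2 L := by
  unfold e2
  rw [volM_tr_neg, volM_hs_neg, neg_sq]

theorem Reg.vol_lim (h : Reg 1 f F) {K : Set V} (hc : IsCompact K) (hconv : Convex ℝ K)
    (h0 : (0 : V) ∈ K) (hK : ∀ u : V, ‖u‖ = 1 → u + F u ∈ K)
    (hsup : ∀ u : V, ‖u‖ = 1 → ∀ z ∈ K, inner ℝ z u ≤ 1 + f u)
    (hpos : ∀ u : V, ‖u‖ = 1 → 0 < 1 + f u) :
    bi (fun y => (1 + f y / ‖y‖) * (1 + ‖y‖ * tr (fderiv ℝ F y) +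
      ‖y‖ ^ 2 * e2 (fderiv ℝ F y))) ≤ (volume K).toReal := by
  have h1 := volM_poly h.hom0_f h.hom0_tr h.hom0_e2
  have h2 : bi (fun y => (1 + f y / ‖y‖) * (1 + ‖y‖ * tr (fderiv ℝ F y) +
      ‖y‖ ^ 2 * e2 (fderiv ℝ F y))) = bi (fun y => (1 + f y / ‖y‖) *
        ((1 : ℝ) ^ 2 + 1 * (‖y‖ * tr (fderiv ℝ F y)) + ‖y‖ ^ 2 * e2 (fderiv ℝ F y))) := by
    congr 1
    funext y
    rw [one_pow, one_mul]
  rw [h2, h1 1]
  have hR : Filter.Tendsto (fun t : ℝ => (volume (Metric.cthickening t K)).toReal)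
      (nhdsWithin 0 (Ioi 0)) (nhds (volume K).toReal) :=
    ((ENNReal.tendsto_toReal hc.measure_lt_top.ne).comp
      (tendsto_measure_cthickening_of_isCompact hc)).mono_left nhdsWithin_le_nhds
  generalize kappa 3 = κ at *
  generalize bi (fun y => ‖y‖ * tr (fderiv ℝ F y)) = x1 at *
  generalize bi (fun y => f y / ‖y‖) = x2 at *
  generalize bi (fun y => ‖y‖ ^ 2 * e2 (fderiv ℝ F y)) = x3 at *
  generalize bi (fun y => f y / ‖y‖ * (‖y‖ * tr (fderiv ℝ F y))) = x4 at *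
  generalize bi (fun y => f y / ‖y‖ * (‖y‖ ^ 2 * e2 (fderiv ℝ F y))) = x5 at *
  have hcont : Continuous fun t : ℝ => (1 + t) ^ 3 * κ + (1 + t) ^ 2 * (x1 + x2) +
      (1 + t) * (x3 + x4) + x5 := by
    fun_prop
  have hL : Filter.Tendsto (fun t : ℝ => (1 + t) ^ 3 * κ + (1 + t) ^ 2 * (x1 + x2) +
      (1 + t) * (x3 + x4) + x5) (nhdsWithin 0 (Ioi 0))
      (nhds ((1 : ℝ) ^ 3 * κ + 1 ^ 2 * (x1 + x2) + 1 * (x3 + x4) + x5)) := by
    have h3 := (hcont.tendsto 0).mono_left (nhdsWithin_le_nhds (s := Ioi (0 : ℝ)))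
    rw [add_zero] at h3
    exact h3
  refine le_of_tendsto_of_tendsto hL hR ?_
  filter_upwards [self_mem_nhdsWithin] with t ht
  rw [← h1 (1 + t)]
  exact h.vol_ge hc hconv h0 hK hsup hpos ht

theorem Reg.vol_main (h : Reg 1 f F) (hodd : ∀ y, f (-y) = -f y) (hev : ∀ y, F (-y) = F y)
    {K : Set V} (hc : IsCompact K) (hconv : Convex ℝ K)
    (h0 : (0 : V) ∈ K) (hK : ∀ u : V, ‖u‖ = 1 → u + F u ∈ K)
    (hsup : ∀ u : V, ‖u‖ = 1 → ∀ z ∈ K, inner ℝ z u ≤ 1 + f u)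
    (hpos : ∀ u : V, ‖u‖ = 1 → 0 < 1 + f u) :
    kappa 3 + 3 / 2 * bi (fun y => f y * tr (fderiv ℝ F y)) ≤ (volume K).toReal := by
  have h1 := h.vol_lim hc hconv h0 hK hsup hpos
  have h2 : bi (fun y => (1 + f y / ‖y‖) * (1 + ‖y‖ * tr (fderiv ℝ F y) +
      ‖y‖ ^ 2 * e2 (fderiv ℝ F y))) = bi (fun y => (1 + f y / ‖y‖) *
        ((1 : ℝ) ^ 2 + 1 * (‖y‖ * tr (fderiv ℝ F y)) + ‖y‖ ^ 2 * e2 (fderiv ℝ F y))) := by
    congr 1
    funext y
    rw [one_pow, one_mul]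
  rw [h2, volM_poly h.hom0_f h.hom0_tr h.hom0_e2 1] at h1
  have b1 : bi (fun y => ‖y‖ * tr (fderiv ℝ F y)) = 0 := bi_odd fun y => by
    rw [norm_neg, A_neg hev, volM_tr_neg, mul_neg]
  have b2 : bi (fun y => f y / ‖y‖) = 0 := bi_odd fun y => by
    rw [norm_neg, hodd, neg_div]
  have b3 : bi (fun y => f y / ‖y‖ * (‖y‖ ^ 2 * e2 (fderiv ℝ F y))) = 0 := bi_odd fun y => by
    rw [norm_neg, hodd, A_neg hev, volM_e2_neg, neg_div, neg_mul]
  have b4 : (fun y => f y / ‖y‖ * (‖y‖ * tr (fderiv ℝ F y))) =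
      fun y => f y * tr (fderiv ℝ F y) := by
    funext y
    by_cases hy : y = 0
    · rw [hy, h.f_zero, zero_div, zero_mul, zero_mul]
    · have hy' : ‖y‖ ≠ 0 := norm_ne_zero_iff.2 hy
      rw [← mul_assoc, div_mul_cancel₀ _ hy']
  have b5 : bi (fun y => ‖y‖ ^ 2 * e2 (fderiv ℝ F y)) =
      1 / 2 * bi (fun y => f y * tr (fderiv ℝ F y)) := by
    rw [← h.ibpB, ← volM_smul]
    congr 1
    funext y
    unfold e2
    ring
  rw [b1, b2, b3, b4, b5] at h1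
  linarith

end Pool.Agent.Lib.MP_e62723_gt.TD
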