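import Pool.Agent.Lib.MP_e62723_gt.TD.Sph
import Pool.Agent.Lib.MP_e62723_gt.TD.IbpA
import Pool.Agent.Lib.MP_e62723_gt.TD.VolM
import Pool.Agent.Lib.MP_e62723_gt.TD.Body
import Pool.Agent.Lib.MP_e62723_gt.TD.Cen

/-!
# `vol K ≥ (8/11) κ₃` for every body `K` of constant width `2` in `ℝ³`
-/

open MeasureTheory Set

namespace Pool.Agent.Lib.MP_e62723_gt.TD

variable {f : V → ℝ} {F : V → V}

theorem bi_const (c : ℝ) : bi (fun _ => c) = c * kappa 3 := by
  unfold bi kappa
  rw [setIntegral_const, smul_eq_mul, mul_comm]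
  rfl

theorem bi_mono {Ψ Θ : V → ℝ} (h : Hom0 Ψ) (h' : Hom0 Θ) (hle : ∀ y, Ψ y ≤ Θ y) : bi Ψ ≤ bi Θ :=
  integral_mono h.intBall h'.intBall hle

theorem bi_add {Ψ Θ : V → ℝ} (h : Hom0 Ψ) (h' : Hom0 Θ) :
    bi (fun y => Ψ y + Θ y) = bi Ψ + bi Θ := integral_add h.intBall h'.intBall

theorem bi_smul (c : ℝ) (Ψ : V → ℝ) : bi (fun y => c * Ψ y) = c * bi Ψ := integral_const_mul _ _

theorem bi_nonneg {Ψ : V → ℝ} (h : ∀ y, 0 ≤ Ψ y) : 0 ≤ bi Ψ := integral_nonneg h

/-- Cauchy–Schwarz on the ball. -/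
theorem bi_cs {Ψ Θ : V → ℝ} (h : Hom0 Ψ) (h' : Hom0 Θ) :
    bi (fun y => Ψ y * Θ y) ^ 2 ≤ bi (fun y => Ψ y ^ 2) * bi (fun y => Θ y ^ 2) := by
  have key : ∀ t : ℝ, 0 ≤ bi (fun y => Θ y ^ 2) * (t * t) + (2 * bi (fun y => Ψ y * Θ y)) * t +
      bi (fun y => Ψ y ^ 2) := by
    intro t
    have h1 : 0 ≤ bi (fun y => (Ψ y + t * Θ y) ^ 2) := bi_nonneg fun y => sq_nonneg _
    have h2 : bi (fun y => (Ψ y + t * Θ y) ^ 2) =
        bi (fun y => (t * t) * Θ y ^ 2 + ((2 * t) * (Ψ y * Θ y) + Ψ y ^ 2)) := by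
      unfold bi
      refine integral_congr_ae (Filter.Eventually.of_forall fun y => ?_)
      simp only
      ring
    rw [h2, bi_add ((h'.pow 2).smul (t * t)) (((h.mul h').smul (2 * t)).add (h.pow 2)),
      bi_add ((h.mul h').smul (2 * t)) (h.pow 2), bi_smul, bi_smul] at h1
    linarith
  have h4 := discrim_le_zero key
  unfold discrim at h4
  nlinarith

/-- `J = -⟨f tr A⟩ ≤ (2/11) κ₃`. -/
theorem Reg.J_le (h : Reg 1 f F) (hodd : ∀ y, f (-y) = -f y) (hev : ∀ y, F (-y) = F y) :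
    -(2 / 11 * kappa 3) ≤ bi (fun y => f y * tr (fderiv ℝ F y)) := by
  obtain ⟨f', F', h', hodd', hev', hA, hcen⟩ := h.exists_center hodd hev
  obtain ⟨t, ht⟩ : ∃ t, t = bi (fun y => f y * tr (fderiv ℝ F y)) := ⟨_, rfl⟩
  obtain ⟨a, ha⟩ : ∃ a, a = bi (fun y => (f' y / ‖y‖) ^ 2) := ⟨_, rfl⟩
  obtain ⟨b, hb⟩ : ∃ b, b = bi (fun y => ‖F' y‖ ^ 2) := ⟨_, rfl⟩
  obtain ⟨G, hG⟩ : ∃ G, G = bi (fun y => (‖y‖ * tr (fderiv ℝ F y)) ^ 2) := ⟨_, rfl⟩
  have e1 : bi (fun y => f' y * tr (fderiv ℝ F' y)) = t := by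
    rw [ht, ← h.ibpB, ← h'.ibpB]
    simp only [hA]
  have e2 : t = 3 * a - b := by
    rw [← e1, h'.ibpA, ha, hb]
  have e3 : 13 * a ≤ b := by
    rw [ha, hb]
    exact h'.sph_gap3 hodd' hcen
  have e4 : t ^ 2 ≤ a * G := by
    have hcs := bi_cs h'.hom0_f h'.hom0_tr
    simp only [hA] at hcs
    rw [← ha, ← hG] at hcs
    have e5 : bi (fun y => f' y / ‖y‖ * (‖y‖ * tr (fderiv ℝ F y))) = t := by
      rw [← e1]
      unfold bi
      refine integral_congr_ae (Filter.Eventually.of_forall fun y => ?_)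
      simp only [hA]
      rcases eq_or_ne y 0 with hy | hy
      · rw [hy, h'.f_zero]
        simp
      · have : ‖y‖ ≠ 0 := norm_ne_zero_iff.2 hy
        field_simp
    rw [e5] at hcs
    exact hcs
  have e6 : G - t ≤ 2 * kappa 3 := by
    have hle : bi (fun y => ‖y‖ ^ 2 * hs (fderiv ℝ F y)) ≤ bi (fun _ => 2) := by
      refine bi_mono h.hom0_hs (Hom0.const 2) fun y => ?_
      rcases eq_or_ne y 0 with hy | hy
      · rw [hy]
        simp
      · have := h.hs_le hy
        linarith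
    rw [bi_const] at hle
    have e7 : bi (fun y => ‖y‖ ^ 2 * (tr (fderiv ℝ F y) ^ 2 - hs (fderiv ℝ F y))) +
        bi (fun y => ‖y‖ ^ 2 * hs (fderiv ℝ F y)) = G := by
      have h0 : Hom0 (fun y => ‖y‖ ^ 2 * (tr (fderiv ℝ F y) ^ 2 - hs (fderiv ℝ F y))) := by
        have := (h.hom0_tr.pow 2).sub h.hom0_hs
        have e : (fun y => ‖y‖ ^ 2 * (tr (fderiv ℝ F y) ^ 2 - hs (fderiv ℝ F y))) =
            fun y => (‖y‖ * tr (fderiv ℝ F y)) ^ 2 - ‖y‖ ^ 2 * hs (fderiv ℝ F y) := by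
          funext y
          ring
        rw [e]
        exact this
      rw [← bi_add h0 h.hom0_hs, hG]
      unfold bi
      refine integral_congr_ae (Filter.Eventually.of_forall fun y => ?_)
      simp only
      ring
    rw [h.ibpB, ← ht] at e7
    linarith
  have ha0 : 0 ≤ a := by
    rw [ha]
    exact bi_nonneg fun y => sq_nonneg _
  have hG0 : 0 ≤ G := by
    rw [hG]
    exact bi_nonneg fun y => sq_nonneg _
  have hk : 0 ≤ kappa 3 := ENNReal.toReal_nonneg
  rw [← ht]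
  by_contra hcon
  push Not at hcon
  have hJ : 0 < -t := by linarith
  -- `J ≥ 10 a`, `J² ≤ a G`, `G + J ≤ 2 κ`
  have h10 : 10 * a ≤ -t := by linarith
  have h11 : 10 * (-t) ≤ G := by
    have h12 : 10 * (-t) ^ 2 ≤ (-t) * G := by
      calc 10 * (-t) ^ 2 = 10 * t ^ 2 := by ring
        _ ≤ 10 * (a * G) := by linarith
        _ = (10 * a) * G := by ring
        _ ≤ (-t) * G := mul_le_mul_of_nonneg_right h10 hG0
    have h13 : (-t) * (10 * (-t)) ≤ (-t) * G := by nlinarith
    exact le_of_mul_le_mul_left h13 hJ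
  linarith

theorem body_ge {K : Set V} (hK : IsConvexBody K) (hw : HasConstantWidth K 2) :
    8 / 11 * kappa 3 ≤ (volume K).toReal := by
  obtain ⟨p, hp⟩ := hK.interior_nonempty
  -- translate `p` to the origin
  set K' : Set V := (fun x => x - p) '' K with hK'
  have hvol : volume K' = volume K := by
    rw [hK']
    have : (fun x : V => x - p) '' K = (fun x : V => x + p) ⁻¹' K := by
      ext z
      constructor
      · rintro ⟨x, hx, rfl⟩
        simpa using hx
      · intro hz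
        exact ⟨z + p, hz, by simp⟩
    rw [this]
    exact measure_preimage_add_right volume p K
  have hhomeo : (fun x : V => x - p) = (Homeomorph.subRight p) := rfl
  have hc : IsCompact K' := hK.compact.image (by fun_prop)
  have hconv : Convex ℝ K' := by
    have : K' = (fun x : V => (-p) + x) '' K := by
      rw [hK']
      refine image_congr fun x _ => ?_
      rw [sub_eq_add_neg, add_comm]
    rw [this]
    exact hK.convex.translate (-p)
  have hint : (0 : V) ∈ interior K' := by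
    rw [hK', hhomeo, ← Homeomorph.image_interior]
    exact ⟨p, hp, by simp⟩
  have hbody : IsConvexBody K' := ⟨hc, hconv, ⟨0, hint⟩⟩
  have hsupp : ∀ u : V, suppFun K' u = suppFun K u - inner ℝ p u := by
    intro u
    have hle : ∀ x ∈ K, inner ℝ x u ≤ suppFun K u := fun x hx => Asy.inner_le_suppFun hK hx u
    obtain ⟨x, hx, hxe⟩ := Asy.exists_suppFun_eq hK u
    obtain ⟨z, hz, hze⟩ := Asy.exists_suppFun_eq hbody u
    have h1 : suppFun K u - inner ℝ p u ≤ suppFun K' u := by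
      have := Asy.inner_le_suppFun hbody (mem_image_of_mem _ hx : (fun x => x - p) x ∈ K') u
      simp only [inner_sub_left] at this
      linarith
    have h2 : suppFun K' u ≤ suppFun K u - inner ℝ p u := by
      obtain ⟨w, hw', rfl⟩ := hz
      have := hle w hw'
      rw [← hze]
      simp only [inner_sub_left]
      linarith
    exact le_antisymm h2 h1
  have hw' : HasConstantWidth K' 2 := by
    intro u hu
    have := hw u hu
    rw [hsupp, hsupp, inner_neg_right]
    linarith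
  obtain ⟨f, F, h, hodd, hev, hKF, hsup⟩ := exists_reg hbody hw'
  have hpos : ∀ u : V, ‖u‖ = 1 → 0 < 1 + f u := by
    intro u hu
    obtain ⟨ε, hε, hball⟩ := Metric.mem_nhds_iff.1 (mem_interior_iff_mem_nhds.1 hint)
    have hmem : (ε / 2) • u ∈ K' := by
      apply hball
      rw [mem_ball_zero_iff, norm_smul, hu, mul_one, Real.norm_of_nonneg (by positivity)]
      linarith
    have := hsup u hu _ hmem
    rw [inner_smul_left, real_inner_self_eq_norm_sq, hu] at this
    simp only [conj_trivial, one_pow, mul_one] at this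
    linarith
  have h1 := h.vol_main hodd hev hc hconv (interior_subset hint) hKF hsup hpos
  have h2 := h.J_le hodd hev
  rw [hvol] at h1
  linarith

theorem mW_ge : 8 / 11 * kappa 3 ≤ mW 3 := by
  obtain ⟨K, hK, hw⟩ := Asy.exists_body 3
  refine le_csInf ⟨_, K, hK, hw, rfl⟩ ?_
  rintro v ⟨L, hL, hLw, rfl⟩
  exact body_ge hL hLw

theorem kappa_three : kappa 3 = 4 * Real.pi / 3 := by
  unfold kappa
  rw [EuclideanSpace.volume_ball_fin_three, ENNReal.toReal_mul, ENNReal.toReal_pow,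
    ENNReal.toReal_ofReal zero_le_one, ENNReal.toReal_ofReal (by positivity)]
  ring

end Pool.Agent.Lib.MP_e62723_gt.TD
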