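import Pool.Agent.Lib.MP_e62723_gt.TD.Pol
import Pool.Agent.Lib.MP_e62723_gt.Asy.Dens

/-!
# JOB Mom: Gaussian integrals of homogeneous functions

`gam_int`: by `Asy.gam_eq 3` the measure `gam 3` has the density
`(2π)^(-3/2) e^{-‖x‖²/2}` (`integral_withDensity_eq_integral_toReal_smul` as in the private
theorem `integral_gam` of `Asy/Dens.lean`).
`gam_polar`: `Hom0.polar` with `w r = (2π)^(-3/2) e^{-r²/2} v r`; measurable; integrability of
`w(r) r²` from `|v r| ≤ D (1 + r)^k`-type growth: here we assume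
`IntegrableOn (fun r => v r * exp (-(r²/2)) * r²) (Ioi 0)`.
`gi k = ∫_0^∞ r^k e^{-r²/2} dr > 0`, `gi (k+2) = (k+1) gi k`: integration by parts, or
`integral_rpow_mul_exp_neg_mul_rpow`/`Real.integral_rpow_mul_exp_neg_mul_sq`...; e.g. the function
`r ↦ -r^(k+1) e^{-r²/2}` has derivative `r^(k+2) e^{-r²/2} - (k+1) r^k e^{-r²/2}`, vanishes at `0`
(as `k + 1 ≥ 1`) and tends to `0` at infinity (`integral_Ioi_of_hasDerivAt_of_tendsto`).
`gam_pow`: `∫ Ψ(y) ‖y‖^k dγ = c * gi (k+2) * bi Ψ` with `c = 3 (2π)^(-3/2) > 0`.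
`integrable_pow`: `Ψ(y) ‖y‖^k` is `γ`-integrable.
-/

open MeasureTheory ProbabilityTheory Set

namespace Pool.Agent.Lib.MP_e62723_gt.TD

open Pool.Agent.Lib.MP_e62723_gt.Asy

/-- `∫_0^∞ r^k e^{-r²/2} dr`. -/
noncomputable def gi (k : ℕ) : ℝ := ∫ r in Ioi (0 : ℝ), r ^ k * Real.exp (-(r ^ 2 / 2))

/-- The constant `3 (2π)^(-3/2)`. -/
noncomputable def gc : ℝ := 3 * (2 * Real.pi) ^ (-((3 : ℝ) / 2))

theorem gc_pos : 0 < gc :=
  mul_pos three_pos (Real.rpow_pos_of_pos (by positivity) _)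

private theorem mom_gi_eq (k : ℕ) : gi k =
    (1 / 2 : ℝ) ^ (-((k : ℝ) + 1) / 2) * (1 / 2) * Real.Gamma (((k : ℝ) + 1) / 2) := by
  have hk : (-1 : ℝ) < (k : ℝ) := by
    have : (0 : ℝ) ≤ (k : ℝ) := Nat.cast_nonneg k
    linarith
  have h1 := integral_rpow_mul_exp_neg_mul_rpow (p := 2) (q := (k : ℝ)) (b := 1 / 2)
    two_pos hk (by norm_num)
  rw [← h1, gi]
  refine setIntegral_congr_fun measurableSet_Ioi fun r _ => ?_
  change r ^ k * Real.exp (-(r ^ 2 / 2)) = r ^ (k : ℝ) * Real.exp (-(1 / 2) * r ^ (2 : ℝ))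
  rw [Real.rpow_natCast, Real.rpow_two]
  congr 2
  ring

theorem gi_integrable (k : ℕ) :
    IntegrableOn (fun r : ℝ => r ^ k * Real.exp (-(r ^ 2 / 2))) (Ioi 0) := by
  have hk : (-1 : ℝ) < (k : ℝ) := by
    have : (0 : ℝ) ≤ (k : ℝ) := Nat.cast_nonneg k
    linarith
  have h1 := integrable_rpow_mul_exp_neg_mul_sq (b := 1 / 2) (by norm_num) hk
  refine (h1.congr (Filter.Eventually.of_forall fun r => ?_)).integrableOn
  change r ^ (k : ℝ) * Real.exp (-(1 / 2) * r ^ 2) = r ^ k * Real.exp (-(r ^ 2 / 2))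
  rw [Real.rpow_natCast]
  congr 2
  ring

theorem gi_pos (k : ℕ) : 0 < gi k := by
  have hk : (0 : ℝ) ≤ (k : ℝ) := Nat.cast_nonneg k
  rw [mom_gi_eq]
  have h1 : 0 < Real.Gamma (((k : ℝ) + 1) / 2) := Real.Gamma_pos_of_pos (by positivity)
  positivity

theorem gi_step (k : ℕ) : gi (k + 2) = (k + 1) * gi k := by
  have hk : (0 : ℝ) ≤ (k : ℝ) := Nat.cast_nonneg k
  rw [mom_gi_eq, mom_gi_eq]
  have h1 : (((k + 2 : ℕ) : ℝ) + 1) / 2 = ((k : ℝ) + 1) / 2 + 1 := by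
    push_cast
    ring
  have h2 : -(((k + 2 : ℕ) : ℝ) + 1) / 2 = -((k : ℝ) + 1) / 2 + (-1) := by
    push_cast
    ring
  have h3 : ((k : ℝ) + 1) / 2 ≠ 0 := by positivity
  rw [h1, h2, Real.Gamma_add_one h3, Real.rpow_add (by norm_num : (0 : ℝ) < 1 / 2),
    Real.rpow_neg_one]
  ring

/-- Gaussian polar coordinates. -/
theorem gam_polar {Ψ : V → ℝ} (h : Hom0 Ψ) {v : ℝ → ℝ} (hv : Measurable v)
    (hvi : IntegrableOn (fun r => v r * Real.exp (-(r ^ 2 / 2)) * r ^ 2) (Ioi 0)) :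
    Integrable (fun y : V => Ψ y * v ‖y‖) (gam 3) ∧
      ∫ y : V, Ψ y * v ‖y‖ ∂(gam 3) =
        gc * (∫ r in Ioi (0 : ℝ), v r * Real.exp (-(r ^ 2 / 2)) * r ^ 2) * bi Ψ := by
  have hc0 : 0 < (2 * Real.pi) ^ (-((3 : ℝ) / 2)) := Real.rpow_pos_of_pos (by positivity) _
  obtain ⟨c, hc⟩ : ∃ c : ℝ, c = (2 * Real.pi) ^ (-((3 : ℝ) / 2)) := ⟨_, rfl⟩
  rw [← hc] at hc0
  have hgc : gc = 3 * c := by rw [hc, gc]
  have hw : Measurable (fun r : ℝ => c * (v r * Real.exp (-(r ^ 2 / 2)))) := by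
    have h1 : Measurable (fun r : ℝ => Real.exp (-(r ^ 2 / 2))) := by fun_prop
    exact (hv.mul h1).const_mul c
  have hwi : IntegrableOn (fun r : ℝ => c * (v r * Real.exp (-(r ^ 2 / 2))) * r ^ 2) (Ioi 0) := by
    refine (hvi.const_mul c).congr (Filter.Eventually.of_forall fun r => ?_)
    change c * (v r * Real.exp (-(r ^ 2 / 2)) * r ^ 2) =
      c * (v r * Real.exp (-(r ^ 2 / 2))) * r ^ 2
    ring
  obtain ⟨h1, h2⟩ := h.polar hw hwi
  have h3 : ∫ r in Ioi (0 : ℝ), c * (v r * Real.exp (-(r ^ 2 / 2))) * r ^ 2 =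
      c * ∫ r in Ioi (0 : ℝ), v r * Real.exp (-(r ^ 2 / 2)) * r ^ 2 := by
    rw [← integral_const_mul]
    refine integral_congr_ae (Filter.Eventually.of_forall fun r => ?_)
    change c * (v r * Real.exp (-(r ^ 2 / 2))) * r ^ 2 =
      c * (v r * Real.exp (-(r ^ 2 / 2)) * r ^ 2)
    ring
  have hd : Measurable (fun x : V => ENNReal.ofReal (c * Real.exp (-(‖x‖ ^ 2 / 2)))) := by
    fun_prop
  have hg : gam 3 = (volume : Measure V).withDensity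
      (fun x => ENNReal.ofReal (c * Real.exp (-(‖x‖ ^ 2 / 2)))) := by
    rw [gam_eq 3, hc, Nat.cast_ofNat]
  have hlt : ∀ᵐ x : V, ENNReal.ofReal (c * Real.exp (-(‖x‖ ^ 2 / 2))) < ⊤ :=
    Filter.Eventually.of_forall fun x => ENNReal.ofReal_lt_top
  have hpt : ∀ y : V, (ENNReal.ofReal (c * Real.exp (-(‖y‖ ^ 2 / 2)))).toReal •
      (Ψ y * v ‖y‖) = Ψ y * (c * (v ‖y‖ * Real.exp (-(‖y‖ ^ 2 / 2)))) := by
    intro y
    rw [ENNReal.toReal_ofReal (by positivity), smul_eq_mul]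
    ring
  rw [hg]
  refine ⟨?_, ?_⟩
  · rw [integrable_withDensity_iff_integrable_smul' hd hlt]
    exact h1.congr (Filter.Eventually.of_forall fun y => (hpt y).symm)
  · rw [integral_withDensity_eq_integral_toReal_smul hd hlt,
      integral_congr_ae (Filter.Eventually.of_forall hpt), h2, h3, hgc]
    ring

theorem gam_pow {Ψ : V → ℝ} (h : Hom0 Ψ) (k : ℕ) :
    Integrable (fun y : V => Ψ y * ‖y‖ ^ k) (gam 3) ∧
      ∫ y : V, Ψ y * ‖y‖ ^ k ∂(gam 3) = gc * gi (k + 2) * bi Ψ := by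
  have h1 : ∀ r : ℝ, r ^ (k + 2) * Real.exp (-(r ^ 2 / 2)) =
      r ^ k * Real.exp (-(r ^ 2 / 2)) * r ^ 2 := by
    intro r
    ring
  have h2 : IntegrableOn (fun r : ℝ => r ^ k * Real.exp (-(r ^ 2 / 2)) * r ^ 2) (Ioi 0) :=
    (gi_integrable (k + 2)).congr (Filter.Eventually.of_forall h1)
  have h3 : gi (k + 2) = ∫ r in Ioi (0 : ℝ), r ^ k * Real.exp (-(r ^ 2 / 2)) * r ^ 2 :=
    integral_congr_ae (Filter.Eventually.of_forall h1)
  rw [h3]
  exact gam_polar h (v := fun r => r ^ k) (measurable_id.pow_const k) h2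

end Pool.Agent.Lib.MP_e62723_gt.TD
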