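import Pool.Agent.Lib.MP_e62723_gt.TD.Mom
import Pool.Agent.Lib.MP_e62723_gt.TD.Hom

/-!
# JOB Orth: the truncated functions are orthogonal to polynomials of low degree

`phi p f y = ‖y‖^(2p) f y` (homogeneous of degree `2p+1`), `phiK k p f` its truncation to the ball
of radius `k`.
`phiK_meas`: `f` is continuous (`Reg.cont`), the ball is measurable.
`phiK_bdd`: `|f y| ≤ B ‖y‖`, so `|phiK| ≤ k^(2p) B k`.
`phiK_orth`: for `s > 0`:
`phiK k p f (s • z) * ⟪x,z⟫^j = Ψ z * v ‖z‖` with `Ψ z = (f z/‖z‖) (⟪x,z⟫/‖z‖)^j` and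
`v r = if s r ≤ k then (s r)^(2p) * s * r * r^j else 0` (`f (s • z) = s f z`, `‖s • z‖ = s ‖z‖`;
for `z = 0` both sides are `0`, as `f 0 = 0` and `f 0/‖0‖ = 0`). By `gam_polar` the integral is
`gc * (...) * bi Ψ = 0` by `horth` (`v` is bounded with bounded support, so the integrability
condition holds). `Ψ` is `Hom0`: `hom0_f`, `hom0_inner`, `Hom0.pow`, `Hom0.mul`.
-/

open MeasureTheory ProbabilityTheory Set

namespace Pool.Agent.Lib.MP_e62723_gt.TD

open Pool.Agent.Lib.MP_e62723_gt.Asy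

/-- `‖y‖^(2p) f(y)`. -/
noncomputable def phi (p : ℕ) (f : V → ℝ) (y : V) : ℝ := ‖y‖ ^ (2 * p) * f y

open Classical in
/-- The truncation of `phi p f` to the closed ball of radius `k`. -/
noncomputable def phiK (k : ℝ) (p : ℕ) (f : V → ℝ) (y : V) : ℝ :=
  if ‖y‖ ≤ k then phi p f y else 0

variable {C : ℝ} {f : V → ℝ} {F : V → V}

theorem Reg.phiK_meas (h : Reg C f F) (k : ℝ) (p : ℕ) : Measurable (phiK k p f) := by
  classical
  have h1 : Measurable (phi p f) := by
    have h2 : Continuous (phi p f) := by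
      unfold phi
      exact (continuous_norm.pow (2 * p)).mul h.cont
    exact h2.measurable
  exact Measurable.ite (measurableSet_le measurable_norm measurable_const) h1 measurable_const

theorem Reg.phiK_bdd (h : Reg C f F) {k : ℝ} (hk : 0 < k) (p : ℕ) :
    ∃ D : ℝ, ∀ y, |phiK k p f y| ≤ D := by
  obtain ⟨B, hB0, hB⟩ := h.bound
  refine ⟨k ^ (2 * p) * (B * k), fun y => ?_⟩
  unfold phiK
  split_ifs with hy
  · unfold phi
    rw [abs_mul, abs_of_nonneg (by positivity)]
    refine mul_le_mul (pow_le_pow_left₀ (norm_nonneg y) hy _) ?_ (abs_nonneg _) (by positivity)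
    exact (h.abs_le hB y).trans (mul_le_mul_of_nonneg_left hy hB0)
  · rw [abs_zero]
    positivity

theorem Reg.phiK_orth (h : Reg C f F) {m : ℕ}
    (horth : ∀ x : V, ∀ j < m, bi (fun y => f y / ‖y‖ * (inner ℝ x y / ‖y‖) ^ j) = 0)
    {k : ℝ} (hk : 0 < k) (p : ℕ) (s : ℝ) (hs : 0 < s) (x : V) (j : ℕ) (hj : j < m) :
    ∫ z : V, phiK k p f (s • z) * (inner ℝ x z) ^ j ∂(gam 3) = 0 := by
  classical
  let c : ℝ → ℝ := fun r => (s * r) ^ (2 * p) * s * r * r ^ j
  let v : ℝ → ℝ := fun r => if s * r ≤ k then c r else 0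
  have hΨ : Hom0 (fun z : V => f z / ‖z‖ * (inner ℝ x z / ‖z‖) ^ j) :=
    h.hom0_f.mul ((hom0_inner x).pow j)
  have hcc : Continuous c := by
    simp only [c]
    fun_prop
  have hv : Measurable v :=
    Measurable.ite (measurableSet_le (by fun_prop) measurable_const) hcc.measurable
      measurable_const
  have hvi : IntegrableOn (fun r => v r * Real.exp (-(r ^ 2 / 2)) * r ^ 2) (Ioi 0) := by
    have h1 : Continuous (fun r : ℝ => c r * Real.exp (-(r ^ 2 / 2)) * r ^ 2) := by
      fun_prop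
    have h2 : IntegrableOn (fun r : ℝ => c r * Real.exp (-(r ^ 2 / 2)) * r ^ 2)
        (Icc 0 (k / s)) := h1.continuousOn.integrableOn_Icc
    have h3 := h2.integrable_indicator measurableSet_Icc
    refine (h3.integrableOn (s := Ioi 0)).congr_fun (fun r hr => ?_) measurableSet_Ioi
    have hr0 : 0 ≤ r := le_of_lt hr
    by_cases hrk : s * r ≤ k
    · have h4 : r ∈ Icc 0 (k / s) := ⟨hr0, by
        rw [le_div_iff₀ hs]
        linarith⟩
      rw [indicator_of_mem h4]
      simp only [v, if_pos hrk]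
    · have h4 : r ∉ Icc 0 (k / s) := fun h5 => hrk (by
        have h6 := h5.2
        rw [le_div_iff₀ hs] at h6
        linarith)
      rw [indicator_of_notMem h4]
      simp only [v, if_neg hrk, zero_mul]
  have hfun : (fun z : V => phiK k p f (s • z) * (inner ℝ x z) ^ j) =
      fun z : V => (f z / ‖z‖ * (inner ℝ x z / ‖z‖) ^ j) * v ‖z‖ := by
    funext z
    have hns : ‖s • z‖ = s * ‖z‖ := by rw [norm_smul, Real.norm_eq_abs, abs_of_pos hs]
    rcases eq_or_ne z 0 with hz | hz
    · subst hz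
      have h5 : phiK k p f (s • (0 : V)) = 0 := by
        unfold phiK phi
        rw [smul_zero, h.f_zero, mul_zero, ite_self]
      rw [h5, h.f_zero, zero_mul, zero_div, zero_mul, zero_mul]
    · have hz0 : ‖z‖ ≠ 0 := norm_ne_zero_iff.2 hz
      simp only [phiK, v]
      rw [hns]
      by_cases hk' : s * ‖z‖ ≤ k
      · rw [if_pos hk', if_pos hk']
        simp only [phi, c]
        rw [hns, h.hom s z hs, div_pow]
        field_simp
      · rw [if_neg hk', if_neg hk', zero_mul, mul_zero]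
  rw [hfun, (gam_polar hΨ hv hvi).2, horth x j hj, mul_zero]

end Pool.Agent.Lib.MP_e62723_gt.TD
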