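import Pool.Agent.Lib.MP_e62723_gt.Asy.Noise
import Pool.Agent.Lib.MP_e62723_gt.TD.Defs

/-!
# JOB Path: `E|Φ(X) - Φ(cos θ X + sin θ Z)|² ≤ θ² E‖∇Φ‖²`

`Φ : E n → ℝ` differentiable with continuous gradient `G`, polynomial growth
`‖G x‖ ≤ D (1 + ‖x‖)^k`.
(1) For `t` real let `X_t = cos t • x + sin t • z`, `Y_t = -sin t • x + cos t • z = X_t'`. The
function `t ↦ Φ(X_t)` has derivative `⟪G(X_t), Y_t⟫`, continuous, so
`Φ(X_θ) - Φ(x) = ∫_0^θ ⟪G(X_t), Y_t⟫ dt` and, for `θ > 0`, by Cauchy-Schwarz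
`(Φ(X_θ) - Φ(x))² ≤ θ ∫_0^θ ⟪G(X_t), Y_t⟫² dt` (for a continuous `u` on `[0,θ]`:
`(∫ u)² ≤ θ ∫ u²`; e.g. from `0 ≤ ∫ (u - m)²`, `m = (∫ u)/θ`).
(2) Integrate over `(x,z)` for `γ⊗γ`, exchange the integrals (Tonelli or Fubini; everything is
dominated by `C' (1 + ‖x‖ + ‖z‖)^(2k+2)`, which is `γ⊗γ`-integrable: all moments of a Gaussian
measure are finite, `IsGaussian.memLp_id`, `IsGaussian.memLp_...`; it may be easier to work with
`lintegral`s of `ENNReal.ofReal`), and for each `t` by rotation invariance (`Asy.map_rot`, with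
`a = cos t`, `b = sin t`): `∫ ⟪G(X_t), Y_t⟫² d(γ⊗γ) = ∫ ⟪G(x), z⟫² d(γ⊗γ)(x,z)`, and
`∫ ⟪g, z⟫² dγ(z) = ‖g‖²` (variance of the standard Gaussian; coordinates: `Asy/Coord.lean`
`integral_coord_mul`; or `covariance`...). So the total is `≤ θ · θ · ∫ ‖G x‖² dγ`.
Integrability of the left-hand side is part of the claim (it follows from the growth bound:
`|Φ x| ≤ |Φ 0| + D (1 + ‖x‖)^k ‖x‖`).
-/

open MeasureTheory ProbabilityTheory Set

namespace Pool.Agent.Lib.MP_e62723_gt.TD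

open Pool.Agent.Lib.MP_e62723_gt.Asy

variable {n : ℕ}

private theorem path_var (g : E n) : ∫ z : E n, (inner ℝ g z : ℝ) ^ 2 ∂(gam n) = ‖g‖ ^ 2 := by
  have h1 : MemLp (id : E n → E n) 2 (gam n) := IsGaussian.memLp_two_id
  have h2 := covarianceBilin_apply h1 g g
  have h0 : ∫ x, id x ∂(gam n) = (0 : E n) := integral_id_stdGaussian
  rw [h0, covarianceBilin_stdGaussian] at h2
  simp only [sub_zero] at h2
  rw [innerSL_apply_apply, real_inner_self_eq_norm_sq] at h2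
  rw [h2]
  refine integral_congr_ae (Filter.Eventually.of_forall fun z => ?_)
  show (inner ℝ g z : ℝ) ^ 2 = inner ℝ g z * inner ℝ g z
  ring

private theorem path_cs {u : ℝ → ℝ} (hu : Continuous u) {θ : ℝ} (hθ : 0 < θ) :
    (∫ t in (0 : ℝ)..θ, u t) ^ 2 ≤ θ * ∫ t in (0 : ℝ)..θ, (u t) ^ 2 := by
  set I : ℝ := ∫ t in (0 : ℝ)..θ, u t with hI
  have h1 : 0 ≤ ∫ t in (0 : ℝ)..θ, (u t - I / θ) ^ 2 :=
    intervalIntegral.integral_nonneg hθ.le (fun t _ => sq_nonneg _)
  have h2 : ∫ t in (0 : ℝ)..θ, (u t - I / θ) ^ 2 =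
      ∫ t in (0 : ℝ)..θ, ((u t) ^ 2 - (2 * (I / θ)) * u t + (I / θ) ^ 2) := by
    apply intervalIntegral.integral_congr
    intro t _
    show (u t - I / θ) ^ 2 = (u t) ^ 2 - (2 * (I / θ)) * u t + (I / θ) ^ 2
    ring
  have i1 : IntervalIntegrable (fun t => (u t) ^ 2) volume 0 θ := (hu.pow 2).intervalIntegrable _ _
  have i2 : IntervalIntegrable (fun t => (2 * (I / θ)) * u t) volume 0 θ :=
    (continuous_const.mul hu).intervalIntegrable _ _
  have i3 : IntervalIntegrable (fun _ : ℝ => (I / θ) ^ 2) volume 0 θ :=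
    continuous_const.intervalIntegrable _ _
  rw [h2, intervalIntegral.integral_add (i1.sub i2) i3, intervalIntegral.integral_sub i1 i2,
    intervalIntegral.integral_const_mul, intervalIntegral.integral_const, ← hI, sub_zero,
    smul_eq_mul] at h1
  have h3 : 2 * (I / θ) * I = 2 * (I ^ 2 / θ) := by ring
  have h4 : θ * (I / θ) ^ 2 = I ^ 2 / θ := by
    have := hθ.ne'
    field_simp
  rw [h3, h4] at h1
  have h5 : I ^ 2 / θ ≤ ∫ t in (0 : ℝ)..θ, (u t) ^ 2 := by linarith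
  rw [div_le_iff₀ hθ] at h5
  linarith

private noncomputable def path_u (G : E n → E n) (q : E n × E n) (t : ℝ) : ℝ :=
  inner ℝ (G (Real.cos t • q.1 + Real.sin t • q.2)) (-Real.sin t • q.1 + Real.cos t • q.2)

private theorem path_u_cont {G : E n → E n} (hG : Continuous G) :
    Continuous (fun p : (E n × E n) × ℝ => path_u G p.1 p.2) := by
  unfold path_u
  apply Continuous.inner
  · apply hG.comp
    fun_prop
  · fun_prop

private theorem path_ftc {Φ : E n → ℝ} {G : E n → E n} (hG : Continuous G)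
    (hd : ∀ x, HasFDerivAt Φ (innerSL ℝ (G x)) x) (q : E n × E n) (θ : ℝ) :
    ∫ t in (0 : ℝ)..θ, path_u G q t =
      Φ (Real.cos θ • q.1 + Real.sin θ • q.2) - Φ q.1 := by
  have hder : ∀ t : ℝ, HasDerivAt (fun t : ℝ => Φ (Real.cos t • q.1 + Real.sin t • q.2))
      (path_u G q t) t := by
    intro t
    have h1 : HasDerivAt (fun t : ℝ => Real.cos t • q.1 + Real.sin t • q.2)
        (-Real.sin t • q.1 + Real.cos t • q.2) t :=
      ((Real.hasDerivAt_cos t).smul_const q.1).add ((Real.hasDerivAt_sin t).smul_const q.2)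
    have h2 := (hd (Real.cos t • q.1 + Real.sin t • q.2)).comp_hasDerivAt t h1
    exact h2
  have h5 : Continuous (fun t : ℝ => (q, t)) := Continuous.prodMk_right q
  have h6 := (path_u_cont hG).comp h5
  have hc : Continuous (fun t : ℝ => path_u G q t) := h6
  have h3 := intervalIntegral.integral_eq_sub_of_hasDerivAt (f := fun t : ℝ =>
    Φ (Real.cos t • q.1 + Real.sin t • q.2)) (f' := fun t => path_u G q t) (a := 0) (b := θ)
    (fun t _ => hder t) (hc.intervalIntegrable _ _)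
  rw [h3]
  show Φ (Real.cos θ • q.1 + Real.sin θ • q.2) - Φ (Real.cos 0 • q.1 + Real.sin 0 • q.2) = _
  rw [Real.cos_zero, Real.sin_zero, one_smul, zero_smul, add_zero]

private theorem path_lin_le (x z : E n) {a b : ℝ} (ha : |a| ≤ 1) (hb : |b| ≤ 1) :
    ‖a • x + b • z‖ ≤ ‖x‖ + ‖z‖ := by
  refine (norm_add_le _ _).trans ?_
  rw [norm_smul, norm_smul, Real.norm_eq_abs, Real.norm_eq_abs]
  have h1 : |a| * ‖x‖ ≤ 1 * ‖x‖ := mul_le_mul_of_nonneg_right ha (norm_nonneg _)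
  have h2 : |b| * ‖z‖ ≤ 1 * ‖z‖ := mul_le_mul_of_nonneg_right hb (norm_nonneg _)
  linarith

private theorem path_u_le {G : E n → E n} {D : ℝ} {k : ℕ}
    (hgr : ∀ x, ‖G x‖ ≤ D * (1 + ‖x‖) ^ k) (q : E n × E n) (t : ℝ) :
    (path_u G q t) ^ 2 ≤ D ^ 2 * (1 + 2 * ‖q‖) ^ (2 * k + 2) := by
  have hD : 0 ≤ D := by
    have h1 := (norm_nonneg _).trans (hgr 0)
    rw [norm_zero, add_zero, one_pow, mul_one] at h1
    exact h1
  have hq1 : ‖q.1‖ ≤ ‖q‖ := norm_fst_le q
  have hq2 : ‖q.2‖ ≤ ‖q‖ := norm_snd_le q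
  have hX : ‖Real.cos t • q.1 + Real.sin t • q.2‖ ≤ 2 * ‖q‖ := by
    have h1 := path_lin_le q.1 q.2 (Real.abs_cos_le_one t) (Real.abs_sin_le_one t)
    linarith
  have hY : ‖-Real.sin t • q.1 + Real.cos t • q.2‖ ≤ 2 * ‖q‖ := by
    have h1 := path_lin_le q.1 q.2 (a := -Real.sin t) (b := Real.cos t)
      (by rw [abs_neg]; exact Real.abs_sin_le_one t) (Real.abs_cos_le_one t)
    linarith
  have h1 : |path_u G q t| ≤ ‖G (Real.cos t • q.1 + Real.sin t • q.2)‖ *
      ‖-Real.sin t • q.1 + Real.cos t • q.2‖ := abs_real_inner_le_norm _ _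
  have hn : 0 ≤ ‖q‖ := norm_nonneg q
  have h2 : ‖G (Real.cos t • q.1 + Real.sin t • q.2)‖ ≤ D * (1 + 2 * ‖q‖) ^ k := by
    refine (hgr _).trans ?_
    apply mul_le_mul_of_nonneg_left _ hD
    apply pow_le_pow_left₀ (by positivity)
    linarith
  have h3 : |path_u G q t| ≤ D * (1 + 2 * ‖q‖) ^ k * (1 + 2 * ‖q‖) := by
    refine h1.trans (mul_le_mul h2 (by linarith) (norm_nonneg _) (by positivity))
  have h4 : (path_u G q t) ^ 2 = |path_u G q t| ^ 2 := (sq_abs _).symm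
  rw [h4]
  refine (pow_le_pow_left₀ (abs_nonneg _) h3 2).trans (le_of_eq ?_)
  ring

private theorem path_bd_int (m : ℕ) :
    Integrable (fun q : E n × E n => (1 + 2 * ‖q‖) ^ m) ((gam n).prod (gam n)) := by
  rcases Nat.eq_zero_or_pos m with hm | hm
  · subst hm
    simp
  · have h1 : MemLp (id : E n × E n → E n × E n) m ((gam n).prod (gam n)) :=
      IsGaussian.memLp_id _ _ (by simp)
    have h2 : MemLp (fun q : E n × E n => 1 + 2 * ‖q‖) m ((gam n).prod (gam n)) :=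
      (memLp_const (1 : ℝ)).add (h1.norm.const_mul 2)
    have h3 := h2.integrable_norm_pow hm.ne'
    refine h3.congr (Filter.Eventually.of_forall fun q => ?_)
    show ‖1 + 2 * ‖q‖‖ ^ m = (1 + 2 * ‖q‖) ^ m
    rw [Real.norm_eq_abs, abs_of_nonneg (by positivity)]

private theorem path_slice {G : E n → E n} (hG : Continuous G) {D : ℝ} {k : ℕ}
    (hgr : ∀ x, ‖G x‖ ≤ D * (1 + ‖x‖) ^ k) (t : ℝ) :
    ∫ q : E n × E n, (path_u G q t) ^ 2 ∂((gam n).prod (gam n)) = ∫ x, ‖G x‖ ^ 2 ∂(gam n) := by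
  have hrot := map_rot n (a := Real.cos t) (b := Real.sin t) (by rw [add_comm]; exact Real.sin_sq_add_cos_sq t)
  have hc0 : Continuous (fun q : E n × E n => (inner ℝ (G q.1) q.2 : ℝ) ^ 2) :=
    ((hG.comp continuous_fst).inner continuous_snd).pow 2
  have hm : Measurable (fun q : E n × E n =>
      (Real.cos t • q.1 + Real.sin t • q.2, -Real.sin t • q.1 + Real.cos t • q.2)) := by
    fun_prop
  have h1 := integral_map (μ := (gam n).prod (gam n)) hm.aemeasurable
    (f := fun q : E n × E n => (inner ℝ (G q.1) q.2 : ℝ) ^ 2) hc0.aestronglyMeasurable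
  rw [hrot] at h1
  have h2 : ∫ q : E n × E n, (path_u G q t) ^ 2 ∂((gam n).prod (gam n)) =
      ∫ q : E n × E n, (inner ℝ (G q.1) q.2 : ℝ) ^ 2 ∂((gam n).prod (gam n)) := h1.symm
  rw [h2]
  have hint : Integrable (fun q : E n × E n => (inner ℝ (G q.1) q.2 : ℝ) ^ 2)
      ((gam n).prod (gam n)) := by
    refine ((path_bd_int (n := n) (2 * k + 2)).const_mul (D ^ 2)).mono'
      hc0.aestronglyMeasurable (Filter.Eventually.of_forall fun q => ?_)
    rw [Real.norm_eq_abs, abs_of_nonneg (sq_nonneg _)]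
    have h3 := path_u_le hgr q 0
    unfold path_u at h3
    rw [Real.cos_zero, Real.sin_zero, one_smul, zero_smul, add_zero, neg_zero, zero_smul, one_smul,
      zero_add] at h3
    exact h3
  rw [integral_prod _ hint]
  refine integral_congr_ae (Filter.Eventually.of_forall fun x => ?_)
  exact path_var (G x)

theorem path {Φ : E n → ℝ} {G : E n → E n} (hG : Continuous G)
    (hd : ∀ x, HasFDerivAt Φ (innerSL ℝ (G x)) x) {D : ℝ} {k : ℕ}
    (hgr : ∀ x, ‖G x‖ ≤ D * (1 + ‖x‖) ^ k) {θ : ℝ} (hθ : 0 < θ) :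
    Integrable (fun q : E n × E n =>
        (Φ (Real.cos θ • q.1 + Real.sin θ • q.2) - Φ q.1) ^ 2) ((gam n).prod (gam n)) ∧
      ∫ q : E n × E n, (Φ (Real.cos θ • q.1 + Real.sin θ • q.2) - Φ q.1) ^ 2
        ∂((gam n).prod (gam n)) ≤ θ ^ 2 * ∫ x, ‖G x‖ ^ 2 ∂(gam n) := by
  have hucont := path_u_cont hG
  have hW : Integrable (fun p : (E n × E n) × ℝ => (path_u G p.1 p.2) ^ 2)
      (((gam n).prod (gam n)).prod (volume.restrict (Ioc (0 : ℝ) θ))) := by
    have h1 : Integrable (fun p : (E n × E n) × ℝ => D ^ 2 * (1 + 2 * ‖p.1‖) ^ (2 * k + 2))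
        (((gam n).prod (gam n)).prod (volume.restrict (Ioc (0 : ℝ) θ))) :=
      ((path_bd_int (n := n) (2 * k + 2)).const_mul (D ^ 2)).comp_fst _
    refine h1.mono' (hucont.pow 2).aestronglyMeasurable (Filter.Eventually.of_forall fun p => ?_)
    rw [Real.norm_eq_abs, abs_of_nonneg (sq_nonneg _)]
    exact path_u_le hgr p.1 p.2
  have hint2 : Integrable (fun q : E n × E n => ∫ t in Ioc (0 : ℝ) θ, (path_u G q t) ^ 2)
      ((gam n).prod (gam n)) := hW.integral_prod_left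
  have hpt : ∀ q : E n × E n, (Φ (Real.cos θ • q.1 + Real.sin θ • q.2) - Φ q.1) ^ 2 ≤
      θ * ∫ t in Ioc (0 : ℝ) θ, (path_u G q t) ^ 2 := by
    intro q
    have h5 : Continuous (fun t : ℝ => (q, t)) := Continuous.prodMk_right q
    have h6 := hucont.comp h5
    have hc : Continuous (fun t : ℝ => path_u G q t) := h6
    have h1 := path_cs hc hθ
    rw [path_ftc hG hd q θ, intervalIntegral.integral_of_le hθ.le] at h1
    exact h1
  have hcΦ : Continuous Φ := continuous_iff_continuousAt.2 (fun x => (hd x).continuousAt)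
  have hcL : Continuous (fun q : E n × E n =>
      (Φ (Real.cos θ • q.1 + Real.sin θ • q.2) - Φ q.1) ^ 2) := by
    apply Continuous.pow
    apply Continuous.sub
    · apply hcΦ.comp
      fun_prop
    · exact hcΦ.comp continuous_fst
  have hintL : Integrable (fun q : E n × E n =>
      (Φ (Real.cos θ • q.1 + Real.sin θ • q.2) - Φ q.1) ^ 2) ((gam n).prod (gam n)) := by
    refine (hint2.const_mul θ).mono' hcL.aestronglyMeasurable
      (Filter.Eventually.of_forall fun q => ?_)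
    rw [Real.norm_eq_abs, abs_of_nonneg (sq_nonneg _)]
    exact hpt q
  refine ⟨hintL, ?_⟩
  have h1 := integral_mono hintL (hint2.const_mul θ) hpt
  refine h1.trans (le_of_eq ?_)
  rw [integral_const_mul, integral_integral_swap hW]
  have h2 : ∀ t : ℝ, ∫ q : E n × E n, (path_u G q t) ^ 2 ∂((gam n).prod (gam n)) =
      ∫ x, ‖G x‖ ^ 2 ∂(gam n) := fun t => path_slice hG hgr t
  simp_rw [h2]
  rw [integral_const, measureReal_restrict_apply MeasurableSet.univ, Set.univ_inter,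
    Real.volume_real_Ioc_of_le hθ.le, sub_zero, smul_eq_mul]
  ring

end Pool.Agent.Lib.MP_e62723_gt.TD
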