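import Pool.Agent.Lib.MP_e62723_gt.TD.Der

/-!
# JOB Pol: polar coordinates for functions homogeneous of degree zero

`intBall`: bounded and measurable on a set of finite measure (`Integrable.of_bound`,
`Measure.restrict`).
`polar`: polar coordinates in `ℝ³`: compare the private theorem `polarA_lintegral` of
`Pool/Agent/Lib/MP_e62723_gt/Polar.lean` (proof by
`Measure.measurePreserving_homeomorphUnitSphereProd`, with `Measure.toSphere`,
`Measure.volumeIoiPow (n - 1)`); its proof may be copied, for Bochner integrals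
(`MeasurePreserving.integral_comp`, `MeasurePreserving.integrable_comp`, the homeomorphism is a
measurable embedding; `integral_prod_mul`, `Integrable.mul_prod`). For every measurable `w` with
`w(r) r²` integrable on `(0,∞)`:
`∫ Ψ(y) w(‖y‖) dy = (∫_S Ψ dσ) * ∫_0^∞ w(r) r² dr`, `Ψ(rθ) = Ψ(θ)`, `‖rθ‖ = r`. The integral for
`Measure.volumeIoiPow 2` is `∫ r in Ioi 0, w r * r ^ 2` (it is
`(volume.comap Subtype.val).withDensity (fun r => ENNReal.ofReal (r.1 ^ 2))`;
`integral_withDensity_eq_integral_toReal_smul`, `integral_subtype_comap` or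
`integral_subtype_comap measurableSet_Ioi`).
For `w = indicator of (-∞,1)`: `bi Ψ = (∫_S Ψ dσ) * ∫_0^1 r² dr = (∫_S Ψ dσ)/3`. Eliminate
`∫_S Ψ dσ`.
Closure properties: immediate.
-/

open MeasureTheory Set

namespace Pool.Agent.Lib.MP_e62723_gt.TD

private theorem pol_aux {Ψ : V → ℝ} (h : Hom0 Ψ) {w : ℝ → ℝ}
    (hwi : IntegrableOn (fun r => w r * r ^ 2) (Ioi 0)) :
    Integrable (fun y : V => Ψ y * w ‖y‖) ∧
      ∫ y : V, Ψ y * w ‖y‖ =
        (∫ θ : Metric.sphere (0 : V) 1, Ψ θ.1 ∂((volume : Measure V).toSphere)) *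
        ∫ r in Ioi (0 : ℝ), w r * r ^ 2 := by
  have hd : Module.finrank ℝ V - 1 = 2 := by simp
  have hmp := (volume : Measure V).measurePreserving_homeomorphUnitSphereProd
  rw [hd] at hmp
  have hemb := (homeomorphUnitSphereProd V).measurableEmbedding
  have hcomp : ∀ x : ({0}ᶜ : Set V), Ψ x.1 * w ‖x.1‖ =
      (fun p : Metric.sphere (0 : V) 1 × Ioi (0 : ℝ) => Ψ p.1.1 * w p.2.1)
        (homeomorphUnitSphereProd V x) := by
    intro x
    have hx : x.1 ≠ 0 := x.2
    show _ = Ψ (homeomorphUnitSphereProd V x).1.1 * w (homeomorphUnitSphereProd V x).2.1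
    rw [homeomorphUnitSphereProd_apply_fst_coe, homeomorphUnitSphereProd_apply_snd_coe,
      h.hom _ _ (inv_pos.2 (norm_pos_iff.2 hx))]
  have hsph : Integrable (fun θ : Metric.sphere (0 : V) 1 => Ψ θ.1)
      ((volume : Measure V).toSphere) := by
    obtain ⟨B, hB⟩ := h.bdd
    refine Integrable.of_bound (h.meas.comp measurable_subtype_coe).aestronglyMeasurable B ?_
    exact Filter.Eventually.of_forall fun θ => hB θ.1
  have hrad : Integrable (fun r : Ioi (0 : ℝ) => w r.1) (Measure.volumeIoiPow 2) := by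
    rw [Measure.volumeIoiPow, integrable_withDensity_iff_integrable_smul' (by fun_prop)
      (Filter.Eventually.of_forall fun _ => ENNReal.ofReal_lt_top)]
    rw [integrableOn_iff_comap_subtypeVal measurableSet_Ioi] at hwi
    refine hwi.congr (Filter.Eventually.of_forall fun r => ?_)
    have hr : (0 : ℝ) < r.1 := r.2
    show w r.1 * r.1 ^ 2 = (ENNReal.ofReal (r.1 ^ 2)).toReal • w r.1
    rw [ENNReal.toReal_ofReal (by positivity), smul_eq_mul, mul_comm]
  have hprod : Integrable (fun p : Metric.sphere (0 : V) 1 × Ioi (0 : ℝ) => Ψ p.1.1 * w p.2.1)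
      (((volume : Measure V).toSphere).prod (Measure.volumeIoiPow 2)) :=
    Integrable.mul_prod hsph hrad
  constructor
  · rw [← restrict_compl_singleton (μ := (volume : Measure V)) 0]
    show IntegrableOn (fun y : V => Ψ y * w ‖y‖) ({0}ᶜ : Set V) volume
    rw [integrableOn_iff_comap_subtypeVal (measurableSet_singleton (0 : V)).compl]
    have h1 := (hmp.integrable_comp_emb hemb (g := fun p : Metric.sphere (0 : V) 1 × Ioi (0 : ℝ) =>
      Ψ p.1.1 * w p.2.1)).2 hprod
    exact h1.congr (Filter.Eventually.of_forall fun x => (hcomp x).symm)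
  · have h1 : ∫ y : V, Ψ y * w ‖y‖ = ∫ y in ({0}ᶜ : Set V), Ψ y * w ‖y‖ := by
      rw [restrict_compl_singleton]
    rw [h1, ← integral_subtype_comap (measurableSet_singleton (0 : V)).compl
      (fun y : V => Ψ y * w ‖y‖)]
    rw [integral_congr_ae (Filter.Eventually.of_forall hcomp),
      hmp.integral_comp hemb (fun p : Metric.sphere (0 : V) 1 × Ioi (0 : ℝ) =>
        Ψ p.1.1 * w p.2.1), integral_prod_mul (fun θ : Metric.sphere (0 : V) 1 => Ψ θ.1)
      (fun r : Ioi (0 : ℝ) => w r.1)]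
    congr 1
    rw [Measure.volumeIoiPow, integral_withDensity_eq_integral_toReal_smul (by fun_prop)
      (Filter.Eventually.of_forall fun _ => ENNReal.ofReal_lt_top)]
    rw [integral_subtype_comap measurableSet_Ioi
      (fun r : ℝ => (ENNReal.ofReal (r ^ 2)).toReal • w r)]
    refine setIntegral_congr_fun measurableSet_Ioi fun r hr => ?_
    have hr' : (0 : ℝ) < r := hr
    show (ENNReal.ofReal (r ^ 2)).toReal • w r = w r * r ^ 2
    rw [ENNReal.toReal_ofReal (by positivity), smul_eq_mul, mul_comm]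

private theorem pol_bi {Ψ : V → ℝ} (h : Hom0 Ψ) :
    (∫ θ : Metric.sphere (0 : V) 1, Ψ θ.1 ∂((volume : Measure V).toSphere)) = 3 * bi Ψ := by
  have h2 : ∀ r : ℝ, (Iio (1 : ℝ)).indicator (fun _ => (1 : ℝ)) r * r ^ 2 =
      (Iio (1 : ℝ)).indicator (fun r => r ^ 2) r := by
    intro r
    by_cases hr : r ∈ Iio (1 : ℝ)
    · rw [indicator_of_mem hr, indicator_of_mem hr, one_mul]
    · rw [indicator_of_notMem hr, indicator_of_notMem hr, zero_mul]
  have hfun : (fun r : ℝ => (Iio (1 : ℝ)).indicator (fun _ => (1 : ℝ)) r * r ^ 2) =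
      (Iio (1 : ℝ)).indicator (fun r => r ^ 2) := funext h2
  have hI : IntegrableOn (fun r : ℝ => r ^ 2) (Iio 1 ∩ Ioi 0) := by
    refine IntegrableOn.mono_set ((continuous_pow 2).integrableOn_Icc (a := 0) (b := 1)) ?_
    rintro r ⟨hr1, hr2⟩
    exact ⟨le_of_lt hr2, le_of_lt hr1⟩
  have hwi : IntegrableOn (fun r : ℝ => (Iio (1 : ℝ)).indicator (fun _ => (1 : ℝ)) r * r ^ 2)
      (Ioi 0) := by
    rw [hfun, IntegrableOn, integrable_indicator_iff measurableSet_Iio, IntegrableOn,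
      Measure.restrict_restrict measurableSet_Iio]
    exact hI
  obtain ⟨-, h1⟩ := pol_aux h (w := (Iio (1 : ℝ)).indicator fun _ => (1 : ℝ)) hwi
  have h3 : ∫ r in Ioi (0 : ℝ), (Iio (1 : ℝ)).indicator (fun _ => (1 : ℝ)) r * r ^ 2 = 1 / 3 := by
    rw [hfun, integral_indicator measurableSet_Iio, Measure.restrict_restrict measurableSet_Iio]
    have h4 : Iio (1 : ℝ) ∩ Ioi 0 = Ioo 0 1 := by
      ext r
      simp only [mem_inter_iff, mem_Iio, mem_Ioi, mem_Ioo]
      exact and_comm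
    rw [h4, ← integral_Ioc_eq_integral_Ioo, ← intervalIntegral.integral_of_le zero_le_one,
      integral_pow]
    norm_num
  have h5 : ∫ y : V, Ψ y * (Iio (1 : ℝ)).indicator (fun _ => (1 : ℝ)) ‖y‖ = bi Ψ := by
    rw [bi, ← integral_indicator Metric.isOpen_ball.measurableSet]
    refine integral_congr_ae (Filter.Eventually.of_forall fun y => ?_)
    show Ψ y * (Iio (1 : ℝ)).indicator (fun _ => (1 : ℝ)) ‖y‖ = (Metric.ball (0 : V) 1).indicator Ψ y
    by_cases hy : ‖y‖ < 1
    · rw [indicator_of_mem (show ‖y‖ ∈ Iio (1 : ℝ) from hy),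
        indicator_of_mem (mem_ball_zero_iff.2 hy), mul_one]
    · rw [indicator_of_notMem (show ‖y‖ ∉ Iio (1 : ℝ) from hy),
        indicator_of_notMem (fun h' => hy (mem_ball_zero_iff.1 h')), mul_zero]
  rw [h5, h3] at h1
  linarith

theorem Hom0.intBall {Ψ : V → ℝ} (h : Hom0 Ψ) : IntegrableOn Ψ (Metric.ball (0 : V) 1) := by
  obtain ⟨B, hB⟩ := h.bdd
  have hfin : IsFiniteMeasure ((volume : Measure V).restrict (Metric.ball (0 : V) 1)) := by
    refine ⟨?_⟩
    rw [Measure.restrict_apply_univ]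
    exact measure_ball_lt_top
  exact Integrable.of_bound h.meas.aestronglyMeasurable B
    (Filter.Eventually.of_forall fun y => hB y)

/-- Polar coordinates. -/
theorem Hom0.polar {Ψ : V → ℝ} (h : Hom0 Ψ) {w : ℝ → ℝ} (hw : Measurable w)
    (hwi : IntegrableOn (fun r => w r * r ^ 2) (Ioi 0)) :
    Integrable (fun y : V => Ψ y * w ‖y‖) ∧
      ∫ y : V, Ψ y * w ‖y‖ = 3 * (∫ r in Ioi (0 : ℝ), w r * r ^ 2) * bi Ψ := by
  have _ := hw
  obtain ⟨h1, h2⟩ := pol_aux h hwi
  refine ⟨h1, ?_⟩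
  rw [h2, pol_bi h]
  ring

theorem Hom0.add {Ψ Θ : V → ℝ} (h : Hom0 Ψ) (h' : Hom0 Θ) : Hom0 (fun y => Ψ y + Θ y) := by
  obtain ⟨B, hB⟩ := h.bdd
  obtain ⟨B', hB'⟩ := h'.bdd
  refine ⟨h.meas.add h'.meas, fun t y ht => ?_, B + B', fun y => ?_⟩
  · show Ψ (t • y) + Θ (t • y) = Ψ y + Θ y
    rw [h.hom t y ht, h'.hom t y ht]
  · exact (abs_add_le _ _).trans (add_le_add (hB y) (hB' y))

theorem Hom0.sub {Ψ Θ : V → ℝ} (h : Hom0 Ψ) (h' : Hom0 Θ) : Hom0 (fun y => Ψ y - Θ y) := by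
  obtain ⟨B, hB⟩ := h.bdd
  obtain ⟨B', hB'⟩ := h'.bdd
  refine ⟨h.meas.sub h'.meas, fun t y ht => ?_, B + B', fun y => ?_⟩
  · show Ψ (t • y) - Θ (t • y) = Ψ y - Θ y
    rw [h.hom t y ht, h'.hom t y ht]
  · exact (abs_sub _ _).trans (add_le_add (hB y) (hB' y))

theorem Hom0.mul {Ψ Θ : V → ℝ} (h : Hom0 Ψ) (h' : Hom0 Θ) : Hom0 (fun y => Ψ y * Θ y) := by
  obtain ⟨B, hB⟩ := h.bdd
  obtain ⟨B', hB'⟩ := h'.bdd
  refine ⟨h.meas.mul h'.meas, fun t y ht => ?_, B * B', fun y => ?_⟩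
  · show Ψ (t • y) * Θ (t • y) = Ψ y * Θ y
    rw [h.hom t y ht, h'.hom t y ht]
  · show |Ψ y * Θ y| ≤ B * B'
    rw [abs_mul]
    exact mul_le_mul (hB y) (hB' y) (abs_nonneg _) ((abs_nonneg _).trans (hB y))

theorem Hom0.const (c : ℝ) : Hom0 (fun _ => c) := by
  exact ⟨measurable_const, fun _ _ _ => rfl, |c|, fun _ => le_refl _⟩

theorem Hom0.smul {Ψ : V → ℝ} (h : Hom0 Ψ) (c : ℝ) : Hom0 (fun y => c * Ψ y) := by
  exact (Hom0.const c).mul h

theorem Hom0.pow {Ψ : V → ℝ} (h : Hom0 Ψ) (k : ℕ) : Hom0 (fun y => Ψ y ^ k) := by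
  induction k with
  | zero =>
    have h0 : (fun y => Ψ y ^ 0) = fun _ => (1 : ℝ) := funext fun y => pow_zero _
    rw [h0]
    exact Hom0.const 1
  | succ k ih =>
    have h0 : (fun y => Ψ y ^ (k + 1)) = fun y => Ψ y ^ k * Ψ y := funext fun y => pow_succ _ _
    rw [h0]
    exact ih.mul h

/-- Odd functions have integral zero over the ball. -/
theorem bi_odd {Ψ : V → ℝ} (h : ∀ y, Ψ (-y) = -Ψ y) : bi Ψ = 0 := by
  have h1 : bi Ψ = ∫ y in Metric.ball (0 : V) 1, Ψ (-y) := by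
    rw [bi, ← integral_indicator Metric.isOpen_ball.measurableSet,
      ← integral_indicator Metric.isOpen_ball.measurableSet,
      ← integral_neg_eq_self ((Metric.ball (0 : V) 1).indicator Ψ) volume]
    refine integral_congr_ae (Filter.Eventually.of_forall fun y => ?_)
    show (Metric.ball (0 : V) 1).indicator Ψ (-y) =
      (Metric.ball (0 : V) 1).indicator (fun y => Ψ (-y)) y
    by_cases hy : ‖y‖ < 1
    · rw [indicator_of_mem (mem_ball_zero_iff.2 (by rwa [norm_neg])),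
        indicator_of_mem (mem_ball_zero_iff.2 hy)]
    · rw [indicator_of_notMem (fun h' => hy (by
          have := mem_ball_zero_iff.1 h'
          rwa [norm_neg] at this)),
        indicator_of_notMem (fun h' => hy (mem_ball_zero_iff.1 h'))]
  have h2 : ∫ y in Metric.ball (0 : V) 1, Ψ (-y) = -bi Ψ := by
    simp_rw [h]
    rw [integral_neg, bi]
  linarith

end Pool.Agent.Lib.MP_e62723_gt.TD
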