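import Pool.Agent.Lib.MP_e62723_gt.TD.Trunc
import Pool.Agent.Lib.MP_e62723_gt.TD.Path
import Pool.Agent.Lib.MP_e62723_gt.TD.Grad

/-!
# JOB Sph: the spectral gap on the sphere

Let `p = q + 1`, `m = 2p + 1`, `Φ = phi p f`, `G = grd q f F`, `A = ∫ Φ² dγ`, `D = ∫ ‖G‖² dγ`.
`gauss_gap` (`m A ≤ D`): for `0 < θ < π/2` let `ρ = cos θ ∈ (0,1)`, `√(1-ρ²) = sin θ`. By
`Path.path`, rotation invariance (`Asy.map_lin`: the law of `cos θ X + sin θ Z` is `γ`) and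
`Reg.trunc`:
`θ² D ≥ E(Φ(X_θ) - Φ(X))² = 2 A - 2 E Φ(X) Φ(X_θ) ≥ 2 (1 - ρ^m) A`. Now
`1 - ρ^m ≥ m (1 - ρ) ρ^(m-1)` (`1 - ρ^m = (1-ρ) ∑_{i<m} ρ^i`, `Mathlib: geom_sum`), and
`1 - cos θ ≥ θ²/2 - θ⁴/24 ≥ θ²/2 (1 - θ²)` (`Real.cos_bound` for `θ ≤ 1`:
`|cos x - (1 - x²/2)| ≤ |x|⁴ * (5/96)`), so `m (1-θ²) (cos θ)^(m-1) A ≤ D` for all small `θ > 0`;
let `θ → 0+` (continuity, `le_of_tendsto`/`ge_of_tendsto`).
`sph_gap`: by `gam_pow`: `Φ² = (f/‖y‖)² ‖y‖^(4p+2)`, so `A = gc * gi (4p+4) * a`,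
`a = bi ((f/‖y‖)²)`; by `grad_sq`: `D = gc * gi (4p+2) * ((4p²+4p) a + b)`, `b = bi (‖F‖²)`;
`gi (4p+4) = (4p+3) gi (4p+2)` (`gi_step`). Hence `(2p+1)(4p+3) a ≤ (4p²+4p) a + b`, and
`(2p+1)(4p+3) - 4p² - 4p = 4p² + 6p + 3`.
(`p = 1`: `13 a ≤ b`; `p = 2`: `31 a ≤ b`.)
-/

open MeasureTheory ProbabilityTheory Set Filter

namespace Pool.Agent.Lib.MP_e62723_gt.TD

open Pool.Agent.Lib.MP_e62723_gt.Asy

variable {C : ℝ} {f : V → ℝ} {F : V → V}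

private theorem Sph_phi_sq (q : ℕ) (y : V) :
    phi (q + 1) f y ^ 2 = (f y / ‖y‖) ^ 2 * ‖y‖ ^ (4 * (q + 1) + 2) := by
  unfold phi
  by_cases hy : ‖y‖ = 0
  · rw [hy, zero_pow (by omega), zero_pow (by omega)]
    ring
  · rw [div_pow, mul_pow, ← pow_mul, pow_add, show 2 * (q + 1) * 2 = 4 * (q + 1) by ring]
    field_simp

private theorem Sph_int (h : Reg C f F) (q : ℕ) :
    Integrable (fun y => phi (q + 1) f y ^ 2) (gam 3) ∧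
      ∫ y, phi (q + 1) f y ^ 2 ∂(gam 3) =
        gc * gi (4 * (q + 1) + 4) * bi (fun y => (f y / ‖y‖) ^ 2) := by
  have h1 := gam_pow (h.hom0_f.pow 2) (4 * (q + 1) + 2)
  have h2 : (fun y => phi (q + 1) f y ^ 2) =
      fun y : V => (f y / ‖y‖) ^ 2 * ‖y‖ ^ (4 * (q + 1) + 2) := funext fun y => Sph_phi_sq q y
  rw [h2]
  exact h1

private theorem Sph_map {L : V × V → V} (hL : Measurable L)
    (hm : ((gam 3).prod (gam 3)).map L = gam 3) {u : V → ℝ} (hu : Integrable u (gam 3)) :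
    Integrable (fun p => u (L p)) ((gam 3).prod (gam 3)) ∧
      ∫ p, u (L p) ∂((gam 3).prod (gam 3)) = ∫ x, u x ∂(gam 3) := by
  have hp : MeasurePreserving L ((gam 3).prod (gam 3)) (gam 3) := ⟨hL, hm⟩
  refine ⟨hp.integrable_comp_of_integrable hu, ?_⟩
  have h1 := integral_map (μ := (gam 3).prod (gam 3)) hL.aemeasurable (f := u) (by
    rw [hm]
    exact hu.aestronglyMeasurable)
  rw [hm] at h1
  exact h1.symm

private theorem Sph_bern {ρ : ℝ} (h0 : 0 ≤ ρ) (h1 : ρ ≤ 1) (n : ℕ) :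
    (n + 1 : ℝ) * (1 - ρ) * ρ ^ n ≤ 1 - ρ ^ (n + 1) := by
  induction n with
  | zero => simp
  | succ n ih =>
    have h2 : 0 ≤ ρ ^ n := pow_nonneg h0 n
    have h3 : ρ ^ (n + 1) ≤ ρ ^ n := pow_le_pow_of_le_one h0 h1 (Nat.le_succ n)
    have h4 : (0 : ℝ) ≤ (n + 1 : ℝ) * (1 - ρ) := mul_nonneg (by positivity) (by linarith)
    have h5 := mul_le_mul_of_nonneg_left h3 h4
    push_cast
    have h6 : ρ ^ (n + 1 + 1) = ρ ^ (n + 1) * ρ := pow_succ _ _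
    rw [h6]
    linarith [h5, ih]

private theorem Sph_cos {θ : ℝ} (h0 : 0 < θ) (h1 : θ < 1) :
    θ ^ 2 * (1 - θ ^ 2) ≤ 2 * (1 - Real.cos θ) := by
  have h2 := Real.cos_bound (x := θ) (by rw [abs_of_pos h0]; exact h1.le)
  rw [abs_of_pos h0] at h2
  have h3 := (abs_le.1 h2).2
  have h4 : 0 ≤ θ ^ 4 := by positivity
  nlinarith

private theorem Sph_step (h : Reg C f F) (q : ℕ)
    (horth : ∀ x : V, ∀ j < 2 * (q + 1) + 1,
      bi (fun y => f y / ‖y‖ * (inner ℝ x y / ‖y‖) ^ j) = 0) {θ : ℝ} (h0 : 0 < θ) (h1 : θ < 1) :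
    (2 * (q + 1) + 1 : ℝ) * ((1 - θ ^ 2) * Real.cos θ ^ (2 * (q + 1))) *
      ∫ x : V, phi (q + 1) f x ^ 2 ∂(gam 3) ≤ ∫ x : V, ‖grd q f F x‖ ^ 2 ∂(gam 3) := by
  have hpi : θ < Real.pi / 2 := h1.trans (by
    have := Real.pi_gt_three
    linarith)
  have hs : 0 < Real.sin θ := Real.sin_pos_of_pos_of_lt_pi h0 (by linarith)
  have hc0 : 0 < Real.cos θ := Real.cos_pos_of_mem_Ioo ⟨by linarith, hpi⟩
  have hc1 : Real.cos θ < 1 := by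
    have h2 := Sph_cos h0 h1
    have h3 : 0 < θ ^ 2 * (1 - θ ^ 2) := mul_pos (by positivity) (by nlinarith)
    linarith
  have hsq : √(1 - Real.cos θ ^ 2) = Real.sin θ := by
    rw [← Real.sin_sq, Real.sqrt_sq hs.le]
  obtain ⟨D, hD⟩ := h.grad_growth q
  obtain ⟨i3, hI⟩ := path (h.grad_cont q) (h.grad_hasFDerivAt q) hD h0
  have htr := h.trunc (q + 1) horth hc0 hc1
  rw [hsq] at htr
  obtain ⟨hA, -⟩ := Sph_int h q
  have hfst : ((gam 3).prod (gam 3)).map (Prod.fst : V × V → V) = gam 3 := by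
    rw [Measure.map_fst_prod, measure_univ, one_smul]
  obtain ⟨i1, e1⟩ := Sph_map measurable_fst hfst hA
  have hLm : Measurable (fun p : V × V => Real.cos θ • p.1 + Real.sin θ • p.2) := by
    fun_prop
  obtain ⟨i2, e2⟩ := Sph_map hLm (map_lin 3 (Real.cos_sq_add_sin_sq θ)) hA
  have e3 : ∫ p : V × V, phi (q + 1) f p.1 *
      phi (q + 1) f (Real.cos θ • p.1 + Real.sin θ • p.2) ∂((gam 3).prod (gam 3)) =
      (1 / 2) * (∫ x : V, phi (q + 1) f x ^ 2 ∂(gam 3) + ∫ x : V, phi (q + 1) f x ^ 2 ∂(gam 3) -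
        ∫ p : V × V, (phi (q + 1) f (Real.cos θ • p.1 + Real.sin θ • p.2) -
          phi (q + 1) f p.1) ^ 2 ∂((gam 3).prod (gam 3))) := by
    rw [← e1, ← e2.trans e1.symm, e2.trans e1.symm]
    have e4 := integral_sub (i1.add i2) i3
    have e5 := integral_add i1 i2
    have e6 : ∫ p : V × V, phi (q + 1) f p.1 *
        phi (q + 1) f (Real.cos θ • p.1 + Real.sin θ • p.2) ∂((gam 3).prod (gam 3)) =
        ∫ p : V × V, (1 / 2) * ((phi (q + 1) f p.1 ^ 2 +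
          phi (q + 1) f (Real.cos θ • p.1 + Real.sin θ • p.2) ^ 2) -
          (phi (q + 1) f (Real.cos θ • p.1 + Real.sin θ • p.2) -
          phi (q + 1) f p.1) ^ 2) ∂((gam 3).prod (gam 3)) := by
      refine integral_congr_ae (Filter.Eventually.of_forall fun p => ?_)
      change phi (q + 1) f p.1 * phi (q + 1) f (Real.cos θ • p.1 + Real.sin θ • p.2) =
        (1 / 2) * ((phi (q + 1) f p.1 ^ 2 +
          phi (q + 1) f (Real.cos θ • p.1 + Real.sin θ • p.2) ^ 2) -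
          (phi (q + 1) f (Real.cos θ • p.1 + Real.sin θ • p.2) -
          phi (q + 1) f p.1) ^ 2)
      ring
    rw [e6, integral_const_mul]
    congr 1
    refine e4.trans ?_
    rw [← e5.trans (congrArg₂ (· + ·) rfl (e2.trans e1.symm))]
    rfl
  obtain ⟨A, hAd⟩ : ∃ A, A = ∫ x : V, phi (q + 1) f x ^ 2 ∂(gam 3) := ⟨_, rfl⟩
  obtain ⟨D', hD'⟩ : ∃ D', D' = ∫ x : V, ‖grd q f F x‖ ^ 2 ∂(gam 3) := ⟨_, rfl⟩
  have hA0 : 0 ≤ A := by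
    rw [hAd]
    exact integral_nonneg fun x => sq_nonneg _
  rw [e3] at htr
  rw [← hAd] at htr ⊢
  rw [← hD'] at hI ⊢
  have k1 : 2 * (1 - Real.cos θ ^ (2 * (q + 1) + 1)) * A ≤ θ ^ 2 * D' := by
    linarith
  have k2 := Sph_bern hc0.le hc1.le (2 * (q + 1))
  have k3 := Sph_cos h0 h1
  have k4 : (2 * (q + 1) + 1 : ℝ) * Real.cos θ ^ (2 * (q + 1)) * (θ ^ 2 * (1 - θ ^ 2)) ≤
      2 * (1 - Real.cos θ ^ (2 * (q + 1) + 1)) := by
    have k5 : (0 : ℝ) ≤ (2 * (q + 1) + 1 : ℝ) * Real.cos θ ^ (2 * (q + 1)) := by positivity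
    have k6 := mul_le_mul_of_nonneg_left k3 k5
    push_cast at k2
    linarith
  have k7 := mul_le_mul_of_nonneg_right k4 hA0
  have k8 : θ ^ 2 * ((2 * (q + 1) + 1 : ℝ) * ((1 - θ ^ 2) * Real.cos θ ^ (2 * (q + 1))) * A) ≤
      θ ^ 2 * D' := by
    linarith
  exact le_of_mul_le_mul_left k8 (by positivity)

theorem Reg.gauss_gap (h : Reg C f F) (q : ℕ)
    (horth : ∀ x : V, ∀ j < 2 * (q + 1) + 1,
      bi (fun y => f y / ‖y‖ * (inner ℝ x y / ‖y‖) ^ j) = 0) :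
    (2 * (q + 1) + 1 : ℝ) * ∫ x : V, phi (q + 1) f x ^ 2 ∂(gam 3) ≤
      ∫ x : V, ‖grd q f F x‖ ^ 2 ∂(gam 3) := by
  obtain ⟨A, hA⟩ : ∃ A, A = ∫ x : V, phi (q + 1) f x ^ 2 ∂(gam 3) := ⟨_, rfl⟩
  have hcont : Continuous fun θ : ℝ =>
      (2 * (q + 1) + 1 : ℝ) * ((1 - θ ^ 2) * Real.cos θ ^ (2 * (q + 1))) * A := by
    fun_prop
  have hlim : Tendsto (fun θ : ℝ =>
      (2 * (q + 1) + 1 : ℝ) * ((1 - θ ^ 2) * Real.cos θ ^ (2 * (q + 1))) * A)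
      (nhdsWithin 0 (Ioi 0)) (nhds ((2 * (q + 1) + 1 : ℝ) * A)) := by
    have h1 := (hcont.tendsto 0).mono_left (nhdsWithin_le_nhds (s := Ioi (0 : ℝ)))
    have h2 : (2 * (q + 1) + 1 : ℝ) * ((1 - (0 : ℝ) ^ 2) * Real.cos 0 ^ (2 * (q + 1))) * A =
        (2 * (q + 1) + 1 : ℝ) * A := by
      rw [Real.cos_zero, one_pow]
      ring
    rw [h2] at h1
    exact h1
  rw [← hA]
  refine le_of_tendsto hlim ?_
  have h3 : Ioo (0 : ℝ) 1 ∈ nhdsWithin (0 : ℝ) (Ioi 0) := Ioo_mem_nhdsGT one_pos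
  filter_upwards [h3] with θ hθ
  rw [hA]
  exact Sph_step h q horth hθ.1 hθ.2

theorem Reg.sph_gap (h : Reg C f F) (q : ℕ)
    (horth : ∀ x : V, ∀ j < 2 * (q + 1) + 1,
      bi (fun y => f y / ‖y‖ * (inner ℝ x y / ‖y‖) ^ j) = 0) :
    (4 * (q + 1) ^ 2 + 6 * (q + 1) + 3 : ℝ) * bi (fun y => (f y / ‖y‖) ^ 2) ≤
      bi (fun y => ‖F y‖ ^ 2) := by
  have h1 := h.gauss_gap q horth
  rw [(Sph_int h q).2] at h1
  obtain ⟨c, hc⟩ : ∃ c : ℝ, c = 4 * (q + 1) ^ 2 + 4 * (q + 1) := ⟨_, rfl⟩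
  have hH1 : Hom0 (fun y => c * (f y / ‖y‖) ^ 2) := (h.hom0_f.pow 2).smul c
  have hH : Hom0 (fun y => c * (f y / ‖y‖) ^ 2 + ‖F y‖ ^ 2) := hH1.add h.hom0_F
  have h2 := (gam_pow hH (4 * (q + 1))).2
  have h3 : ∫ x : V, ‖grd q f F x‖ ^ 2 ∂(gam 3) =
      gc * gi (4 * (q + 1) + 2) * bi (fun y => c * (f y / ‖y‖) ^ 2 + ‖F y‖ ^ 2) := by
    rw [← h2]
    refine integral_congr_ae (Filter.Eventually.of_forall fun y => ?_)
    change ‖grd q f F y‖ ^ 2 = (c * (f y / ‖y‖) ^ 2 + ‖F y‖ ^ 2) * ‖y‖ ^ (4 * (q + 1))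
    rw [h.grad_sq q y, hc]
  have h4 : bi (fun y => c * (f y / ‖y‖) ^ 2 + ‖F y‖ ^ 2) =
      c * bi (fun y => (f y / ‖y‖) ^ 2) + bi (fun y => ‖F y‖ ^ 2) := by
    unfold bi
    rw [integral_add hH1.intBall h.hom0_F.intBall, integral_const_mul]
  have h5 : gi (4 * (q + 1) + 4) = (4 * (q + 1) + 3 : ℝ) * gi (4 * (q + 1) + 2) := by
    have h6 := gi_step (4 * (q + 1) + 2)
    rw [show 4 * (q + 1) + 2 + 2 = 4 * (q + 1) + 4 by ring] at h6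
    rw [h6]
    push_cast
    ring
  rw [h3, h4, h5] at h1
  obtain ⟨a, ha⟩ : ∃ a, a = bi (fun y => (f y / ‖y‖) ^ 2) := ⟨_, rfl⟩
  obtain ⟨b, hb⟩ : ∃ b, b = bi (fun y => ‖F y‖ ^ 2) := ⟨_, rfl⟩
  rw [← ha, ← hb] at h1 ⊢
  have hg : 0 < gc * gi (4 * (q + 1) + 2) := mul_pos gc_pos (gi_pos _)
  have h7 : gc * gi (4 * (q + 1) + 2) * ((2 * (q + 1) + 1 : ℝ) * (4 * (q + 1) + 3) * a) ≤
      gc * gi (4 * (q + 1) + 2) * (c * a + b) := by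
    linarith
  have h8 := le_of_mul_le_mul_left h7 hg
  rw [hc] at h8
  linarith

/-- Odd centred functions: `13 ⟨(f/‖y‖)²⟩ ≤ ⟨‖F‖²⟩`. (`sph_gap` with `q = 0`; `j = 0` and `j = 2` by
`bi_odd`, `j = 1` is the hypothesis.) -/
theorem Reg.sph_gap3 (h : Reg C f F) (hodd : ∀ y, f (-y) = -f y)
    (hcen : ∀ x : V, bi (fun y => f y / ‖y‖ * (inner ℝ x y / ‖y‖)) = 0) :
    13 * bi (fun y => (f y / ‖y‖) ^ 2) ≤ bi (fun y => ‖F y‖ ^ 2) := by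
  have h1 := h.sph_gap 0 (fun x j hj => by
    have hj3 : j < 3 := hj
    have hj' : j = 0 ∨ j = 1 ∨ j = 2 := by omega
    rcases hj' with rfl | rfl | rfl
    · refine bi_odd fun y => ?_
      rw [hodd, norm_neg, pow_zero, pow_zero]
      ring
    · have h2 := hcen x
      simp only [pow_one]
      exact h2
    · refine bi_odd fun y => ?_
      rw [hodd, norm_neg, inner_neg_right]
      ring)
  norm_num at h1
  exact h1

end Pool.Agent.Lib.MP_e62723_gt.TD
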