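import Pool.Agent.Lib.MP_e62723_gt.TD.Orth
import Pool.Agent.Lib.MP_e62723_gt.TD.GapM

/-!
# JOB Trunc: the gap inequality for the unbounded function `phi p f`

For `k = 1, 2, 3, ...` (natural numbers) apply `gapM` (with `n = 3`, `m = 2p+1`, `Φ = phiK k p f`)
and `integral_mul_T`:
`∫∫ Φ_k(x) Φ_k(ρ x + √(1-ρ²) z) dγ dγ ≤ ρ^m ∫ Φ_k² ≤ ρ^m ∫ Φ²` (as `Φ_k² ≤ Φ²`, `Φ²` integrable:
`phi p f y ^ 2 = (f y/‖y‖)^2 * ‖y‖^(4p+2)`, `gam_pow`). Let `k → ∞`: dominated convergence on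
`γ ⊗ γ` (`tendsto_integral_of_dominated_convergence`), `|Φ_k(x) Φ_k(y')| ≤ |Φ(x)| |Φ(y')| ≤
(Φ(x)² + Φ(y')²)/2` with `y' = ρ x + √(1-ρ²) z`, where `Φ(x)²` and `Φ(y')²` are `γ⊗γ`-integrable
(`Integrable.comp_fst`; `Asy.map_lin 3 : (γ⊗γ).map (fun q => a • q.1 + b • q.2) = γ` for
`a² + b² = 1`, `MeasurePreserving.integrable_comp` / `integrable_map_measure`), and
`Φ_k(x) → Φ(x)` (eventually equal). `le_of_tendsto'`.
-/

open MeasureTheory ProbabilityTheory Set Filter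

namespace Pool.Agent.Lib.MP_e62723_gt.TD

open Pool.Agent.Lib.MP_e62723_gt.Asy

variable {C : ℝ} {f : V → ℝ} {F : V → V}

theorem Reg.trunc (h : Reg C f F) (p : ℕ)
    (horth : ∀ x : V, ∀ j < 2 * p + 1,
      bi (fun y => f y / ‖y‖ * (inner ℝ x y / ‖y‖) ^ j) = 0) {ρ : ℝ} (h0 : 0 < ρ) (h1 : ρ < 1) :
    ∫ q : V × V, phi p f q.1 * phi p f (ρ • q.1 + √(1 - ρ ^ 2) • q.2) ∂((gam 3).prod (gam 3)) ≤
      ρ ^ (2 * p + 1) * ∫ x : V, phi p f x ^ 2 ∂(gam 3) := by
  classical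
  have hs : ρ ^ 2 + √(1 - ρ ^ 2) ^ 2 = 1 := by
    rw [Real.sq_sqrt (by nlinarith)]
    ring
  have hlin : Measurable (fun q : V × V => ρ • q.1 + √(1 - ρ ^ 2) • q.2) := by fun_prop
  have hphi : Measurable (phi p f) := by
    have h2 : Continuous (phi p f) := by
      unfold phi
      exact (continuous_norm.pow (2 * p)).mul h.cont
    exact h2.measurable
  -- square integrability
  have hsq : (fun y : V => phi p f y ^ 2) = fun y : V => (f y / ‖y‖) ^ 2 * ‖y‖ ^ (4 * p + 2) := by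
    funext y
    rcases eq_or_ne y 0 with hy | hy
    · subst hy
      simp [phi, h.f_zero]
    · have hy0 : ‖y‖ ≠ 0 := norm_ne_zero_iff.2 hy
      simp only [phi]
      rw [mul_pow, div_pow, pow_add, ← pow_mul, show 2 * p * 2 = 4 * p by ring]
      field_simp
  have hint : Integrable (fun y : V => phi p f y ^ 2) (gam 3) := by
    rw [hsq]
    exact (gam_pow (h.hom0_f.pow 2) (4 * p + 2)).1
  have hle : ∀ (k : ℝ) (y : V), |phiK k p f y| ≤ |phi p f y| := by
    intro k y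
    unfold phiK
    split_ifs
    · exact le_rfl
    · rw [abs_zero]
      exact abs_nonneg _
  have hk0 : ∀ k : ℕ, (0 : ℝ) < (k : ℝ) + 1 := fun k => by positivity
  have hstep : ∀ k : ℕ,
      ∫ q : V × V, phiK ((k : ℝ) + 1) p f q.1 *
          phiK ((k : ℝ) + 1) p f (ρ • q.1 + √(1 - ρ ^ 2) • q.2) ∂((gam 3).prod (gam 3)) ≤
        ρ ^ (2 * p + 1) * ∫ x : V, phi p f x ^ 2 ∂(gam 3) := by
    intro k
    obtain ⟨D, hD⟩ := h.phiK_bdd (hk0 k) p
    have h2 := gapM (n := 3) (m := 2 * p + 1) h0 h1 (h.phiK_meas ((k : ℝ) + 1) p) hD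
      (fun s hs x j hj => h.phiK_orth horth (hk0 k) p s hs x j hj)
    rw [integral_mul_T (h.phiK_meas _ p) (h.phiK_meas _ p) hD hD] at h2
    refine h2.trans (mul_le_mul_of_nonneg_left ?_ (by positivity))
    refine integral_mono_of_nonneg (Eventually.of_forall fun x => sq_nonneg _) hint
      (Eventually.of_forall fun x => ?_)
    exact sq_le_sq.2 (hle _ x)
  have hlim : ∀ y : V, Tendsto (fun k : ℕ => phiK ((k : ℝ) + 1) p f y) atTop
      (nhds (phi p f y)) := by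
    intro y
    refine tendsto_const_nhds.congr' ?_
    obtain ⟨N, hN⟩ := exists_nat_ge ‖y‖
    filter_upwards [eventually_ge_atTop N] with k hk
    have h3 : ‖y‖ ≤ (k : ℝ) + 1 := by
      have : (N : ℝ) ≤ k := Nat.cast_le.2 hk
      linarith
    unfold phiK
    rw [if_pos h3]
  have hb : Integrable (fun q : V × V =>
      (phi p f q.1 ^ 2 + phi p f (ρ • q.1 + √(1 - ρ ^ 2) • q.2) ^ 2) / 2)
      ((gam 3).prod (gam 3)) := by
    have h3 : Integrable (fun q : V × V => phi p f q.1 ^ 2) ((gam 3).prod (gam 3)) :=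
      hint.comp_fst (gam 3)
    have h4 : Integrable (fun q : V × V => phi p f (ρ • q.1 + √(1 - ρ ^ 2) • q.2) ^ 2)
        ((gam 3).prod (gam 3)) := by
      have h5 := hint
      rw [← map_lin 3 hs] at h5
      exact h5.comp_measurable hlin
    exact (h3.add h4).div_const 2
  refine le_of_tendsto' (tendsto_integral_of_dominated_convergence _ (fun k => ?_) hb
    (fun k => Eventually.of_forall fun q => ?_)
    (Eventually.of_forall fun q => (hlim q.1).mul (hlim _))) hstep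
  · exact (((h.phiK_meas _ p).comp measurable_fst).mul
      ((h.phiK_meas _ p).comp hlin)).aestronglyMeasurable
  · rw [Real.norm_eq_abs, abs_mul]
    have h3 := hle ((k : ℝ) + 1) q.1
    have h4 := hle ((k : ℝ) + 1) (ρ • q.1 + √(1 - ρ ^ 2) • q.2)
    have h5 := mul_le_mul h3 h4 (abs_nonneg _) (abs_nonneg _)
    refine h5.trans ?_
    rw [← sq_abs (phi p f q.1), ← sq_abs (phi p f (ρ • q.1 + √(1 - ρ ^ 2) • q.2))]
    nlinarith [sq_nonneg (|phi p f q.1| - |phi p f (ρ • q.1 + √(1 - ρ ^ 2) • q.2)|)]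

end Pool.Agent.Lib.MP_e62723_gt.TD
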