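import Pool.Agent.Lib.MP_e62723_gt.TD.Hom
import Pool.Agent.Lib.MP_e62723_gt.TD.Det

/-!
# JOB Vol: the volume of the parallel bodies, from below

Let `Γ y = (1 + t) • y + ‖y‖ • F y = ‖y‖ • (X(u) + t • u)` with `u = ‖y‖⁻¹ • y`,
`X(u) = u + F u ∈ K` (`F u = F y`). Let `s = {y | 0 < ‖y‖ < 1, F differentiable at y}`
(measurable: `measurableSet_of_differentiableAt`, and `s` is almost all of the ball:
`Reg.ae_diff`).
(a) `Γ` maps `s` into `Metric.cthickening t K`: `‖y‖ • X(u) ∈ K` by convexity (`0 ∈ K`) and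
`‖‖y‖ t u‖ ≤ t` (`Metric.mem_cthickening_of_dist_le`).
(b) `Γ` is injective on `s`: let `H(u) = 1 + t + f u > 0` and `p(u) = X(u) + t u`. For unit
`u, v`: `⟪p(v), u⟫ ≤ H(u)` (`hsup` and `⟪v,u⟫ ≤ 1`), and `⟪p(u), u⟫ = H(u)` (`Reg.euler`). If
`‖y‖ p(u) = ‖z‖ p(v)`, then `‖y‖ H(u) = ‖z‖ ⟪p(v),u⟫ ≤ ‖z‖ H(u)`, so `‖y‖ ≤ ‖z‖`, and
symmetrically; so `‖y‖ = ‖z‖`, `p(u) = p(v)`, that is `(1+t) (u - v) = -(F u - F v)`; taking norms
`(1+t) ‖u - v‖ = ‖F u - F v‖ ≤ ‖u - v‖` (`lip` with `C = 1`), so `u = v` and `y = z`.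
(c) At `y ∈ s`, `HasFDerivAt Γ ((1+t) • id + (innerSL ℝ u).smulRight (F y) + ‖y‖ • A) y` with
`A = fderiv ℝ F y` (derivative of the norm at `y ≠ 0`: `‖y‖⁻¹ • innerSL ℝ y = innerSL ℝ u`).
`L = ‖y‖ • A` is symmetric (`A_symm`) and `L u = 0` (`A_self`), so by `det_formula` its
determinant is `(1+t+⟪F y,u⟫) ((1+t)² + (1+t) tr L + e2 L)`, `⟪F y, u⟫ = f y/‖y‖` (`euler`),
`tr L = ‖y‖ tr A`, `e2 L = ‖y‖² e2 A`.
(d) `lintegral_abs_det_fderiv_eq_addHaar_image volume (hs : MeasurableSet s)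
(hf' : ∀ x ∈ s, HasFDerivWithinAt f (f' x) s x) (hf : InjOn f s)`:
`∫⁻_s |det| = volume (Γ '' s) ≤ volume (cthickening t K) < ∞` (`K` compact:
`IsCompact.cthickening`, `IsCompact.measure_lt_top`).
Finally `∫_ball (det) = ∫_s det ≤ ∫_s |det| = (∫⁻_s |det|).toReal` (the integrand is bounded and
measurable: `Hom0` closure properties, `hom0_f`, `hom0_tr`, `hom0_e2`;
`integral_eq_lintegral_of_nonneg_ae` or `ofReal_integral_norm_eq_lintegral_enorm`).
-/

open MeasureTheory Set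

namespace Pool.Agent.Lib.MP_e62723_gt.TD

variable {f : V → ℝ} {F : V → V}

private theorem vol_norm {y : V} (hy : y ≠ 0) :
    HasFDerivAt (fun z : V => ‖z‖) (innerSL ℝ (‖y‖⁻¹ • y)) y := by
  have hn : ‖y‖ ≠ 0 := norm_ne_zero_iff.2 hy
  have h1 : HasFDerivAt (fun z : V => ‖z‖ ^ 2) (2 • (innerSL ℝ y)) y :=
    (hasStrictFDerivAt_norm_sq y).hasFDerivAt
  have h2 := h1.sqrt (by positivity)
  have h3 : (fun z : V => √(‖z‖ ^ 2)) = fun z : V => ‖z‖ := by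
    funext z
    exact Real.sqrt_sq (norm_nonneg z)
  rw [h3, Real.sqrt_sq (norm_nonneg y)] at h2
  have h4 : (1 / (2 * ‖y‖)) • (2 • (innerSL ℝ y)) = innerSL ℝ (‖y‖⁻¹ • y) := by
    apply ContinuousLinearMap.ext
    intro v
    rw [ContinuousLinearMap.smul_apply, ContinuousLinearMap.smul_apply, innerSL_apply_apply,
      innerSL_apply_apply, real_inner_smul_left, smul_eq_mul, nsmul_eq_mul]
    push_cast
    field_simp
  rw [h4] at h2
  exact h2

private theorem vol_unit {y : V} (hy : y ≠ 0) : ‖(‖y‖⁻¹ • y : V)‖ = 1 := by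
  rw [norm_smul, norm_inv, norm_norm]
  exact inv_mul_cancel₀ (norm_ne_zero_iff.2 hy)

private noncomputable def volG (F : V → V) (t : ℝ) (y : V) : V := (1 + t) • y + ‖y‖ • F y

private theorem volG_eq (h : Reg 1 f F) (t : ℝ) {y : V} (hy : y ≠ 0) :
    volG F t y = ‖y‖ • ((1 + t) • (‖y‖⁻¹ • y) + F (‖y‖⁻¹ • y)) := by
  have hn : ‖y‖ ≠ 0 := norm_ne_zero_iff.2 hy
  have h1 : F (‖y‖⁻¹ • y) = F y := h.homF _ _ (inv_pos.2 (norm_pos_iff.2 hy))
  unfold volG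
  rw [h1, smul_add, smul_smul, smul_smul]
  have h2 : ‖y‖ * ((1 + t) * ‖y‖⁻¹) = 1 + t := by
    field_simp
  congr 2
  rw [mul_assoc]
  exact h2.symm

private theorem vol_deriv (t : ℝ) {y : V} (hy : y ≠ 0)
    (hd : DifferentiableAt ℝ F y) :
    HasFDerivAt (volG F t) ((1 + t) • ContinuousLinearMap.id ℝ V +
      (innerSL ℝ (‖y‖⁻¹ • y)).smulRight (F y) + ‖y‖ • fderiv ℝ F y) y := by
  have h1 : HasFDerivAt (fun z : V => (1 + t) • z) ((1 + t) • ContinuousLinearMap.id ℝ V) y :=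
    (hasFDerivAt_id y).const_smul (1 + t)
  have h2 := (vol_norm hy).smul hd.hasFDerivAt
  have h3 := h1.add h2
  have h4 : (1 + t) • ContinuousLinearMap.id ℝ V + (‖y‖ • fderiv ℝ F y +
      (innerSL ℝ (‖y‖⁻¹ • y)).smulRight (F y)) = (1 + t) • ContinuousLinearMap.id ℝ V +
      (innerSL ℝ (‖y‖⁻¹ • y)).smulRight (F y) + ‖y‖ • fderiv ℝ F y := by
    rw [add_assoc, add_comm (‖y‖ • fderiv ℝ F y)]
  rw [h4] at h3
  exact h3

private theorem vol_det (h : Reg 1 f F) {t : ℝ} (ht : 0 < t) {y : V} (hy : y ≠ 0) :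
    ((1 + t) • ContinuousLinearMap.id ℝ V +
      (innerSL ℝ (‖y‖⁻¹ • y)).smulRight (F y) + ‖y‖ • fderiv ℝ F y).det =
    (1 + t + f y / ‖y‖) * ((1 + t) ^ 2 + (1 + t) * (‖y‖ * tr (fderiv ℝ F y)) +
      ‖y‖ ^ 2 * e2 (fderiv ℝ F y)) := by
  have hn : ‖y‖ ≠ 0 := norm_ne_zero_iff.2 hy
  have hsymm : ∀ v w : V, inner ℝ ((‖y‖ • fderiv ℝ F y) v) w =
      inner ℝ ((‖y‖ • fderiv ℝ F y) w) v := by
    intro v w
    rw [ContinuousLinearMap.smul_apply, ContinuousLinearMap.smul_apply, real_inner_smul_left,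
      real_inner_smul_left, h.A_symm hy]
  have hL : (‖y‖ • fderiv ℝ F y) (‖y‖⁻¹ • y) = 0 := by
    rw [ContinuousLinearMap.smul_apply, map_smul, h.A_self hy, smul_zero, smul_zero]
  have h1 := det_formula (G := F y) (s := 1 + t) (by linarith) hsymm (vol_unit hy) hL
  rw [h1]
  have h2 : (inner ℝ (F y) (‖y‖⁻¹ • y) : ℝ) = f y / ‖y‖ := by
    rw [real_inner_smul_right, h.euler]
    field_simp
  have h3 : tr (‖y‖ • fderiv ℝ F y) = ‖y‖ * tr (fderiv ℝ F y) := by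
    unfold tr
    rw [Finset.mul_sum]
    refine Finset.sum_congr rfl fun i _ => ?_
    rw [ContinuousLinearMap.smul_apply, PiLp.smul_apply, smul_eq_mul]
  have h4 : hs (‖y‖ • fderiv ℝ F y) = ‖y‖ ^ 2 * hs (fderiv ℝ F y) := by
    unfold hs
    rw [Finset.mul_sum]
    refine Finset.sum_congr rfl fun i _ => ?_
    rw [ContinuousLinearMap.smul_apply, norm_smul, norm_norm, mul_pow]
  have h5 : e2 (‖y‖ • fderiv ℝ F y) = ‖y‖ ^ 2 * e2 (fderiv ℝ F y) := by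
    unfold e2
    rw [h3, h4]
    ring
  rw [h2, h3, h5]

private theorem vol_key (h : Reg 1 f F) {K : Set V}
    (hK : ∀ u : V, ‖u‖ = 1 → u + F u ∈ K)
    (hsup : ∀ u : V, ‖u‖ = 1 → ∀ z ∈ K, inner ℝ z u ≤ 1 + f u)
    (hpos : ∀ u : V, ‖u‖ = 1 → 0 < 1 + f u) {t : ℝ} (ht : 0 < t) {u v : V} (hu : ‖u‖ = 1)
    (hv : ‖v‖ = 1) {a b : ℝ} (hb : 0 < b)
    (hab : a • ((1 + t) • u + F u) = b • ((1 + t) • v + F v)) : a ≤ b := by
  have h1 : (inner ℝ ((1 + t) • u + F u) u : ℝ) = 1 + t + f u := by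
    rw [inner_add_left, real_inner_smul_left, real_inner_self_eq_norm_sq, hu, h.euler]
    ring
  have h2 : (inner ℝ ((1 + t) • v + F v) u : ℝ) ≤ 1 + t + f u := by
    have h3 := hsup u hu _ (hK v hv)
    have h4 : (inner ℝ v u : ℝ) ≤ 1 := by
      have h5 := real_inner_le_norm v u
      rw [hu, hv, mul_one] at h5
      exact h5
    rw [inner_add_left] at h3
    rw [inner_add_left, real_inner_smul_left]
    nlinarith
  have h6 : a * (1 + t + f u) = b * (inner ℝ ((1 + t) • v + F v) u : ℝ) := by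
    rw [← h1, ← real_inner_smul_left, ← real_inner_smul_left, hab]
  have h7 := hpos u hu
  have h8 : 0 < 1 + t + f u := by linarith
  have h9 : b * (inner ℝ ((1 + t) • v + F v) u : ℝ) ≤ b * (1 + t + f u) :=
    mul_le_mul_of_nonneg_left h2 hb.le
  rw [← h6] at h9
  exact le_of_mul_le_mul_right h9 h8

private theorem vol_inj (h : Reg 1 f F) {K : Set V}
    (hK : ∀ u : V, ‖u‖ = 1 → u + F u ∈ K)
    (hsup : ∀ u : V, ‖u‖ = 1 → ∀ z ∈ K, inner ℝ z u ≤ 1 + f u)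
    (hpos : ∀ u : V, ‖u‖ = 1 → 0 < 1 + f u) {t : ℝ} (ht : 0 < t) {y z : V} (hy : y ≠ 0)
    (hz : z ≠ 0) (hyz : volG F t y = volG F t z) : y = z := by
  rw [volG_eq h t hy, volG_eq h t hz] at hyz
  have hny : 0 < ‖y‖ := norm_pos_iff.2 hy
  have hnz : 0 < ‖z‖ := norm_pos_iff.2 hz
  have huy := vol_unit hy
  have huz := vol_unit hz
  have h1 := vol_key h hK hsup hpos ht huy huz hnz hyz
  have h2 := vol_key h hK hsup hpos ht huz huy hny hyz.symm
  have h3 : ‖y‖ = ‖z‖ := le_antisymm h1 h2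
  rw [h3] at hyz
  have h4 := smul_right_injective V hnz.ne' hyz
  set u : V := ‖z‖⁻¹ • y with hu
  set v : V := ‖z‖⁻¹ • z with hv
  have h4' : (1 + t) • u + F u = (1 + t) • v + F v := h4
  have h5 : (1 + t) • (u - v) = F v - F u := by
    rw [smul_sub]
    rw [sub_eq_sub_iff_add_eq_add, h4', add_comm]
  have hu1 : ‖u‖ = 1 := by
    rw [hu, ← h3]
    exact huy
  have h6 : (1 + t) * ‖u - v‖ ≤ 1 * ‖u - v‖ := by
    have h7 : ‖(1 + t) • (u - v)‖ = (1 + t) * ‖u - v‖ := by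
      rw [norm_smul, Real.norm_eq_abs, abs_of_pos (by linarith)]
    rw [← h7, h5, norm_sub_rev]
    exact h.lip u v hu1 huz
  have h8 : ‖u - v‖ = 0 := by
    have h9 := norm_nonneg (u - v)
    nlinarith
  have h9 : u = v := sub_eq_zero.1 (norm_eq_zero.1 h8)
  rw [hu, hv] at h9
  exact smul_right_injective V (inv_ne_zero hnz.ne') h9

theorem Reg.vol_ge (h : Reg 1 f F) {K : Set V} (hc : IsCompact K) (hconv : Convex ℝ K)
    (h0 : (0 : V) ∈ K) (hK : ∀ u : V, ‖u‖ = 1 → u + F u ∈ K)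
    (hsup : ∀ u : V, ‖u‖ = 1 → ∀ z ∈ K, inner ℝ z u ≤ 1 + f u)
    (hpos : ∀ u : V, ‖u‖ = 1 → 0 < 1 + f u) {t : ℝ} (ht : 0 < t) :
    bi (fun y => (1 + t + f y / ‖y‖) * ((1 + t) ^ 2 + (1 + t) * (‖y‖ * tr (fderiv ℝ F y)) +
      ‖y‖ ^ 2 * e2 (fderiv ℝ F y))) ≤ (volume (Metric.cthickening t K)).toReal := by
  set g : V → ℝ := fun y => (1 + t + f y / ‖y‖) *
    ((1 + t) ^ 2 + (1 + t) * (‖y‖ * tr (fderiv ℝ F y)) + ‖y‖ ^ 2 * e2 (fderiv ℝ F y)) with hg
  have hg0 : Hom0 g :=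
    ((Hom0.const (1 + t)).add h.hom0_f).mul
      (((Hom0.const ((1 + t) ^ 2)).add (h.hom0_tr.smul (1 + t))).add h.hom0_e2)
  set s : Set V := Metric.ball (0 : V) 1 ∩ ({0}ᶜ ∩ {y | DifferentiableAt ℝ F y}) with hs
  have hsm : MeasurableSet s :=
    measurableSet_ball.inter ((measurableSet_singleton (0 : V)).compl.inter
      (measurableSet_of_differentiableAt ℝ F))
  have hsub : s ⊆ Metric.ball (0 : V) 1 := inter_subset_left
  have hae : s =ᵐ[volume] Metric.ball (0 : V) 1 := by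
    filter_upwards [h.ae_diff] with y hy
    apply propext
    constructor
    · intro hy2
      exact hsub hy2
    · intro hy2
      exact ⟨hy2, hy.1, hy.2⟩
  have hder : ∀ y ∈ s, HasFDerivWithinAt (volG F t) ((1 + t) • ContinuousLinearMap.id ℝ V +
      (innerSL ℝ (‖y‖⁻¹ • y)).smulRight (F y) + ‖y‖ • fderiv ℝ F y) s y := by
    intro y hy
    exact (vol_deriv t hy.2.1 hy.2.2).hasFDerivWithinAt
  have hinj : InjOn (volG F t) s := by
    intro y hy z hz hyz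
    exact vol_inj h hK hsup hpos ht hy.2.1 hz.2.1 hyz
  have harea := lintegral_abs_det_fderiv_eq_addHaar_image volume hsm hder hinj
  have himg : volG F t '' s ⊆ Metric.cthickening t K := by
    rintro _ ⟨y, hy, rfl⟩
    have hy0 : y ≠ 0 := hy.2.1
    have hu := vol_unit hy0
    have hn : 0 < ‖y‖ := norm_pos_iff.2 hy0
    have hn1 : ‖y‖ < 1 := by
      have := hy.1
      rwa [mem_ball_zero_iff] at this
    have hmem : ‖y‖ • (‖y‖⁻¹ • y + F (‖y‖⁻¹ • y)) ∈ K :=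
      hconv.smul_mem_of_zero_mem h0 (hK _ hu) ⟨hn.le, hn1.le⟩
    apply Metric.mem_cthickening_of_dist_le _ _ _ _ hmem
    rw [volG_eq h t hy0, dist_eq_norm, ← smul_sub, add_sub_add_right_eq_sub, add_smul, one_smul,
      add_sub_cancel_left, norm_smul, norm_smul, hu, norm_norm, Real.norm_eq_abs, abs_of_pos ht]
    nlinarith
  have hfin : volume (Metric.cthickening t K) ≠ ⊤ := hc.cthickening.measure_lt_top.ne
  have h1 : bi g = ∫ y in s, g y := (setIntegral_congr_set hae).symm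
  have hint : IntegrableOn g s := hg0.intBall.mono_set hsub
  have h2 : ∫ y in s, g y ≤ ∫ y in s, |g y| :=
    integral_mono hint hint.abs (fun y => le_abs_self _)
  have h3 : ∫ y in s, |g y| = (∫⁻ y in s, ENNReal.ofReal |g y|).toReal :=
    integral_eq_lintegral_of_nonneg_ae (Filter.Eventually.of_forall fun y => abs_nonneg _)
      hg0.meas.abs.aestronglyMeasurable
  have h4 : ∫⁻ y in s, ENNReal.ofReal |g y| = volume (volG F t '' s) := by
    rw [← harea]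
    apply setLIntegral_congr_fun hsm
    intro y hy
    show ENNReal.ofReal |g y| = ENNReal.ofReal |((1 + t) • ContinuousLinearMap.id ℝ V +
      (innerSL ℝ (‖y‖⁻¹ • y)).smulRight (F y) + ‖y‖ • fderiv ℝ F y).det|
    rw [vol_det h ht hy.2.1]
  rw [h1]
  refine h2.trans ?_
  rw [h3, h4]
  exact ENNReal.toReal_mono hfin (measure_mono himg)

end Pool.Agent.Lib.MP_e62723_gt.TD
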